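import Pool.Agent.H25.TK.PackDefs

/-!
Lovasz local lemma for disjoint choices.

PROOF. For a predicate `f` on choices `c : A → Finset V` (with `c a ∈ F a`) let
`W f = Σ_{c ∈ Fintype.piFinset F} (Π_a μ a (c a)) 1[f c]`. If `f` only depends on `c` restricted to
a set `I` of indices and `g` on the complement then `W (f ∧ g) = W f * W g` (`W true = 1` by
`Finset.prod_univ_sum`). For `a ≠ b` let `A_ab c` be the event that `c a`, `c b` are not disjoint;
`W A_ab <= P a b := Σ_v m a v * m b v`, `m a v = Σ_{R ∈ F a, v ∈ R} μ a R`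
(union bound over `v` and independence), and `Σ_b P a b = Σ_v m a v load v =
Σ_{R ∈ F a} μ a R Σ_{v ∈ R} load v <= 1/16`. For a finite set `S` of unordered pairs
(`Finset (Sym2 A)` without diagonal elements, or ordered pairs with `a ≠ b`) let
`G_S` be the event that no `A_e`, `e ∈ S`, happens. Claim, by strong induction on `|S|`: for every
pair `e = ab` (any, in `S` or not): `W (A_e ∧ G_S) <= 2 P_e W G_S`, if `e ∉ S`.
Split `S = S1 ∪ S2`, `S1` = pairs of `S` that contain `a` or `b`. `W (A_e ∧ G_S) <=
W (A_e ∧ G_S2) = W A_e * W G_S2 <= P_e W G_S2` (independence). If `S1` is empty, done. Otherwise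
`W G_S >= W G_S2 - Σ_{f ∈ S1} W (A_f ∧ G_S2) >= W G_S2 (1 - 2 Σ_{f ∈ S1} P_f) >= W G_S2 / 2`
by the induction hypothesis (`|S2| < |S|`) and `Σ_{f ∈ S1} P_f <= Σ_c P a c + Σ_c P b c <= 1/8`
(with unordered pairs; with ordered pairs the bound is `1/4`, still enough). So the claim.
Then `W G_(S ∪ e) >= (1 - 2 P_e) W G_S > 0` by adding the pairs one by one, so a choice avoiding
all events exists.
-/

namespace Pool.Agent.H25.TK

open Finset
open scoped Classical

noncomputable section

variable {V A : Type} [Fintype V] [Fintype A]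

private def lw (μ : A → Finset V → ℝ) (c : A → Finset V) : ℝ := ∏ a, μ a (c a)

private def lE (F : A → Finset (Finset V)) (μ : A → Finset V → ℝ)
    (h : (A → Finset V) → ℝ) : ℝ :=
  ∑ c ∈ Fintype.piFinset F, lw μ c * h c

private def lmass (F : A → Finset (Finset V)) (μ : A → Finset V → ℝ) (b : A) (v : V) : ℝ :=
  ∑ R ∈ (F b).filter (fun R => v ∈ R), μ b R

omit [Fintype V] in
private theorem lE_mono {F : A → Finset (Finset V)} {μ : A → Finset V → ℝ}
    (hμ : ∀ a R, 0 ≤ μ a R) {h k : (A → Finset V) → ℝ} (hk : ∀ c, h c ≤ k c) :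
    lE F μ h ≤ lE F μ k := by
  unfold lE
  refine Finset.sum_le_sum fun c _ => ?_
  exact mul_le_mul_of_nonneg_left (hk c) (Finset.prod_nonneg fun a _ => hμ a _)

omit [Fintype V] in
private theorem lE_coord {F : A → Finset (Finset V)} {μ : A → Finset V → ℝ}
    (hsum : ∀ a, ∑ R ∈ F a, μ a R = 1) (a : A) (φ : Finset V → ℝ) :
    lE F μ (fun c => φ (c a)) = ∑ R ∈ F a, μ a R * φ R := by
  have key := Finset.prod_univ_sum F (fun b R => μ b R * (if b = a then φ R else 1))
  have hl : ∏ b, ∑ R ∈ F b, μ b R * (if b = a then φ R else 1) = ∑ R ∈ F a, μ a R * φ R := by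
    rw [Finset.prod_eq_single a]
    · simp
    · intro b _ hb
      simp [hb, hsum b]
    · intro h
      exact absurd (Finset.mem_univ a) h
  rw [← hl, key]
  unfold lE lw
  refine Finset.sum_congr rfl fun c _ => ?_
  rw [Finset.prod_mul_distrib, Finset.prod_ite_eq' Finset.univ a (fun b => φ (c b))]
  simp

omit [Fintype V] in
private theorem lE_one {F : A → Finset (Finset V)} {μ : A → Finset V → ℝ}
    (hsum : ∀ a, ∑ R ∈ F a, μ a R = 1) : lE F μ (fun _ => 1) = 1 := by
  unfold lE lw
  simp only [mul_one]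
  rw [← Finset.prod_univ_sum F μ]
  exact Finset.prod_eq_one fun a _ => hsum a

omit [Fintype V] in
private theorem lE_indep {F : A → Finset (Finset V)} {μ : A → Finset V → ℝ}
    (hsum : ∀ a, ∑ R ∈ F a, μ a R = 1) (I : Finset A) (h k : (A → Finset V) → ℝ)
    (hh : ∀ c c', (∀ a ∈ I, c a = c' a) → h c = h c')
    (hk : ∀ c c', (∀ a, a ∉ I → c a = c' a) → k c = k c') :
    lE F μ (fun c => h c * k c) = lE F μ h * lE F μ k := by
  set mix : (A → Finset V) → (A → Finset V) → (A → Finset V) :=
    fun c c' a => if a ∈ I then c a else c' a with hmix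
  have hR : lE F μ h * lE F μ k
      = ∑ p ∈ Fintype.piFinset F ×ˢ Fintype.piFinset F,
          (lw μ p.1 * lw μ p.2) * (h p.1 * k p.2) := by
    unfold lE
    rw [Finset.sum_mul_sum, Finset.sum_product]
    refine Finset.sum_congr rfl fun c _ => Finset.sum_congr rfl fun c' _ => ?_
    ring
  have hL : lE F μ (fun c => h c * k c)
      = ∑ p ∈ Fintype.piFinset F ×ˢ Fintype.piFinset F,
          (lw μ p.1 * lw μ p.2) * (h p.1 * k p.1) := by
    have h1 : lE F μ (fun c => h c * k c)
        = lE F μ (fun c => h c * k c) * lE F μ (fun _ => 1) := by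
      rw [lE_one hsum, mul_one]
    rw [h1]
    unfold lE
    rw [Finset.sum_mul_sum, Finset.sum_product]
    refine Finset.sum_congr rfl fun c _ => Finset.sum_congr rfl fun c' _ => ?_
    ring
  rw [hL, hR]
  symm
  refine Finset.sum_nbij' (fun p => (mix p.1 p.2, mix p.2 p.1))
    (fun p => (mix p.1 p.2, mix p.2 p.1)) ?_ ?_ ?_ ?_ ?_
  · intro p hp
    rw [Finset.mem_product, Fintype.mem_piFinset, Fintype.mem_piFinset] at hp ⊢
    refine ⟨fun a => ?_, fun a => ?_⟩
    · simp only [hmix]
      split_ifs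
      · exact hp.1 a
      · exact hp.2 a
    · simp only [hmix]
      split_ifs
      · exact hp.2 a
      · exact hp.1 a
  · intro p hp
    rw [Finset.mem_product, Fintype.mem_piFinset, Fintype.mem_piFinset] at hp ⊢
    refine ⟨fun a => ?_, fun a => ?_⟩
    · simp only [hmix]
      split_ifs
      · exact hp.1 a
      · exact hp.2 a
    · simp only [hmix]
      split_ifs
      · exact hp.2 a
      · exact hp.1 a
  · rintro ⟨c, c'⟩ _
    simp only [hmix, Prod.mk.injEq]
    refine ⟨funext fun a => ?_, funext fun a => ?_⟩ <;> by_cases ha : a ∈ I <;> simp [ha]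
  · rintro ⟨c, c'⟩ _
    simp only [hmix, Prod.mk.injEq]
    refine ⟨funext fun a => ?_, funext fun a => ?_⟩ <;> by_cases ha : a ∈ I <;> simp [ha]
  · rintro ⟨c, c'⟩ _
    have e1 : lw μ c * lw μ c' = lw μ (mix c c') * lw μ (mix c' c) := by
      unfold lw
      rw [← Finset.prod_mul_distrib, ← Finset.prod_mul_distrib]
      refine Finset.prod_congr rfl fun a _ => ?_
      simp only [hmix]
      split_ifs
      · rfl
      · ring
    have e2 : h c = h (mix c c') := hh _ _ fun a ha => by simp [hmix, ha]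
    have e3 : k c' = k (mix c c') := hk _ _ fun a ha => by simp [hmix, ha]
    simp only
    rw [e1, e2, e3]

private theorem lmass_exchange (F : A → Finset (Finset V)) (μ : A → Finset V → ℝ) (a : A)
    (L : V → ℝ) :
    ∑ v, lmass F μ a v * L v = ∑ R ∈ F a, μ a R * ∑ v ∈ R, L v := by
  unfold lmass
  simp_rw [Finset.sum_filter, Finset.mul_sum, Finset.sum_mul]
  rw [Finset.sum_comm]
  refine Finset.sum_congr rfl fun R _ => ?_
  have : ∀ v : V, (if v ∈ R then μ a R else 0) * L v = if v ∈ R then μ a R * L v else 0 := by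
    intro v
    split_ifs
    · ring
    · ring
  simp_rw [this]
  rw [← Finset.sum_filter]
  congr 1
  ext v
  simp

/-- Indicator of the bad event. -/
private def lB (e : A × A) (c : A → Finset V) : ℝ :=
  if Disjoint (c e.1) (c e.2) then 0 else 1

private def lP (F : A → Finset (Finset V)) (μ : A → Finset V → ℝ) (e : A × A) : ℝ :=
  ∑ v, lmass F μ e.1 v * lmass F μ e.2 v

private def lG (S : Finset (A × A)) (c : A → Finset V) : ℝ :=
  ∏ e ∈ S, (1 - lB e c)

omit [Fintype V] [Fintype A] in
private theorem lB_nonneg (e : A × A) (c : A → Finset V) : 0 ≤ lB e c := by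
  unfold lB; split_ifs <;> norm_num

omit [Fintype V] [Fintype A] in
private theorem lB_le_one (e : A × A) (c : A → Finset V) : lB e c ≤ 1 := by
  unfold lB; split_ifs <;> norm_num

omit [Fintype V] [Fintype A] in
private theorem lG_nonneg (S : Finset (A × A)) (c : A → Finset V) : 0 ≤ lG S c :=
  Finset.prod_nonneg fun e _ => by linarith [lB_le_one e c]

omit [Fintype V] [Fintype A] in
private theorem lG_le_one (S : Finset (A × A)) (c : A → Finset V) : lG S c ≤ 1 :=
  Finset.prod_le_one (fun e _ => by linarith [lB_le_one e c])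
    (fun e _ => by linarith [lB_nonneg e c])

omit [Fintype V] [Fintype A] in
private theorem lG_ge (S : Finset (A × A)) (c : A → Finset V) : 1 - ∑ e ∈ S, lB e c ≤ lG S c := by
  induction S using Finset.induction_on with
  | empty => simp [lG]
  | insert e S he ih =>
    have h1 : lG (insert e S) c = (1 - lB e c) * lG S c := by
      unfold lG
      rw [Finset.prod_insert he]
    rw [h1, Finset.sum_insert he]
    have h2 := lB_nonneg e c
    have h3 := lG_le_one S c
    nlinarith

private theorem lE_bad {F : A → Finset (Finset V)} {μ : A → Finset V → ℝ}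
    (hμ : ∀ a R, 0 ≤ μ a R) (hsum : ∀ a, ∑ R ∈ F a, μ a R = 1) (e : A × A) (he : e.1 ≠ e.2) :
    lE F μ (lB e) ≤ lP F μ e := by
  have h1 : ∀ c : A → Finset V, lB e c
      ≤ ∑ v, (if v ∈ c e.1 then (1 : ℝ) else 0) * (if v ∈ c e.2 then 1 else 0) := by
    intro c
    unfold lB
    split_ifs with hd
    · exact Finset.sum_nonneg fun v _ => by split_ifs <;> norm_num
    · rw [Finset.not_disjoint_iff] at hd
      obtain ⟨v, hv1, hv2⟩ := hd
      calc (1 : ℝ) = (if v ∈ c e.1 then (1 : ℝ) else 0) * (if v ∈ c e.2 then 1 else 0) := by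
            simp [hv1, hv2]
        _ ≤ _ := Finset.single_le_sum
            (f := fun v => (if v ∈ c e.1 then (1 : ℝ) else 0) * (if v ∈ c e.2 then 1 else 0))
            (fun v _ => by split_ifs <;> norm_num) (Finset.mem_univ v)
  refine (lE_mono hμ h1).trans (le_of_eq ?_)
  have h2 : lE F μ (fun c => ∑ v, (if v ∈ c e.1 then (1 : ℝ) else 0)
      * (if v ∈ c e.2 then 1 else 0))
      = ∑ v, lE F μ (fun c => (if v ∈ c e.1 then (1 : ℝ) else 0)
          * (if v ∈ c e.2 then 1 else 0)) := by
    unfold lE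
    rw [Finset.sum_comm]
    refine Finset.sum_congr rfl fun c _ => ?_
    rw [Finset.mul_sum]
  rw [h2]
  unfold lP
  refine Finset.sum_congr rfl fun v _ => ?_
  rw [lE_indep hsum {e.1} (fun c => if v ∈ c e.1 then (1 : ℝ) else 0)
    (fun c => if v ∈ c e.2 then (1 : ℝ) else 0)]
  · rw [lE_coord hsum e.1 (fun R => if v ∈ R then (1 : ℝ) else 0),
      lE_coord hsum e.2 (fun R => if v ∈ R then (1 : ℝ) else 0)]
    unfold lmass
    simp only [mul_ite, mul_one, mul_zero]
    rw [Finset.sum_filter, Finset.sum_filter]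
  · intro c c' hc
    rw [hc e.1 (Finset.mem_singleton_self _)]
  · intro c c' hc
    rw [hc e.2 (by simpa using fun h => he h.symm)]

private theorem lP_row {F : A → Finset (Finset V)} {μ : A → Finset V → ℝ}
    (hload : ∀ a, ∑ R ∈ F a, μ a R * ∑ v ∈ R, load F μ v ≤ 1 / 16) (a : A) :
    ∑ b, lP F μ (a, b) ≤ 1 / 16 := by
  refine le_trans (le_of_eq ?_) (hload a)
  rw [← lmass_exchange]
  unfold lP
  rw [Finset.sum_comm]
  refine Finset.sum_congr rfl fun v _ => ?_
  dsimp only
  rw [← Finset.mul_sum]
  rfl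

private theorem lP_symm (F : A → Finset (Finset V)) (μ : A → Finset V → ℝ) (a b : A) :
    lP F μ (a, b) = lP F μ (b, a) := by
  unfold lP
  refine Finset.sum_congr rfl fun v _ => ?_
  ring

private theorem lP_nonneg {F : A → Finset (Finset V)} {μ : A → Finset V → ℝ}
    (hμ : ∀ a R, 0 ≤ μ a R) (e : A × A) : 0 ≤ lP F μ e :=
  Finset.sum_nonneg fun v _ => mul_nonneg (Finset.sum_nonneg fun R _ => hμ _ _)
    (Finset.sum_nonneg fun R _ => hμ _ _)

private def lT (e f : A × A) : Prop := f.1 = e.1 ∨ f.1 = e.2 ∨ f.2 = e.1 ∨ f.2 = e.2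

private theorem lT_sum {F : A → Finset (Finset V)} {μ : A → Finset V → ℝ}
    (hμ : ∀ a R, 0 ≤ μ a R)
    (hload : ∀ a, ∑ R ∈ F a, μ a R * ∑ v ∈ R, load F μ v ≤ 1 / 16) (e : A × A)
    (S : Finset (A × A)) :
    ∑ f ∈ S.filter (lT e), lP F μ f ≤ 1 / 4 := by
  have hbound : ∀ f : A × A, (if lT e f then lP F μ f else 0)
      ≤ (if f.1 = e.1 then lP F μ f else 0) + (if f.1 = e.2 then lP F μ f else 0)
        + (if f.2 = e.1 then lP F μ f else 0) + (if f.2 = e.2 then lP F μ f else 0) := by
    intro f
    have h0 := lP_nonneg (F := F) hμ f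
    have a1 : 0 ≤ (if f.1 = e.1 then lP F μ f else 0) := by split_ifs <;> simp [h0]
    have a2 : 0 ≤ (if f.1 = e.2 then lP F μ f else 0) := by split_ifs <;> simp [h0]
    have a3 : 0 ≤ (if f.2 = e.1 then lP F μ f else 0) := by split_ifs <;> simp [h0]
    have a4 : 0 ≤ (if f.2 = e.2 then lP F μ f else 0) := by split_ifs <;> simp [h0]
    by_cases hT : lT e f
    · rw [if_pos hT]
      rcases hT with h | h | h | h
      · rw [if_pos h]; linarith
      · rw [if_pos h] at a2 ⊢; linarith
      · rw [if_pos h] at a3 ⊢; linarith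
      · rw [if_pos h] at a4 ⊢; linarith
    · rw [if_neg hT]; linarith
  have hrow : ∀ a, ∑ f : A × A, (if f.1 = a then lP F μ f else 0) ≤ 1 / 16 := by
    intro a
    rw [Fintype.sum_prod_type]
    have : ∀ x : A, ∑ y, (if (x, y).1 = a then lP F μ (x, y) else 0)
        = if x = a then ∑ y, lP F μ (a, y) else 0 := by
      intro x
      by_cases hx : x = a
      · subst hx; simp
      · simp [hx]
    simp_rw [this]
    rw [Finset.sum_ite_eq' Finset.univ a (fun _ => ∑ y, lP F μ (a, y))]
    simpa using lP_row hload a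
  have hcol : ∀ a, ∑ f : A × A, (if f.2 = a then lP F μ f else 0) ≤ 1 / 16 := by
    intro a
    rw [Fintype.sum_prod_type]
    have : ∀ x : A, ∑ y, (if (x, y).2 = a then lP F μ (x, y) else 0)
        = lP F μ (a, x) := by
      intro x
      rw [← lP_symm F μ x a]
      exact (Finset.sum_ite_eq' Finset.univ a (fun y => lP F μ (x, y))).trans (by simp)
    simp_rw [this]
    exact lP_row hload a
  calc ∑ f ∈ S.filter (lT e), lP F μ f = ∑ f ∈ S, (if lT e f then lP F μ f else 0) := by
        rw [Finset.sum_filter]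
    _ ≤ ∑ f : A × A, (if lT e f then lP F μ f else 0) := by
        refine Finset.sum_le_sum_of_subset_of_nonneg (Finset.subset_univ _) fun f _ _ => ?_
        have h0 := lP_nonneg (F := F) hμ f
        split_ifs <;> simp [h0]
    _ ≤ ∑ f : A × A, ((if f.1 = e.1 then lP F μ f else 0) + (if f.1 = e.2 then lP F μ f else 0)
        + (if f.2 = e.1 then lP F μ f else 0) + (if f.2 = e.2 then lP F μ f else 0)) :=
        Finset.sum_le_sum fun f _ => hbound f
    _ ≤ 1 / 4 := by
        rw [Finset.sum_add_distrib, Finset.sum_add_distrib, Finset.sum_add_distrib]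
        linarith [hrow e.1, hrow e.2, hcol e.1, hcol e.2]

omit [Fintype V] [Fintype A] in
private theorem lG_split (e : A × A) (S : Finset (A × A)) (c : A → Finset V) :
    lG S c = lG (S.filter (lT e)) c * lG (S.filter (fun f => ¬ lT e f)) c := by
  unfold lG
  rw [Finset.prod_filter_mul_prod_filter_not]

private theorem lclaim {F : A → Finset (Finset V)} {μ : A → Finset V → ℝ}
    (hμ : ∀ a R, 0 ≤ μ a R) (hsum : ∀ a, ∑ R ∈ F a, μ a R = 1)
    (hload : ∀ a, ∑ R ∈ F a, μ a R * ∑ v ∈ R, load F μ v ≤ 1 / 16) :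
    ∀ n : ℕ, ∀ S : Finset (A × A), S.card = n → (∀ f ∈ S, f.1 ≠ f.2) → ∀ e : A × A, e.1 ≠ e.2 →
      lE F μ (fun c => lB e c * lG S c) ≤ 2 * lP F μ e * lE F μ (lG S) := by
  intro n
  induction n using Nat.strong_induction_on with
  | _ n ih =>
    intro S hS hoff e he
    set S1 := S.filter (lT e) with hS1
    set S2 := S.filter (fun f => ¬ lT e f) with hS2
    have hG2 : 0 ≤ lE F μ (lG S2) := by
      have := lE_mono (F := F) hμ (h := fun _ => 0) (k := lG S2) (fun c => lG_nonneg S2 c)
      simpa [lE] using this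
    have hstep1 : lE F μ (fun c => lB e c * lG S c) ≤ lP F μ e * lE F μ (lG S2) := by
      have h1 : lE F μ (fun c => lB e c * lG S c) ≤ lE F μ (fun c => lB e c * lG S2 c) := by
        refine lE_mono hμ fun c => ?_
        rw [lG_split e S c]
        refine mul_le_mul_of_nonneg_left ?_ (lB_nonneg e c)
        exact mul_le_of_le_one_left (lG_nonneg _ c) (lG_le_one _ c)
      have h2 : lE F μ (fun c => lB e c * lG S2 c) = lE F μ (lB e) * lE F μ (lG S2) := by
        refine lE_indep hsum {e.1, e.2} (lB e) (lG S2) ?_ ?_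
        · intro c c' hc
          unfold lB
          rw [hc e.1 (by simp), hc e.2 (by simp)]
        · intro c c' hc
          unfold lG
          refine Finset.prod_congr rfl fun f hf => ?_
          rw [hS2, Finset.mem_filter] at hf
          have hf2 := hf.2
          unfold lT at hf2
          push Not at hf2
          unfold lB
          rw [hc f.1 (by simp [hf2.1, hf2.2.1]), hc f.2 (by simp [hf2.2.2.1, hf2.2.2.2])]
      rw [h2] at h1
      exact h1.trans (mul_le_mul_of_nonneg_right (lE_bad hμ hsum e he) hG2)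
    have hstep2 : lE F μ (lG S2) ≤ 2 * lE F μ (lG S) := by
      by_cases hemp : S1 = ∅
      · have : S2 = S := by
          rw [hS2]
          refine Finset.filter_true_of_mem fun f hf hT => ?_
          have : f ∈ S1 := by rw [hS1, Finset.mem_filter]; exact ⟨hf, hT⟩
          rw [hemp] at this
          simp at this
        rw [this] at hG2 ⊢
        linarith
      · have hcard : S2.card < n := by
          rw [← hS]
          refine Finset.card_lt_card ⟨Finset.filter_subset _ _, fun hsub => ?_⟩
          obtain ⟨f, hf⟩ := Finset.nonempty_iff_ne_empty.mpr hemp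
          rw [hS1, Finset.mem_filter] at hf
          have := hsub hf.1
          rw [hS2, Finset.mem_filter] at this
          exact this.2 hf.2
        have hoff2 : ∀ f ∈ S2, f.1 ≠ f.2 := fun f hf => hoff f (Finset.mem_filter.mp hf).1
        have h3 : lE F μ (fun c => (1 - ∑ f ∈ S1, lB f c) * lG S2 c) ≤ lE F μ (lG S) := by
          refine lE_mono hμ fun c => ?_
          rw [lG_split e S c]
          exact mul_le_mul_of_nonneg_right (lG_ge _ c) (lG_nonneg _ c)
        have h4 : lE F μ (fun c => (1 - ∑ f ∈ S1, lB f c) * lG S2 c)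
            = lE F μ (lG S2) - ∑ f ∈ S1, lE F μ (fun c => lB f c * lG S2 c) := by
          unfold lE
          rw [Finset.sum_comm, ← Finset.sum_sub_distrib]
          refine Finset.sum_congr rfl fun c _ => ?_
          rw [← Finset.mul_sum, ← Finset.sum_mul]
          ring
        have h5 : ∑ f ∈ S1, lE F μ (fun c => lB f c * lG S2 c)
            ≤ ∑ f ∈ S1, 2 * lP F μ f * lE F μ (lG S2) :=
          Finset.sum_le_sum fun f hf => ih _ hcard S2 rfl hoff2 f
            (hoff f (Finset.mem_filter.mp hf).1)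
        have h6 : ∑ f ∈ S1, 2 * lP F μ f * lE F μ (lG S2)
            = 2 * (∑ f ∈ S1, lP F μ f) * lE F μ (lG S2) := by
          rw [← Finset.sum_mul, ← Finset.mul_sum]
        have h7 : ∑ f ∈ S1, lP F μ f ≤ 1 / 4 := lT_sum hμ hload e S
        have h8 : 2 * (∑ f ∈ S1, lP F μ f) * lE F μ (lG S2) ≤ 1 / 2 * lE F μ (lG S2) :=
          mul_le_mul_of_nonneg_right (by linarith) hG2
        linarith
    calc lE F μ (fun c => lB e c * lG S c) ≤ lP F μ e * lE F μ (lG S2) := hstep1
      _ ≤ lP F μ e * (2 * lE F μ (lG S)) :=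
        mul_le_mul_of_nonneg_left hstep2 (lP_nonneg hμ e)
      _ = 2 * lP F μ e * lE F μ (lG S) := by ring

theorem lll (F : A → Finset (Finset V)) (μ : A → Finset V → ℝ) (hμ : ∀ a R, 0 ≤ μ a R)
    (hsum : ∀ a, ∑ R ∈ F a, μ a R = 1)
    (hload : ∀ a, ∑ R ∈ F a, μ a R * ∑ v ∈ R, load F μ v ≤ 1 / 16) :
    ∃ R : A → Finset V, (∀ a, R a ∈ F a) ∧ ∀ a b, a ≠ b → Disjoint (R a) (R b) := by
  have hP : ∀ e : A × A, lP F μ e ≤ 1 / 16 := by
    rintro ⟨a, b⟩
    refine le_trans ?_ (lP_row hload a)
    exact Finset.single_le_sum (f := fun b => lP F μ (a, b)) (fun b _ => lP_nonneg hμ _)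
      (Finset.mem_univ b)
  have hpos : ∀ S : Finset (A × A), (∀ f ∈ S, f.1 ≠ f.2) → 0 < lE F μ (lG S) := by
    intro S
    induction S using Finset.induction_on with
    | empty =>
      intro _
      have : lG (V := V) (∅ : Finset (A × A)) = fun _ => 1 := by
        funext c
        simp [lG]
      rw [this, lE_one hsum]
      exact one_pos
    | insert e S heS ih =>
      intro hoff
      have hoffS : ∀ f ∈ S, f.1 ≠ f.2 := fun f hf => hoff f (Finset.mem_insert_of_mem hf)
      have h0 := ih hoffS
      have h1 := lclaim hμ hsum hload S.card S rfl hoffS e (hoff e (Finset.mem_insert_self _ _))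
      have h2 : lE F μ (lG (insert e S))
          = lE F μ (lG S) - lE F μ (fun c => lB e c * lG S c) := by
        unfold lE
        rw [← Finset.sum_sub_distrib]
        refine Finset.sum_congr rfl fun c _ => ?_
        unfold lG
        rw [Finset.prod_insert heS]
        ring
      have h3 : 2 * lP F μ e * lE F μ (lG S) ≤ 1 / 8 * lE F μ (lG S) :=
        mul_le_mul_of_nonneg_right (by linarith [hP e]) h0.le
      linarith
  have hfull := hpos (Finset.univ.filter fun f : A × A => f.1 ≠ f.2)
    (fun f hf => (Finset.mem_filter.mp hf).2)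
  have : ∃ c ∈ Fintype.piFinset F, 0 < lw μ c * lG (Finset.univ.filter
      fun f : A × A => f.1 ≠ f.2) c := by
    by_contra hno
    push Not at hno
    have : lE F μ (lG (Finset.univ.filter fun f : A × A => f.1 ≠ f.2)) ≤ 0 :=
      Finset.sum_nonpos fun c hc => hno c hc
    linarith
  obtain ⟨c, hc, hcpos⟩ := this
  refine ⟨c, fun a => Fintype.mem_piFinset.mp hc a, fun a b hab => ?_⟩
  by_contra hd
  have hmem : (a, b) ∈ Finset.univ.filter fun f : A × A => f.1 ≠ f.2 := by simp [hab]
  have hz : lG (Finset.univ.filter fun f : A × A => f.1 ≠ f.2) c = 0 := by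
    unfold lG
    refine Finset.prod_eq_zero hmem ?_
    unfold lB
    simp [hd]
  rw [hz, mul_zero] at hcpos
  exact lt_irrefl _ hcpos

end

end Pool.Agent.H25.TK
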