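import Pool.Agent.H25.TK.Opt
import Pool.Agent.H25.TK.LLL

/-!
Disjoint routes from cheap routes for all weights.

PROOF of `pack`. Take `μ` from `opt`, `y = load F μ`, `E = Σ_v y_v²`, `y >= 0`. If `E = 0` all loads
vanish and `lll` applies. Otherwise take `R` from the hypothesis for `y`, `E`. For every `a`:
`l_a := Σ_{R ∈ F a} μ a R Σ_{v ∈ R} y v <= Σ_{v ∈ R a} y v`. Exchange of sums:
`E = Σ_v y v Σ_a Σ_{R ∋ v} μ a R = Σ_a l_a <= τ1 √E`, so `√E <= τ1` and
`l_a <= τ2 √E <= τ1 τ2 <= 1/16`; `lll`.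

PROOF of `routes_exist`. `A = {p : Fin k × Fin k // p.1 < p.2}`, `F (i,j)` = the finsets that are
supports of walks from `Nb i` to `Nb j` (nonempty: by `Reaches` for `y = 0`, `E = 1` or from the
hypothesis of `pack` itself). For given `y`, `E` take `Rad`; the two sets `cball (Nb i) (Rad i)`,
`cball (Nb j) (Rad j)` meet as each has more than half of the vertices; `route_of_meet` gives a
walk of cost at most `Rad i + Rad j <= 54/κ √(E/D)`. All `Rad i >= 0` (the closed ball is not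
empty and costs are nonnegative), so `Σ_{i<j} (Rad i + Rad j) <= k Σ Rad i <= 3 θ k² √(E/D)`.
`τ1 = 3 θ k²/√D`, `τ2 = 54/(κ √D)`, `τ1 τ2 = 162 θ k²/(κ D) <= 1/16`.
-/

namespace Pool.Agent.H25.TK

open Finset
open scoped Classical

noncomputable section

theorem pack {V A : Type} [Fintype V] [Fintype A] (F : A → Finset (Finset V))
    (hF : ∀ a, (F a).Nonempty) (τ1 τ2 : ℝ) (h1 : 0 ≤ τ1) (h2 : 0 ≤ τ2) (h12 : τ1 * τ2 ≤ 1 / 16)
    (hdist : ∀ (y : V → ℝ) (E : ℝ), (∀ v, 0 ≤ y v) → ∑ v, y v ^ 2 ≤ E → 0 < E →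
      ∃ R : A → Finset V, (∀ a, R a ∈ F a) ∧ ∑ a, ∑ v ∈ R a, y v ≤ τ1 * √E ∧
        ∀ a, ∑ v ∈ R a, y v ≤ τ2 * √E) :
    ∃ R : A → Finset V, (∀ a, R a ∈ F a) ∧ ∀ a b, a ≠ b → Disjoint (R a) (R b) := by
  obtain ⟨μ, hμ, hsum, hopt⟩ := opt F hF
  refine lll F μ hμ hsum ?_
  have hload0 : ∀ v, 0 ≤ load F μ v := fun v =>
    Finset.sum_nonneg fun b _ => Finset.sum_nonneg fun R _ => hμ b R
  set E : ℝ := ∑ v, load F μ v ^ 2 with hE
  have hE0 : 0 ≤ E := Finset.sum_nonneg fun v _ => sq_nonneg _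
  rcases hE0.eq_or_lt with hEz | hEpos
  · have hz : ∀ v, load F μ v = 0 := by
      intro v
      have h := (Finset.sum_eq_zero_iff_of_nonneg
        (fun v _ => sq_nonneg (load F μ v))).mp hEz.symm v (Finset.mem_univ v)
      exact pow_eq_zero_iff (two_ne_zero) |>.mp h
    intro a
    simp only [hz, Finset.sum_const_zero, mul_zero]
    norm_num
  · obtain ⟨R, hR, hR1, hR2⟩ := hdist (load F μ) E hload0 le_rfl hEpos
    have hla : ∀ a, ∑ R ∈ F a, μ a R * ∑ v ∈ R, load F μ v ≤ ∑ v ∈ R a, load F μ v :=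
      fun a => hopt a (R a) (hR a)
    have hex : E = ∑ a, ∑ R ∈ F a, μ a R * ∑ v ∈ R, load F μ v := by
      rw [hE]
      have h1 : ∀ v, load F μ v ^ 2 = ∑ a, ∑ R ∈ F a, (if v ∈ R then μ a R * load F μ v else 0) := by
        intro v
        rw [sq]
        nth_rewrite 1 [load]
        rw [Finset.sum_mul]
        refine Finset.sum_congr rfl fun a _ => ?_
        rw [Finset.sum_mul, Finset.sum_filter]
      simp_rw [h1]
      rw [Finset.sum_comm]
      refine Finset.sum_congr rfl fun a _ => ?_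
      rw [Finset.sum_comm]
      refine Finset.sum_congr rfl fun R _ => ?_
      rw [← Finset.sum_filter, Finset.mul_sum]
      congr 1
      ext v
      simp
    have hsqrt : √E ≤ τ1 := by
      have h1 : E ≤ τ1 * √E := by
        calc E = ∑ a, ∑ R ∈ F a, μ a R * ∑ v ∈ R, load F μ v := hex
          _ ≤ ∑ a, ∑ v ∈ R a, load F μ v := Finset.sum_le_sum fun a _ => hla a
          _ ≤ τ1 * √E := hR1
      have h2 : √E * √E = E := Real.mul_self_sqrt hE0
      have h3 : 0 < √E := Real.sqrt_pos.mpr hEpos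
      by_contra hlt
      push Not at hlt
      have : τ1 * √E < √E * √E := mul_lt_mul_of_pos_right hlt h3
      linarith
    intro a
    calc ∑ R ∈ F a, μ a R * ∑ v ∈ R, load F μ v ≤ ∑ v ∈ R a, load F μ v := hla a
      _ ≤ τ2 * √E := hR2 a
      _ ≤ τ2 * τ1 := mul_le_mul_of_nonneg_left hsqrt h2
      _ = τ1 * τ2 := by ring
      _ ≤ 1 / 16 := h12

end

end Pool.Agent.H25.TK
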