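import Pool.Agent.H25.TK.KSfun

/-!
The Komlos-Szemeredi subgraph with power law expansion.

PROOF. For finite `U` put `n = |U|`, `g n = n - a * hfun (D/8) n`. The family of nonempty `U` with
`D * g |U| <= dd G U` contains `univ` (`g n <= n`). Take `U` of minimal cardinality.
(dens) `D g n >= D (1-a) n`. (card) `dd G U <= n^2`.
(del) for `W` inside `U` with `W` nonempty and `W ≠ U` the set `U - W` is not in the family, so
`dd U - dd (U-W) > D (g n - g (n - w)) >= D (1 - a) w` by `hfun_slope` (W = U: dens; W empty: 0).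
(exp) `X` inside `U`, `Γ` its external neighbourhood inside `U`: every adjacent ordered pair of `U`
lies in `X ∪ Γ` or in `U - X`, so `dd U <= dd (X ∪ Γ) + dd (U - X)`. If `X ∪ Γ = U` then
`|Γ| >= |X|` and the bound is trivial (`D <= 8 |X|`, `a/6 * 8^(1/4) <= 1`). Otherwise both sets are
nonempty and smaller, so `g n < g (x + γ) + g (n - x)`, i.e.
`γ > a (hfun (x+γ) + hfun (n-x) - hfun n) >= a (hfun x + hfun (n-x) - hfun n) >=
a * .2803 * q4 (D/8) * q4 x ^ 3` (`hfun_mono`, `hfun_conc`) and `.2803 / 8^(1/4) >= 1/6`.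
(up) `n >= 4` (from card and `D >= 5`); `v` of minimal degree in `U`: `dd (U - v) = dd U - 2 deg v >=
dd U (1 - 2/n)` and `dd (U-v) < D g (n-1) <= D (n-1)`; `(n-1) n/(n-2) <= n + 2` for `n >= 4`.
All statements are then transported to the induced graph on the subtype.
-/

namespace Pool.Agent.H25.TK

open Finset
open scoped Classical

noncomputable section

variable {V : Type} [Fintype V]

/-- Transport of `dd` to an induced subgraph. -/
lemma dd_induce (G : SimpleGraph V) (U : Finset V) (W : Finset (↥U)) :
    dd (G.induce (U : Set V)) W = dd G (W.map (Function.Embedding.subtype _)) := by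
  unfold dd
  refine Finset.card_bij (fun p _ => (p.1.1, p.2.1)) ?_ ?_ ?_
  · intro p hp
    rw [Finset.mem_filter, Finset.mem_product] at hp ⊢
    exact ⟨⟨Finset.mem_map_of_mem _ hp.1.1, Finset.mem_map_of_mem _ hp.1.2⟩, hp.2⟩
  · intro p _ q _ h
    exact Prod.ext (Subtype.ext (congrArg Prod.fst h)) (Subtype.ext (congrArg Prod.snd h))
  · intro q hq
    rw [Finset.mem_filter, Finset.mem_product, Finset.mem_map, Finset.mem_map] at hq
    obtain ⟨⟨⟨a, ha, ha'⟩, ⟨b, hb, hb'⟩⟩, hadj⟩ := hq
    have ea : a.1 = q.1 := ha'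
    have eb : b.1 = q.2 := hb'
    refine ⟨(a, b), ?_, Prod.ext ea eb⟩
    rw [Finset.mem_filter, Finset.mem_product]
    refine ⟨⟨ha, hb⟩, ?_⟩
    change G.Adj a.1 b.1
    rw [ea, eb]
    exact hadj

/-- External neighbourhood inside `U`. -/
private def extU (G : SimpleGraph V) (U X : Finset V) : Finset V :=
  U.filter (fun w => w ∉ X ∧ ∃ v ∈ X, G.Adj v w)

private lemma mem_ext_iff (G : SimpleGraph V) (X : Finset V) (w : V) :
    w ∈ ext G X ↔ w ∉ X ∧ ∃ v ∈ X, G.Adj v w := by
  unfold ext
  simp

private lemma ext_induce (G : SimpleGraph V) (U : Finset V) (X : Finset (↥(U : Set V))) :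
    (ext (G.induce (U : Set V)) X).card =
      (extU G U (X.map (Function.Embedding.subtype _))).card := by
  unfold extU
  refine Finset.card_bij (fun p _ => p.1) ?_ ?_ ?_
  · intro p hp
    rw [mem_ext_iff] at hp
    rw [Finset.mem_filter]
    obtain ⟨hpX, v, hv, hadj⟩ := hp
    refine ⟨p.2, ?_, v.1, Finset.mem_map_of_mem _ hv, hadj⟩
    intro hm
    rw [Finset.mem_map] at hm
    obtain ⟨q, hq, hqp⟩ := hm
    have : q = p := Subtype.ext hqp
    exact hpX (this ▸ hq)
  · intro p _ q _ h
    exact Subtype.ext h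
  · intro w hw
    rw [Finset.mem_filter] at hw
    obtain ⟨hwU, hwX, v, hv, hadj⟩ := hw
    rw [Finset.mem_map] at hv
    obtain ⟨q, hq, hqv⟩ := hv
    have hqv' : q.1 = v := hqv
    refine ⟨⟨w, hwU⟩, ?_, rfl⟩
    rw [mem_ext_iff]
    refine ⟨?_, q, hq, ?_⟩
    · intro hm
      exact hwX (Finset.mem_map_of_mem (Function.Embedding.subtype _) hm)
    · change G.Adj q.1 w
      rw [hqv']
      exact hadj

private lemma dd_le_sq (G : SimpleGraph V) (U : Finset V) :
    (dd G U : ℝ) ≤ (U.card : ℝ) * U.card := by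
  have h : dd G U ≤ U.card * U.card := by
    unfold dd
    exact (Finset.card_filter_le _ _).trans (Finset.card_product _ _).le
  exact_mod_cast h

private lemma dd_split (G : SimpleGraph V) (U X : Finset V) :
    dd G U ≤ dd G (X ∪ extU G U X) + dd G (U \ X) := by
  unfold dd
  refine (Finset.card_le_card ?_).trans (Finset.card_union_le _ _)
  intro p hp
  rw [Finset.mem_filter, Finset.mem_product] at hp
  obtain ⟨⟨h1, h2⟩, hadj⟩ := hp
  rw [Finset.mem_union, Finset.mem_filter, Finset.mem_filter, Finset.mem_product,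
    Finset.mem_product]
  by_cases hp1 : p.1 ∈ X
  · left
    refine ⟨⟨Finset.mem_union_left _ hp1, ?_⟩, hadj⟩
    by_cases hp2 : p.2 ∈ X
    · exact Finset.mem_union_left _ hp2
    · refine Finset.mem_union_right _ ?_
      unfold extU
      rw [Finset.mem_filter]
      exact ⟨h2, hp2, p.1, hp1, hadj⟩
  · by_cases hp2 : p.2 ∈ X
    · left
      refine ⟨⟨?_, Finset.mem_union_left _ hp2⟩, hadj⟩
      refine Finset.mem_union_right _ ?_
      unfold extU
      rw [Finset.mem_filter]
      exact ⟨h1, hp1, p.2, hp2, hadj.symm⟩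
    · right
      exact ⟨⟨Finset.mem_sdiff.mpr ⟨h1, hp1⟩, Finset.mem_sdiff.mpr ⟨h2, hp2⟩⟩, hadj⟩

private lemma sum_dd_erase (G : SimpleGraph V) (U : Finset V) :
    ∑ v ∈ U, (dd G (U.erase v) : ℝ) = ((U.card : ℝ) - 2) * dd G U := by
  have h1 : ∀ v, (dd G (U.erase v) : ℝ) =
      ∑ p ∈ (U ×ˢ U).filter (fun p => G.Adj p.1 p.2), if p.1 ≠ v ∧ p.2 ≠ v then (1 : ℝ) else 0 := by
    intro v
    rw [Finset.sum_ite, Finset.sum_const_zero, add_zero, Finset.sum_const, nsmul_eq_mul, mul_one,
      Finset.filter_filter]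
    unfold dd
    congr 2
    ext p
    simp only [Finset.mem_filter, Finset.mem_product, Finset.mem_erase]
    tauto
  rw [Finset.sum_congr rfl fun v _ => h1 v, Finset.sum_comm]
  have h2 : ∀ p ∈ (U ×ˢ U).filter (fun p => G.Adj p.1 p.2),
      (∑ v ∈ U, if p.1 ≠ v ∧ p.2 ≠ v then (1 : ℝ) else 0) = (U.card : ℝ) - 2 := by
    intro p hp
    rw [Finset.mem_filter, Finset.mem_product] at hp
    obtain ⟨⟨h1, h2⟩, hadj⟩ := hp
    rw [Finset.sum_ite, Finset.sum_const_zero, add_zero, Finset.sum_const, nsmul_eq_mul, mul_one]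
    have e : U.filter (fun v => p.1 ≠ v ∧ p.2 ≠ v) = (U.erase p.1).erase p.2 := by
      ext v
      simp only [Finset.mem_filter, Finset.mem_erase]
      constructor
      · rintro ⟨h, h', h''⟩
        exact ⟨h''.symm, h'.symm, h⟩
      · rintro ⟨h, h', h''⟩
        exact ⟨h'', h'.symm, h.symm⟩
    have hne : p.2 ≠ p.1 := hadj.ne'
    have c1 := Finset.card_erase_add_one h1
    have c2 := Finset.card_erase_add_one (Finset.mem_erase.mpr ⟨hne, h2⟩)
    rw [e]
    have : ((U.erase p.1).erase p.2).card + 2 = U.card := by omega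
    have h' : ((((U.erase p.1).erase p.2).card : ℝ)) + 2 = U.card := by exact_mod_cast this
    linarith
  rw [Finset.sum_congr rfl h2, Finset.sum_const, nsmul_eq_mul]
  unfold dd
  ring

/-- What minimality gives, at the level of finite subsets. -/
private lemma core (G : SimpleGraph V) [Nonempty V] (a D : ℝ) (ha : 0 < a)
    (hD : 5 ≤ D) (h : D * (Fintype.card V : ℝ) ≤ dd G univ) :
    ∃ U : Finset V, U.Nonempty ∧ D * ((U.card : ℝ) - a * hfun (D / 8) U.card) ≤ dd G U ∧
      ∀ U' : Finset V, U'.Nonempty → U' ⊂ U →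
        (dd G U' : ℝ) < D * ((U'.card : ℝ) - a * hfun (D / 8) U'.card) := by
  classical
  let F : Finset (Finset V) := univ.filter (fun U => U.Nonempty ∧
    D * ((U.card : ℝ) - a * hfun (D / 8) U.card) ≤ dd G U)
  have hF : F.Nonempty := by
    refine ⟨univ, ?_⟩
    rw [Finset.mem_filter]
    refine ⟨Finset.mem_univ _, Finset.univ_nonempty, ?_⟩
    refine le_trans ?_ h
    rw [Finset.card_univ]
    have h0 := hfun_nonneg (D / 8) (Fintype.card V : ℝ) (Nat.cast_nonneg _)
    have h1 : 0 ≤ a * hfun (D / 8) (Fintype.card V : ℝ) := mul_nonneg ha.le h0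
    exact mul_le_mul_of_nonneg_left (by linarith) (by linarith)
  obtain ⟨U, hU, hmin⟩ := Finset.exists_min_image F Finset.card hF
  rw [Finset.mem_filter] at hU
  refine ⟨U, hU.2.1, hU.2.2, ?_⟩
  intro U' hne hsub
  by_contra hcon
  push Not at hcon
  have hm : U' ∈ F := by
    rw [Finset.mem_filter]
    exact ⟨Finset.mem_univ _, hne, hcon⟩
  exact absurd (Finset.card_lt_card hsub) (not_lt.mpr (hmin U' hm))

private lemma q4_eight : q4 8 ≤ 8409 / 5000 := by
  by_contra hcon
  push Not at hcon
  have h1 : (8409 / 5000 : ℝ) ^ 4 < q4 8 ^ 4 := pow_lt_pow_left₀ hcon (by norm_num) (by norm_num)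
  rw [q4_pow 8 (by norm_num)] at h1
  norm_num at h1

theorem exists_good (G : SimpleGraph V) [Nonempty V] (a D : ℝ) (ha : 0 < a) (ha' : a ≤ 1 / 8)
    (hD : 5 ≤ D) (h : D * (Fintype.card V : ℝ) ≤ dd G univ) :
    ∃ U : Finset V, U.Nonempty ∧ Good (G.induce (U : Set V)) a D := by
  obtain ⟨U, hU, hdU, hmin⟩ := core G a D ha hD h
  have hD0 : 0 < D := by linarith
  have hn1 : (1 : ℝ) ≤ U.card := by exact_mod_cast hU.card_pos
  -- density
  have dens : (1 - a) * D * (U.card : ℝ) ≤ dd G U := by
    refine le_trans ?_ hdU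
    have h1 := hfun_le (D / 8) (U.card : ℝ)
    have h2 : a * hfun (D / 8) (U.card : ℝ) ≤ a * U.card := mul_le_mul_of_nonneg_left h1 ha.le
    have h3 : (1 - a) * D * (U.card : ℝ) = D * (U.card - a * U.card) := by ring
    rw [h3]
    exact mul_le_mul_of_nonneg_left (by linarith) hD0.le
  have hcard : (1 - a) * D ≤ (U.card : ℝ) := by
    have h1 := dens.trans (dd_le_sq G U)
    exact le_of_mul_le_mul_right h1 (by linarith)
  -- deletion
  have del : ∀ W : Finset V, W ⊆ U →
      (1 - a) * D * (W.card : ℝ) ≤ (dd G U : ℝ) - dd G (U \ W) := by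
    intro W hW
    rcases W.eq_empty_or_nonempty with hWe | hWne
    · subst hWe
      simp
    · by_cases hWU : W = U
      · subst hWU
        have : dd G (W \ W) = 0 := by
          unfold dd
          simp
        rw [this]
        push_cast
        linarith
      · have hss : U \ W ⊂ U := by
          refine Finset.ssubset_iff_subset_ne.mpr ⟨Finset.sdiff_subset, ?_⟩
          intro he
          obtain ⟨w, hw⟩ := hWne
          have : w ∈ U \ W := by
            rw [he]
            exact hW hw
          exact (Finset.mem_sdiff.mp this).2 hw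
        have hne : (U \ W).Nonempty := by
          rw [Finset.sdiff_nonempty]
          intro hs
          exact hWU (Finset.Subset.antisymm hW hs)
        have h1 := hmin _ hne hss
        have hc : (((U \ W).card : ℝ)) + W.card = U.card := by
          exact_mod_cast Finset.card_sdiff_add_card_eq_card hW
        have h2 := hfun_slope (D / 8) ((U \ W).card : ℝ) (W.card : ℝ) (by linarith)
          (Nat.cast_nonneg _) (Nat.cast_nonneg _)
        rw [hc] at h2
        have h3 : a * hfun (D / 8) (U.card : ℝ) ≤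
            a * (hfun (D / 8) ((U \ W).card : ℝ) + W.card) := mul_le_mul_of_nonneg_left h2 ha.le
        have h4 : D * ((U \ W).card - a * hfun (D / 8) ((U \ W).card : ℝ)) +
            (1 - a) * D * W.card ≤ D * (U.card - a * hfun (D / 8) (U.card : ℝ)) := by
          have h5 : D * (((U \ W).card : ℝ) - a * hfun (D / 8) ((U \ W).card : ℝ) +
              (1 - a) * W.card) ≤ D * (U.card - a * hfun (D / 8) (U.card : ℝ)) := by
            refine mul_le_mul_of_nonneg_left ?_ hD0.le
            linarith
          linarith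
        linarith
  -- expansion
  have hexp : ∀ X : Finset V, X ⊆ U → D / 8 ≤ (X.card : ℝ) → 2 * (X.card : ℝ) ≤ U.card →
      a / 6 * (q4 D * q4 X.card ^ 3) ≤ ((extU G U X).card : ℝ) := by
    intro X hX hX1 hX2
    have hx0 : (0 : ℝ) < X.card := by linarith
    have hXne : X.Nonempty := by
      rw [← Finset.card_pos]
      exact_mod_cast hx0
    have hdisj : Disjoint X (extU G U X) := by
      rw [Finset.disjoint_left]
      intro w hw hw'
      unfold extU at hw'
      rw [Finset.mem_filter] at hw'
      exact hw'.2.1 hw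
    have hcu : (((X ∪ extU G U X).card : ℝ)) = X.card + (extU G U X).card := by
      exact_mod_cast Finset.card_union_of_disjoint hdisj
    have hsubU : X ∪ extU G U X ⊆ U := Finset.union_subset hX (Finset.filter_subset _ _)
    by_cases hall : X ∪ extU G U X = U
    · have h1 : (X.card : ℝ) ≤ (extU G U X).card := by
        rw [hall] at hcu
        linarith
      have h2 : q4 D ≤ 8409 / 5000 * q4 X.card := by
        have h3 : q4 D ≤ q4 (8 * X.card) := q4_mono (by linarith)
        rw [q4_mul 8 _ (by norm_num)] at h3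
        exact h3.trans (mul_le_mul_of_nonneg_right q4_eight (q4_nonneg _))
      have h3 : q4 D * q4 X.card ^ 3 ≤ 8409 / 5000 * X.card := by
        calc q4 D * q4 X.card ^ 3 ≤ (8409 / 5000 * q4 X.card) * q4 X.card ^ 3 :=
              mul_le_mul_of_nonneg_right h2 (pow_nonneg (q4_nonneg _) 3)
          _ = 8409 / 5000 * q4 X.card ^ 4 := by ring
          _ = 8409 / 5000 * X.card := by rw [q4_pow _ hx0.le]
      have h4 : 0 ≤ q4 D * q4 X.card ^ 3 := mul_nonneg (q4_nonneg _) (pow_nonneg (q4_nonneg _) 3)
      nlinarith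
    · have hss : X ∪ extU G U X ⊂ U := Finset.ssubset_iff_subset_ne.mpr ⟨hsubU, hall⟩
      have hne1 : (X ∪ extU G U X).Nonempty := hXne.mono Finset.subset_union_left
      have hc2 : (((U \ X).card : ℝ)) + X.card = U.card := by
        exact_mod_cast Finset.card_sdiff_add_card_eq_card hX
      have hne2 : (U \ X).Nonempty := by
        rw [← Finset.card_pos]
        have : (0 : ℝ) < (U \ X).card := by linarith
        exact_mod_cast this
      have hss2 : U \ X ⊂ U := by
        refine Finset.ssubset_iff_subset_ne.mpr ⟨Finset.sdiff_subset, ?_⟩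
        intro he
        rw [he] at hc2
        linarith
      have h1 := hmin _ hne1 hss
      have h2 := hmin _ hne2 hss2
      have h3 : (dd G U : ℝ) ≤ dd G (X ∪ extU G U X) + dd G (U \ X) := by
        exact_mod_cast dd_split G U X
      have hc3 : ((U \ X).card : ℝ) = U.card - X.card := by linarith
      rw [hcu] at h1
      rw [hc3] at h2
      have h4 : D * (U.card - a * hfun (D / 8) (U.card : ℝ)) <
          D * ((X.card + (extU G U X).card - a * hfun (D / 8) (X.card + (extU G U X).card)) +
            ((U.card - X.card) - a * hfun (D / 8) (U.card - X.card))) := by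
        linarith
      have h5 := lt_of_mul_lt_mul_left h4 hD0.le
      have h6 := hfun_mono (D / 8) (show (X.card : ℝ) ≤ X.card + (extU G U X).card by
        linarith [Nat.cast_nonneg (α := ℝ) (extU G U X).card])
      have h7 := hfun_conc (D / 8) (U.card : ℝ) (X.card : ℝ) (by linarith) hX1 hX2
      have h8 : a * (2803 / 10000 * (q4 (D / 8) * q4 X.card ^ 3)) ≤
          a * (hfun (D / 8) (X.card + (extU G U X).card) + hfun (D / 8) (U.card - X.card) -
            hfun (D / 8) U.card) := mul_le_mul_of_nonneg_left (by linarith) ha.le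
      have h9 : q4 D ≤ 8409 / 5000 * q4 (D / 8) := by
        have e : q4 D = q4 8 * q4 (D / 8) := by
          rw [← q4_mul 8 _ (by norm_num)]
          congr 1
          ring
        rw [e]
        exact mul_le_mul_of_nonneg_right q4_eight (q4_nonneg _)
      have h10 : a / 6 * (q4 D * q4 X.card ^ 3) ≤
          a * (2803 / 10000 * (q4 (D / 8) * q4 X.card ^ 3)) := by
        have h11 : q4 D * q4 X.card ^ 3 ≤ (8409 / 5000 * q4 (D / 8)) * q4 X.card ^ 3 :=
          mul_le_mul_of_nonneg_right h9 (pow_nonneg (q4_nonneg _) 3)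
        have h12 : a / 6 * (q4 D * q4 X.card ^ 3) ≤
            a / 6 * ((8409 / 5000 * q4 (D / 8)) * q4 X.card ^ 3) :=
          mul_le_mul_of_nonneg_left h11 (by positivity)
        refine h12.trans (le_of_eq ?_)
        ring
      linarith
  -- upper bound
  have hup : (dd G U : ℝ) ≤ D * ((U.card : ℝ) + 2) := by
    have hn4 : (4 : ℝ) ≤ U.card := by nlinarith
    have hs := sum_dd_erase G U
    have hle : ∀ v ∈ U, (dd G (U.erase v) : ℝ) ≤ D * ((U.card : ℝ) - 1) := by
      intro v hv
      have hc : ((U.erase v).card : ℝ) + 1 = U.card := by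
        exact_mod_cast Finset.card_erase_add_one hv
      have hne : (U.erase v).Nonempty := by
        rw [← Finset.card_pos]
        have : (0 : ℝ) < (U.erase v).card := by linarith
        exact_mod_cast this
      have h1 := hmin _ hne (Finset.erase_ssubset hv)
      have h2 := hfun_nonneg (D / 8) ((U.erase v).card : ℝ) (Nat.cast_nonneg _)
      have h3 : 0 ≤ a * hfun (D / 8) ((U.erase v).card : ℝ) := mul_nonneg ha.le h2
      refine h1.le.trans (mul_le_mul_of_nonneg_left ?_ hD0.le)
      linarith
    have hsum := Finset.sum_le_sum hle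
    rw [hs, Finset.sum_const, nsmul_eq_mul] at hsum
    have h5 : ((U.card : ℝ) - 2) * dd G U ≤ (U.card - 2) * (D * (U.card + 2)) := by
      refine hsum.trans ?_
      nlinarith
    exact le_of_mul_le_mul_left h5 (by linarith)
  -- transport
  refine ⟨U, hU, ?_⟩
  have eU : (univ : Finset (↥(U : Set V))).map (Function.Embedding.subtype _) = U := by
    ext w
    simp
  have eW : ∀ W W' : Finset (↥(U : Set V)), (∀ x, x ∈ W' ↔ x ∉ W) →
      W'.map (Function.Embedding.subtype _) =
        U \ W.map (Function.Embedding.subtype _) := by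
    intro W W' hW'
    ext w
    rw [Finset.mem_map, Finset.mem_sdiff, Finset.mem_map]
    constructor
    · rintro ⟨q, hq, rfl⟩
      refine ⟨q.2, ?_⟩
      rintro ⟨q', hq', he⟩
      have : q' = q := Subtype.ext he
      exact (hW' q).mp hq (this ▸ hq')
    · rintro ⟨hw, hw'⟩
      refine ⟨⟨w, hw⟩, (hW' _).mpr ?_, rfl⟩
      intro hm
      exact hw' ⟨_, hm, rfl⟩
  have eS : ∀ W : Finset (↥(U : Set V)), W.map (Function.Embedding.subtype _) ⊆ U := by
    intro W w hw
    rw [Finset.mem_map] at hw
    obtain ⟨q, _, rfl⟩ := hw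
    exact q.2
  have eC : (Fintype.card (↥(U : Set V)) : ℝ) = U.card := by
    have : Fintype.card (↥(U : Set V)) = U.card := Fintype.card_coe U
    rw [this]
  have eD : dd (G.induce (U : Set V)) univ = dd G U := by
    have := dd_induce G U univ
    rw [this]
    exact congrArg (dd G) eU
  have eDW : ∀ W W' : Finset (↥(U : Set V)), (∀ x, x ∈ W' ↔ x ∉ W) →
      dd (G.induce (U : Set V)) W' = dd G (U \ W.map (Function.Embedding.subtype _)) := by
    intro W W' hW'
    have := dd_induce G U W'
    rw [this]
    exact congrArg (dd G) (eW W W' hW')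
  constructor
  · rw [eD, eC]
    exact dens
  · rw [eC]
    exact hcard
  · intro W
    rw [eD, eDW W _ (by intro x; simp)]
    have h1 := del _ (eS W)
    rw [Finset.card_map] at h1
    exact h1
  · intro X hX1 hX2
    rw [eC] at hX2
    have h1 := hexp (X.map (Function.Embedding.subtype _)) (eS X) (by rw [Finset.card_map]; exact hX1)
      (by rw [Finset.card_map]; exact hX2)
    rw [Finset.card_map] at h1
    have h2 := ext_induce G U X
    rw [← h2] at h1
    exact h1
  · rw [eD, eC]
    exact hup

/-- Twice the number of edges. -/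
theorem two_card_edgeSet (G : SimpleGraph V) : 2 * Nat.card G.edgeSet = dd G univ := by
  have h1 : Nat.card G.edgeSet = G.edgeFinset.card := by
    rw [Nat.card_eq_fintype_card, ← SimpleGraph.edgeFinset_card]
  rw [h1, ← G.sum_degrees_eq_twice_card_edges]
  unfold dd
  rw [Finset.card_filter, Finset.sum_product]
  refine Finset.sum_congr rfl fun v _ => ?_
  rw [← Finset.card_filter, ← SimpleGraph.card_neighborFinset_eq_degree]
  congr 1
  ext w
  simp

end

end Pool.Agent.H25.TK
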