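import Pool.Agent.H25.TK.Sparse
import Pool.Agent.H25.TK.KS

/-!
Assembly: a dense case theorem with constant `lam` gives the upper bound `lam` for `sub(k)/k^2`.

PROOF of `upper_of_dense`. Given `ε`, take `a` from `DenseOK lam` for `ε`, put `c = lam + ε > 0`,
take `K`, `k0` from `sparse c a` and `k1` from `DenseOK` for this `K`. For `k` at least `k0`, `k1`
and with `D = c k² >= 5`, `k >= 1`: `exists_good` (average degree hypothesis, `two_card_edgeSet`)
gives `U` with `Good (G.induce U) a D`; if `K D <= |U|` use `sparse`, otherwise `DenseOK`;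
`HasTK.of_induce`.
-/

namespace Pool.Agent.H25.TK

open Finset
open scoped Classical

noncomputable section

/-- The dense case with constant `lam` (average degree `(lam + ε) k^2`). -/
def DenseOK (lam : ℝ) : Prop :=
  ∀ ε : ℝ, 0 < ε → ∃ a : ℝ, 0 < a ∧ a ≤ 1 / 8 ∧ ∀ K : ℝ, ∃ k0 : ℝ,
    ∀ (V : Type) [Fintype V] (G : SimpleGraph V) (D : ℝ) (k : ℕ), k0 ≤ k →
      D = (lam + ε) * (k : ℝ) ^ 2 → (Fintype.card V : ℝ) ≤ K * D → Good G a D → HasTK G k

theorem upper_of_dense (lam : ℝ) (hlam : 0 ≤ lam) (h : DenseOK lam) :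
    ∀ ε : ℝ, 0 < ε → ∃ K : ℕ, ∀ k : ℕ, K ≤ k → ∀ (V : Type) [Finite V] [Nonempty V]
      (G : SimpleGraph V),
      (lam + ε) * (k : ℝ) ^ 2 * (Nat.card V : ℝ) ≤ 2 * (Nat.card G.edgeSet : ℝ) →
        HasTK G k := by
  intro ε hε
  obtain ⟨a, ha, ha', hd⟩ := h ε hε
  have hc : 0 < lam + ε := by linarith
  obtain ⟨K, k0, hK, hs⟩ := sparse (lam + ε) a hc ha ha'
  obtain ⟨k1, hd⟩ := hd K
  refine ⟨max (max ⌈k0⌉₊ ⌈k1⌉₊) (max ⌈5 / (lam + ε)⌉₊ 1), ?_⟩
  intro k hk V _ _ G hG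
  have : Fintype V := Fintype.ofFinite V
  have e0 : ⌈k0⌉₊ ≤ k := le_trans (le_trans (le_max_left _ _) (le_max_left _ _)) hk
  have e1 : ⌈k1⌉₊ ≤ k := le_trans (le_trans (le_max_right _ _) (le_max_left _ _)) hk
  have e2 : ⌈5 / (lam + ε)⌉₊ ≤ k := le_trans (le_trans (le_max_left _ _) (le_max_right _ _)) hk
  have e3 : 1 ≤ k := le_trans (le_trans (le_max_right _ _) (le_max_right _ _)) hk
  have hk0 : k0 ≤ k := Nat.ceil_le.mp e0
  have hk1 : k1 ≤ k := Nat.ceil_le.mp e1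
  have hk2 : 5 / (lam + ε) ≤ k := Nat.ceil_le.mp e2
  have hk3 : (1 : ℝ) ≤ k := by exact_mod_cast e3
  have h5 : (5 : ℝ) ≤ (lam + ε) * (k : ℝ) ^ 2 := by
    rw [div_le_iff₀ hc] at hk2
    nlinarith [mul_nonneg hc.le (sub_nonneg.mpr hk3), mul_nonneg (mul_nonneg hc.le
      (sub_nonneg.mpr hk3)) (le_trans zero_le_one hk3)]
  have hcard : Nat.card V = Fintype.card V := Nat.card_eq_fintype_card
  have h2 : ((lam + ε) * (k : ℝ) ^ 2) * (Fintype.card V : ℝ) ≤ dd G univ := by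
    rw [← two_card_edgeSet]
    push_cast
    rw [hcard] at hG
    exact hG
  obtain ⟨U, hU, hgood⟩ := exists_good G a _ ha ha' h5 h2
  refine HasTK.of_induce G (U : Set V) k ?_
  rcases le_total (K * ((lam + ε) * (k : ℝ) ^ 2))
    (Fintype.card ((U : Set V) : Type) : ℝ) with hb | hb
  · exact hs _ _ _ k hk0 rfl hb hgood
  · exact hd _ _ _ k hk1 rfl hb hgood

end

end Pool.Agent.H25.TK
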