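import Pool.Agent.H25.TK.Defs

/-!
The function `hfun t n = min n (q4 t * q4 n ^ 3)` (that is min (n, t^(1/4) n^(3/4))).

PROOFS. `hfun_le`: min. `hfun_slope`: `n -> q4 t * q4 n ^ 3` is `t^(1/4) n^(3/4)`; put
`A = q4 (n+w)`, `B = q4 n`, `T = q4 t`, so `A ^ 4 - B ^ 4 = w`. If `T <= B` (that is `t <= n`) then
`T (A^3 - B^3) <= A^4 - B^4` because `A^4 - B^4 - T (A^3 - B^3) >= A^4 - B^4 - B (A^3 - B^3) =
A^3 (A - B) >= 0`; so the second branch increases by at most `w`; if `n < t` then `hfun t n = n`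
(as `T >= B` gives `T B^3 >= B^4 = n`) and `hfun t (n + w) <= n + w`.
`hfun_conc`: for `t <= x`, `2 x <= n`: all three values are on the second branch (`T <= q4 m` for
`m >= t` gives `T q4 m ^ 3 <= q4 m ^ 4 = m`). With `A = q4 (n - x)`, `B = q4 x`, `0 <= B <= A`,
`N = q4 n`, `N^4 = A^4 + B^4`: to show `N^3 <= A^3 + c B^3` with `c = 1 - 2803/10000 = 7197/10000`,
i.e. `(A^4 + B^4)^3 <= (A^3 + c B^3)^4` (both sides are the 12th and 4th powers: `N^12` and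
`(A^3+cB^3)^4`). Expand: difference is `B^3 (4c A^9 - 3 A^8 B + 6c^2 A^6 B^3 - 3 A^4 B^5 +
4c^3 A^3 B^6 - (1 - c^4) B^9)`, nonnegative for `0 <= B <= A` (at ratio r = B/A:
2.879 - 3 r + 3.108 r^3 - 3 r^5 + 1.491 r^6 - .732 r^9 >= .7 on [0,1]).
-/

namespace Pool.Agent.H25.TK

noncomputable section

/-- min (n, t^(1/4) n^(3/4)) -/
def hfun (t n : ℝ) : ℝ := min n (q4 t * q4 n ^ 3)

lemma q4_nonneg (x : ℝ) : 0 ≤ q4 x := Real.sqrt_nonneg _

lemma q4_pow (x : ℝ) (hx : 0 ≤ x) : q4 x ^ 4 = x := by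
  unfold q4
  have h1 : √(√x) ^ 2 = √x := Real.sq_sqrt (Real.sqrt_nonneg x)
  have h2 : √x ^ 2 = x := Real.sq_sqrt hx
  calc √(√x) ^ 4 = (√(√x) ^ 2) ^ 2 := by ring
    _ = x := by rw [h1, h2]

lemma q4_mono {x y : ℝ} (h : x ≤ y) : q4 x ≤ q4 y :=
  Real.sqrt_le_sqrt (Real.sqrt_le_sqrt h)

lemma q4_mul (x y : ℝ) (hx : 0 ≤ x) : q4 (x * y) = q4 x * q4 y := by
  unfold q4
  rw [Real.sqrt_mul hx, Real.sqrt_mul (Real.sqrt_nonneg x)]

lemma hfun_nonneg (t n : ℝ) (hn : 0 ≤ n) : 0 ≤ hfun t n :=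
  le_min hn (mul_nonneg (q4_nonneg _) (pow_nonneg (q4_nonneg _) 3))

lemma hfun_le (t n : ℝ) : hfun t n ≤ n := min_le_left _ _

lemma hfun_mono (t : ℝ) {m n : ℝ} (h : m ≤ n) : hfun t m ≤ hfun t n :=
  min_le_min h (mul_le_mul_of_nonneg_left (pow_le_pow_left₀ (q4_nonneg _) (q4_mono h) 3)
    (q4_nonneg _))

private lemma KSfun_branch {t n : ℝ} (h : t ≤ n) (hn : 0 ≤ n) :
    hfun t n = q4 t * q4 n ^ 3 := by
  unfold hfun
  apply min_eq_right
  have h1 : q4 t ≤ q4 n := q4_mono h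
  have h2 : 0 ≤ q4 n ^ 3 := pow_nonneg (q4_nonneg _) 3
  calc q4 t * q4 n ^ 3 ≤ q4 n * q4 n ^ 3 := mul_le_mul_of_nonneg_right h1 h2
    _ = q4 n ^ 4 := by ring
    _ = n := q4_pow n hn

lemma hfun_slope (t n w : ℝ) (ht : 0 ≤ t) (hn : 0 ≤ n) (hw : 0 ≤ w) :
    hfun t (n + w) ≤ hfun t n + w := by
  rcases le_total t n with h | h
  · rw [KSfun_branch h hn, KSfun_branch (h.trans (le_add_of_nonneg_right hw)) (by positivity)]
    have hT : q4 t ≤ q4 n := q4_mono h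
    have hA : q4 n ≤ q4 (n + w) := q4_mono (le_add_of_nonneg_right hw)
    have hB0 : 0 ≤ q4 n := q4_nonneg _
    have hA4 : q4 (n + w) ^ 4 = n + w := q4_pow _ (by positivity)
    have hB4 : q4 n ^ 4 = n := q4_pow _ hn
    generalize q4 (n + w) = A at *
    generalize q4 n = B at *
    generalize q4 t = T at *
    have h3 : B ^ 3 ≤ A ^ 3 := pow_le_pow_left₀ hB0 hA 3
    have h4 : T * (A ^ 3 - B ^ 3) ≤ B * (A ^ 3 - B ^ 3) :=
      mul_le_mul_of_nonneg_right hT (sub_nonneg.2 h3)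
    have h5 : 0 ≤ A ^ 3 * (A - B) :=
      mul_nonneg (pow_nonneg (hB0.trans hA) 3) (sub_nonneg.2 hA)
    nlinarith [h4, h5, hA4, hB4]
  · have h1 : hfun t n = n := by
      unfold hfun
      apply min_eq_left
      have h2 : q4 n ≤ q4 t := q4_mono h
      calc n = q4 n ^ 4 := (q4_pow n hn).symm
        _ = q4 n * q4 n ^ 3 := by ring
        _ ≤ q4 t * q4 n ^ 3 := mul_le_mul_of_nonneg_right h2 (pow_nonneg (q4_nonneg _) 3)
    rw [h1]
    exact hfun_le t (n + w)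

lemma hfun_conc (t n x : ℝ) (ht : 0 ≤ t) (hx : t ≤ x) (hn : 2 * x ≤ n) :
    2803 / 10000 * (q4 t * q4 x ^ 3) ≤ hfun t x + hfun t (n - x) - hfun t n := by
  have hx0 : 0 ≤ x := ht.trans hx
  have hnx : x ≤ n - x := by linarith
  have hn0 : 0 ≤ n := by linarith
  rw [KSfun_branch hx hx0, KSfun_branch (hx.trans hnx) (by linarith),
    KSfun_branch (by linarith : t ≤ n) hn0]
  have hBA : q4 x ≤ q4 (n - x) := q4_mono hnx
  have hB0 : 0 ≤ q4 x := q4_nonneg _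
  have hN0 : 0 ≤ q4 n := q4_nonneg _
  have hT0 : 0 ≤ q4 t := q4_nonneg _
  have hA4 : q4 (n - x) ^ 4 = n - x := q4_pow _ (by linarith)
  have hB4 : q4 x ^ 4 = x := q4_pow _ hx0
  have hN4 : q4 n ^ 4 = n := q4_pow _ hn0
  generalize q4 (n - x) = A at *
  generalize q4 x = B at *
  generalize q4 n = N at *
  generalize q4 t = T at *
  have hsum : N ^ 4 = A ^ 4 + B ^ 4 := by rw [hA4, hB4, hN4]; ring
  have key : N ^ 3 ≤ A ^ 3 + 7197 / 10000 * B ^ 3 := by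
    have hA0 : 0 ≤ A := hB0.trans hBA
    have hR0 : 0 ≤ A ^ 3 + 7197 / 10000 * B ^ 3 := by positivity
    have h12 : (N ^ 3) ^ 4 ≤ (A ^ 3 + 7197 / 10000 * B ^ 3) ^ 4 := by
      have e1 : (N ^ 3) ^ 4 = (A ^ 4 + B ^ 4) ^ 3 := by rw [← hsum]; ring
      rw [e1]
      obtain ⟨u, hu⟩ : ∃ u, u = A - B := ⟨_, rfl⟩
      have hu0 : 0 ≤ u := by rw [hu]; linarith
      have hAu : A = B + u := by rw [hu]; ring
      have e2 : (A ^ 3 + 7197 / 10000 * B ^ 3) ^ 4 - (A ^ 4 + B ^ 4) ^ 3 =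
          B ^ 3 * ((7460260197502481 / 10000000000000000) * (u ^ 0 * B ^ 9) + (3257357713119 / 250000000000) * (u ^ 1 * B ^ 8) + (13181826928119 / 250000000000) * (u ^ 2 * B ^ 7) + (31366624334373 / 250000000000) * (u ^ 3 * B ^ 6) + (1963459281 / 10000000) * (u ^ 4 * B ^ 5) + (5334391281 / 25000000) * (u ^ 5 * B ^ 4) + (8046350427 / 50000000) * (u ^ 6 * B ^ 3) + (49773 / 625) * (u ^ 7 * B ^ 2) + (57273 / 2500) * (u ^ 8 * B ^ 1) + (7197 / 2500) * (u ^ 9 * B ^ 0)) := by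
        rw [hAu]; ring
      have e3 : 0 ≤ B ^ 3 * ((7460260197502481 / 10000000000000000) * (u ^ 0 * B ^ 9) + (3257357713119 / 250000000000) * (u ^ 1 * B ^ 8) + (13181826928119 / 250000000000) * (u ^ 2 * B ^ 7) + (31366624334373 / 250000000000) * (u ^ 3 * B ^ 6) + (1963459281 / 10000000) * (u ^ 4 * B ^ 5) + (5334391281 / 25000000) * (u ^ 5 * B ^ 4) + (8046350427 / 50000000) * (u ^ 6 * B ^ 3) + (49773 / 625) * (u ^ 7 * B ^ 2) + (57273 / 2500) * (u ^ 8 * B ^ 1) + (7197 / 2500) * (u ^ 9 * B ^ 0)) := by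
        positivity
      linarith [e2, e3]
    exact le_of_pow_le_pow_left₀ (by norm_num) hR0 h12
  nlinarith [mul_le_mul_of_nonneg_left key hT0]

end

end Pool.Agent.H25.TK
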