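import Pool.Agent.H25.TK.Defs

/-!
Elementary facts on the balls. All proofs are a few lines with `SimpleGraph.Walk.append`,
`Walk.cons`, `Walk.reverse` (`support_append`, `support_reverse`).
-/

namespace Pool.Agent.H25.TK

open Finset
open scoped Classical

noncomputable section

set_option linter.unusedSectionVars false

variable {V : Type} [Fintype V] {G : SimpleGraph V} {y : V → ℝ}

lemma mem_ball {S : Finset V} {r : ℝ} {z : V} :
    z ∈ ball G y S r ↔ ∃ s ∈ S, ∃ p : G.Walk s z, costT y p ≤ r := by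
  simp [ball]

lemma mem_cball {S : Finset V} {r : ℝ} {z : V} :
    z ∈ cball G y S r ↔ ∃ s ∈ S, ∃ p : G.Walk s z, cost y p ≤ r := by
  simp [cball]

lemma cost_eq {u v : V} (p : G.Walk u v) : cost y p = y u + costT y p := by
  unfold cost costT
  have h : p.support = u :: p.support.tail := (SimpleGraph.Walk.cons_tail_support p).symm
  calc (p.support.map y).sum = ((u :: p.support.tail).map y).sum := by rw [← h]
    _ = y u + (p.support.tail.map y).sum := by rw [List.map_cons, List.sum_cons]

lemma costT_nonneg (hy : ∀ v, 0 ≤ y v) {u v : V} (p : G.Walk u v) : 0 ≤ costT y p := by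
  unfold costT
  apply List.sum_nonneg
  intro x hx
  obtain ⟨a, -, rfl⟩ := List.mem_map.mp hx
  exact hy a

lemma costT_append {u v w : V} (p : G.Walk u v) (q : G.Walk v w) :
    costT y (p.append q) = costT y p + costT y q := by
  unfold costT
  rw [SimpleGraph.Walk.tail_support_append, List.map_append, List.sum_append]

lemma cost_reverse {u v : V} (p : G.Walk u v) : cost y p.reverse = cost y p := by
  unfold cost
  rw [SimpleGraph.Walk.support_reverse, List.map_reverse, List.sum_reverse]

lemma subset_ball {S : Finset V} {r : ℝ} (hr : 0 ≤ r) : S ⊆ ball G y S r := by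
  intro s hs
  rw [mem_ball]
  exact ⟨s, hs, SimpleGraph.Walk.nil, by simpa [costT] using hr⟩

lemma ball_mono {S T : Finset V} {r r' : ℝ} (hS : S ⊆ T) (hr : r ≤ r') :
    ball G y S r ⊆ ball G y T r' := by
  intro z hz
  rw [mem_ball] at hz ⊢
  obtain ⟨s, hs, q, hq⟩ := hz
  exact ⟨s, hS hs, q, hq.trans hr⟩

lemma cball_mono {S T : Finset V} {r r' : ℝ} (hS : S ⊆ T) (hr : r ≤ r') :
    cball G y S r ⊆ cball G y T r' := by
  intro z hz
  rw [mem_cball] at hz ⊢
  obtain ⟨s, hs, q, hq⟩ := hz
  exact ⟨s, hS hs, q, hq.trans hr⟩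

lemma ball_step {S : Finset V} {r : ℝ} {z w : V} (hz : z ∈ ball G y S r) (h : G.Adj z w) :
    w ∈ ball G y S (r + y w) := by
  rw [mem_ball] at hz ⊢
  obtain ⟨s, hs, q, hq⟩ := hz
  refine ⟨s, hs, q.append (SimpleGraph.Walk.cons h SimpleGraph.Walk.nil), ?_⟩
  rw [costT_append]
  have e : costT y (SimpleGraph.Walk.cons h (SimpleGraph.Walk.nil : G.Walk w w)) = y w := by
    simp [costT]
  rw [e]
  linarith

lemma ball_ball {S : Finset V} {r r' : ℝ} :
    ball G y (ball G y S r) r' ⊆ ball G y S (r + r') := by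
  intro z hz
  rw [mem_ball] at hz ⊢
  obtain ⟨s, hs, q, hq⟩ := hz
  rw [mem_ball] at hs
  obtain ⟨s', hs', q', hq'⟩ := hs
  refine ⟨s', hs', q'.append q, ?_⟩
  rw [costT_append]
  linarith

lemma cball_ball {S : Finset V} {r r' : ℝ} :
    ball G y (cball G y S r) r' ⊆ cball G y S (r + r') := by
  intro z hz
  rw [mem_ball] at hz
  rw [mem_cball]
  obtain ⟨s, hs, q, hq⟩ := hz
  rw [mem_cball] at hs
  obtain ⟨s', hs', q', hq'⟩ := hs
  refine ⟨s', hs', q'.append q, ?_⟩
  rw [cost_eq, costT_append]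
  rw [cost_eq] at hq'
  linarith

/-- Balls of unions. -/
lemma mem_ball_iff_single {S : Finset V} {r : ℝ} {z : V} :
    z ∈ ball G y S r ↔ ∃ s ∈ S, z ∈ ball G y {s} r := by
  simp only [mem_ball, Finset.mem_singleton, exists_eq_left]

lemma mem_cball_iff_single {S : Finset V} {r : ℝ} {z : V} :
    z ∈ cball G y S r ↔ ∃ s ∈ S, z ∈ cball G y {s} r := by
  simp only [mem_cball, Finset.mem_singleton, exists_eq_left]

/-- A point of `P` of small weight: its ball is in the closed ball. -/
lemma ball_subset_cball {P : Finset V} {w : V} (hw : w ∈ P) {r r' : ℝ} (h : y w ≤ r') :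
    ball G y {w} r ⊆ cball G y P (r' + r) := by
  intro z hz
  rw [mem_ball] at hz
  rw [mem_cball]
  obtain ⟨s, hs, q, hq⟩ := hz
  rw [Finset.mem_singleton] at hs
  subst hs
  refine ⟨s, hw, q, ?_⟩
  rw [cost_eq]
  linarith

/-- Reversal. -/
lemma ball_reverse (hy : ∀ v, 0 ≤ y v) {x z : V} {r : ℝ} (h : z ∈ ball G y {x} r) :
    x ∈ ball G y {z} (r + y x) := by
  rw [mem_ball] at h ⊢
  obtain ⟨s, hs, q, hq⟩ := h
  rw [Finset.mem_singleton] at hs
  subst hs
  refine ⟨z, Finset.mem_singleton_self z, q.reverse, ?_⟩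
  have e1 := cost_eq (y := y) q
  have e2 := cost_eq (y := y) q.reverse
  rw [cost_reverse] at e2
  have := hy z
  linarith

/-- Two closed balls that meet give a cheap route. -/
lemma route_of_meet (hy : ∀ v, 0 ≤ y v) {P Q : Finset V} {r r' : ℝ} {z : V}
    (h : z ∈ cball G y P r) (h' : z ∈ cball G y Q r') :
    ∃ w ∈ P, ∃ w' ∈ Q, ∃ p : G.Walk w w', ∑ v ∈ p.support.toFinset, y v ≤ r + r' := by
  rw [mem_cball] at h h'
  obtain ⟨s, hs, q, hq⟩ := h
  obtain ⟨s', hs', q', hq'⟩ := h'
  refine ⟨s, hs, s', hs', q.append q'.reverse, ?_⟩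
  have e1 : cost y (q.append q'.reverse) ≤ r + r' := by
    rw [cost_eq, costT_append]
    rw [cost_eq] at hq
    have e2 := cost_eq (y := y) q'.reverse
    rw [cost_reverse] at e2
    have := hy z
    linarith
  have key : ∀ l : List V, ∑ v ∈ l.toFinset, y v ≤ (l.map y).sum := by
    intro l
    induction l with
    | nil => simp
    | cons a l ih =>
      rw [List.toFinset_cons, List.map_cons, List.sum_cons]
      by_cases ha : a ∈ l.toFinset
      · rw [Finset.insert_eq_self.mpr ha]
        have := hy a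
        linarith
      · rw [Finset.sum_insert ha]
        linarith
  exact (key _).trans e1

end

end Pool.Agent.H25.TK
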