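import Mathlib

/-!
MP_5406dc (clique subdivisions), graph side of the pipeline: common definitions.
-/

namespace Pool.Agent.H25.TK

open Finset
open scoped Classical

noncomputable section

variable {V : Type}

/-- The property of the frozen statement: `G` contains a subdivision of `K_k`. -/
def HasTK (G : SimpleGraph V) (k : ℕ) : Prop :=
  ∃ f : Fin k → V, Function.Injective f ∧
    ∃ p : ∀ i j : Fin k, G.Walk (f i) (f j),
      (∀ i j : Fin k, i < j → (p i j).IsPath) ∧
      (∀ i j : Fin k, i < j → ∀ v ∈ (p i j).support,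
          v ∈ Set.range f → v = f i ∨ v = f j) ∧
      (∀ i j i' j' : Fin k, i < j → i' < j' → (i, j) ≠ (i', j') →
          ∀ v ∈ (p i j).support, v ∈ (p i' j').support → v ∈ Set.range f)

/-- `u` and `v` are joined by a walk whose inner vertices lie in `R`. -/
def Conn (G : SimpleGraph V) (u v : V) (R : Set V) : Prop :=
  ∃ p : G.Walk u v, ∀ w ∈ p.support, w = u ∨ w = v ∨ w ∈ R

variable [Fintype V]

/-- Twice the number of edges inside `U`. -/
def dd (G : SimpleGraph V) (U : Finset V) : ℕ :=
  ((U ×ˢ U).filter (fun p => G.Adj p.1 p.2)).card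

/-- Neighbours. -/
def nb (G : SimpleGraph V) (v : V) : Finset V := univ.filter (fun w => G.Adj v w)

/-- External neighbourhood of `X`. -/
def ext (G : SimpleGraph V) (X : Finset V) : Finset V :=
  univ.filter (fun w => w ∉ X ∧ ∃ v ∈ X, G.Adj v w)

/-- Fourth root. -/
def q4 (x : ℝ) : ℝ := √(√x)

/-- What the Komlos-Szemeredi argument gives: a dense graph with power law vertex expansion,
minimal under deletion of vertex sets. -/
structure Good (G : SimpleGraph V) (a D : ℝ) : Prop where
  dens : (1 - a) * D * (Fintype.card V : ℝ) ≤ dd G univ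
  card : (1 - a) * D ≤ (Fintype.card V : ℝ)
  del : ∀ W : Finset V, (1 - a) * D * (W.card : ℝ) ≤ (dd G univ : ℝ) - dd G (univ \ W)
  exp : ∀ X : Finset V, D / 8 ≤ (X.card : ℝ) → 2 * (X.card : ℝ) ≤ Fintype.card V →
    a / 6 * (q4 D * q4 X.card ^ 3) ≤ ((ext G X).card : ℝ)
  up : (dd G univ : ℝ) ≤ D * ((Fintype.card V : ℝ) + 2)

/-- Environment for routing: minimum degree and expansion. -/
structure Env (G : SimpleGraph V) (D κ : ℝ) : Prop where
  Dpos : 1 ≤ D
  kpos : 0 < κ
  kle : κ ≤ 1
  deg : ∀ v, 3 / 8 * D ≤ ((nb G v).card : ℝ)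
  exp : ∀ X : Finset V, D / 8 ≤ (X.card : ℝ) → 2 * (X.card : ℝ) ≤ Fintype.card V →
    κ * (q4 D * q4 X.card ^ 3) ≤ ((ext G X).card : ℝ)

/-- Cost of a walk, start vertex not counted. -/
def costT {G : SimpleGraph V} (y : V → ℝ) {u v : V} (p : G.Walk u v) : ℝ :=
  (p.support.tail.map y).sum

/-- Cost of a walk, all vertices counted (with multiplicity). -/
def cost {G : SimpleGraph V} (y : V → ℝ) {u v : V} (p : G.Walk u v) : ℝ :=
  (p.support.map y).sum

/-- Vertices reached from `S` at cost at most `r`, start vertex not counted. -/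
def ball (G : SimpleGraph V) (y : V → ℝ) (S : Finset V) (r : ℝ) : Finset V :=
  univ.filter (fun z => ∃ s ∈ S, ∃ p : G.Walk s z, costT y p ≤ r)

/-- Vertices reached from `P` at cost at most `r`, start vertex counted. -/
def cball (G : SimpleGraph V) (y : V → ℝ) (P : Finset V) (r : ℝ) : Finset V :=
  univ.filter (fun z => ∃ s ∈ P, ∃ p : G.Walk s z, cost y p ≤ r)

end

end Pool.Agent.H25.TK
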