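import Pool.Agent.H25.TK.KSfun

/-!
A good graph minus few vertices is an environment.

PROOF of `good_deg`. `del` for `W = {v}`: `(1-a) D <= dd univ - dd (univ \ {v}) = 2 |nb v|`
(`dd` counts ordered pairs; no loops).

PROOF of `env_induce`. Degree: `|nb v| - |Z| >= 7/16 D - D/480 >= 3/8 D` (`a <= 1/8`).
Expansion: for `X` in the complement of `Z`, mapped to `V`: `ext` in the induced graph is
`ext G X` minus `Z`, so it has at least `a/6 (q4 D q4 |X|^3) - |Z|` elements, and
`|Z| <= a/60 D <= a/12 * (q4 D * q4 |X|^3)` because `q4 |X| >= q4 (D/8) = q4 D/q4 8`,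
`q4 D ^ 4 = D`, `(q4 8)^3 <= 5` (`8^3 <= 5^4`). `2|X| <= |V| - |Z| <= |V|`.

PROOF of `hubs_few`. `Σ_v |nb v| = dd univ <= D (n+2)`.
-/

namespace Pool.Agent.H25.TK

open Finset
open scoped Classical

noncomputable section

variable {V : Type} [Fintype V] {G : SimpleGraph V} {a D : ℝ}

/-- `dd` is the degree sum. -/
lemma sum_nb (G : SimpleGraph V) : ∑ v, (nb G v).card = dd G univ := by
  unfold dd nb
  rw [Finset.card_filter, Finset.sum_product]
  exact Finset.sum_congr rfl fun v _ => Finset.card_filter _ _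

private lemma EnvMk_dd_le (G : SimpleGraph V) (v : V) :
    dd G univ ≤ dd G (univ \ {v}) + 2 * (nb G v).card := by
  have hsub : ((univ ×ˢ univ : Finset (V × V)).filter (fun p => G.Adj p.1 p.2)) ⊆
      (((univ \ {v}) ×ˢ (univ \ {v}) : Finset (V × V)).filter (fun p => G.Adj p.1 p.2)) ∪
        ((nb G v).image (fun w => (v, w)) ∪ (nb G v).image (fun w => (w, v))) := by
    rintro ⟨x, y⟩ hxy
    have hadj : G.Adj x y := (Finset.mem_filter.mp hxy).2
    simp only [Finset.mem_union, Finset.mem_filter, Finset.mem_product, Finset.mem_sdiff,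
      Finset.mem_univ, Finset.mem_singleton, true_and, Finset.mem_image, nb, Prod.mk.injEq]
    by_cases hx : x = v
    · right; left
      exact ⟨y, hx ▸ hadj, hx.symm, rfl⟩
    · by_cases hy : y = v
      · right; right
        exact ⟨x, hy ▸ hadj.symm, rfl, hy.symm⟩
      · left
        exact ⟨⟨hx, hy⟩, hadj⟩
  have h1 := Finset.card_le_card hsub
  have h2 := h1.trans ((Finset.card_union_le _ _).trans
    (Nat.add_le_add_left ((Finset.card_union_le _ _).trans
      (Nat.add_le_add Finset.card_image_le Finset.card_image_le)) _))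
  unfold dd
  omega

lemma good_deg (hG : Good G a D) (v : V) : (1 - a) * D ≤ 2 * ((nb G v).card : ℝ) := by
  have h1 := hG.del {v}
  have h2 : (dd G univ : ℝ) ≤ dd G (univ \ {v}) + 2 * ((nb G v).card : ℝ) := by
    exact_mod_cast EnvMk_dd_le G v
  rw [Finset.card_singleton, Nat.cast_one, mul_one] at h1
  linarith

private lemma EnvMk_q4 (D x : ℝ) (hD : 0 ≤ D) (hx : D / 8 ≤ x) :
    D / 5 ≤ q4 D * q4 x ^ 3 := by
  have hT : q4 D ^ 4 = D := q4_pow D hD
  have hy : q4 (D / 8) ^ 4 = D / 8 := q4_pow _ (by positivity)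
  have hT0 : 0 ≤ q4 D := q4_nonneg _
  have hy0 : 0 ≤ q4 (D / 8) := q4_nonneg _
  have hxy : q4 (D / 8) ≤ q4 x := q4_mono hx
  have h3 : q4 D ^ 3 ≤ 5 * q4 (D / 8) ^ 3 := by
    have h4 : (q4 D ^ 3) ^ 4 ≤ (5 * q4 (D / 8) ^ 3) ^ 4 := by
      have e1 : (q4 D ^ 3) ^ 4 = (q4 D ^ 4) ^ 3 := by ring
      have e2 : (5 * q4 (D / 8) ^ 3) ^ 4 = 625 * (q4 (D / 8) ^ 4) ^ 3 := by ring
      rw [e1, e2, hT, hy]
      have : 0 ≤ D ^ 3 := by positivity
      nlinarith
    exact (pow_le_pow_iff_left₀ (by positivity) (by positivity) (by norm_num)).mp h4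
  have h5 : q4 (D / 8) ^ 3 ≤ q4 x ^ 3 := pow_le_pow_left₀ hy0 hxy 3
  calc D / 5 = q4 D * q4 D ^ 3 / 5 := by
        nth_rewrite 1 [← hT]; ring
    _ ≤ q4 D * (5 * q4 (D / 8) ^ 3) / 5 := by
        have := mul_le_mul_of_nonneg_left h3 hT0
        linarith
    _ = q4 D * q4 (D / 8) ^ 3 := by ring
    _ ≤ q4 D * q4 x ^ 3 := mul_le_mul_of_nonneg_left h5 hT0

theorem env_induce (hG : Good G a D) (ha : 0 < a) (ha' : a ≤ 1 / 8) (hD : 1 ≤ D) (Z : Finset V)
    (hZ : 60 * (Z.card : ℝ) ≤ a * D) : Env (G.induce ((Z : Set V)ᶜ)) D (a / 12) := by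
  refine ⟨hD, by positivity, by linarith, ?_, ?_⟩
  · intro v
    have hsub : nb G v.1 ⊆ ((nb (G.induce ((Z : Set V)ᶜ)) v).image Subtype.val) ∪ Z := by
      intro w hw
      by_cases hwZ : w ∈ Z
      · exact Finset.mem_union_right _ hwZ
      · apply Finset.mem_union_left
        rw [Finset.mem_image]
        refine ⟨⟨w, by simpa using hwZ⟩, ?_, rfl⟩
        simp only [nb, Finset.mem_filter, Finset.mem_univ, true_and] at hw ⊢
        exact hw
    have h1 := Finset.card_le_card hsub
    have h2 := h1.trans ((Finset.card_union_le _ _).trans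
      (Nat.add_le_add_right Finset.card_image_le _))
    have h3 : ((nb G v.1).card : ℝ) ≤ (nb (G.induce ((Z : Set V)ᶜ)) v).card + Z.card := by
      exact_mod_cast h2
    have h4 := good_deg hG v.1
    nlinarith
  · intro X hX hXn
    set X' : Finset V := X.image Subtype.val with hX'
    have hc : X'.card = X.card := Finset.card_image_of_injective _ Subtype.val_injective
    have hle : Fintype.card ((Z : Set V)ᶜ : Set V) ≤ Fintype.card V :=
      Fintype.card_le_of_injective Subtype.val Subtype.val_injective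
    have hle' : (Fintype.card ((Z : Set V)ᶜ : Set V) : ℝ) ≤ Fintype.card V := by
      exact_mod_cast hle
    have h1 := hG.exp X' (by rw [hc]; exact hX) (by rw [hc]; linarith)
    rw [hc] at h1
    have hsub : ext G X' ⊆ ((ext (G.induce ((Z : Set V)ᶜ)) X).image Subtype.val) ∪ Z := by
      intro w hw
      by_cases hwZ : w ∈ Z
      · exact Finset.mem_union_right _ hwZ
      · apply Finset.mem_union_left
        rw [Finset.mem_image]
        refine ⟨⟨w, by simpa using hwZ⟩, ?_, rfl⟩
        simp only [ext, Finset.mem_filter, Finset.mem_univ, true_and] at hw ⊢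
        obtain ⟨hw1, x, hx, hxw⟩ := hw
        rw [hX', Finset.mem_image] at hx
        obtain ⟨x', hx', rfl⟩ := hx
        refine ⟨fun hmem => hw1 ?_, x', hx', hxw⟩
        rw [hX', Finset.mem_image]
        exact ⟨_, hmem, rfl⟩
    have h2 := Finset.card_le_card hsub
    have h3 := h2.trans ((Finset.card_union_le _ _).trans
      (Nat.add_le_add_right Finset.card_image_le _))
    have h4 : ((ext G X').card : ℝ) ≤ (ext (G.induce ((Z : Set V)ᶜ)) X).card + Z.card := by
      exact_mod_cast h3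
    have h5 := EnvMk_q4 D X.card (by linarith) hX
    have h6 : a * (D / 5) ≤ a * (q4 D * q4 X.card ^ 3) := mul_le_mul_of_nonneg_left h5 ha.le
    linarith

end

end Pool.Agent.H25.TK
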