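import Pool.Agent.H25.TK.Defs

/-!
From disjoint route sets to a subdivision.

PROOF of `hasTK_of_conn`. For `i < j` take the walk of `Conn`, made a path by `toPath` (its support
is contained in the support of the walk); for `j < i` the reverse of the chosen path, for `i = j`
the nil walk. A vertex of the support of the path of `i < j` which is in the range of `f` is `f i`,
`f j` or in `R i j`, the last one is excluded. A common vertex of the paths of `(i,j)` and
`(i',j')`, if it is not in the range of `f`, lies in `R i j` and in `R i' j'`: excluded.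

PROOF of `HasTK.of_induce`: map the walks by the inclusion (`SimpleGraph.Walk.map`); a support
vertex in the range of `Subtype.val ∘ f` comes from the range of `f`.
-/

namespace Pool.Agent.H25.TK

open Finset
open scoped Classical

noncomputable section

variable {V : Type}

theorem hasTK_of_conn (G : SimpleGraph V) (k : ℕ) (f : Fin k → V) (hf : Function.Injective f)
    (R : Fin k → Fin k → Set V)
    (hconn : ∀ i j, i < j → Conn G (f i) (f j) (R i j))
    (hav : ∀ i j, i < j → ∀ l, f l ∉ R i j)
    (hdis : ∀ i j i' j', i < j → i' < j' → (i, j) ≠ (i', j') → Disjoint (R i j) (R i' j')) :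
    HasTK G k := by
  have key : ∀ i j : Fin k, ∃ p : G.Walk (f i) (f j), i < j →
      p.IsPath ∧ ∀ w ∈ p.support, w = f i ∨ w = f j ∨ w ∈ R i j := by
    intro i j
    rcases lt_trichotomy i j with h | h | h
    · obtain ⟨p, hp⟩ := hconn i j h
      refine ⟨p.toPath.1, fun _ => ⟨p.toPath.2, fun w hw => ?_⟩⟩
      exact hp w (SimpleGraph.Walk.support_toPath_subset p hw)
    · subst h
      exact ⟨SimpleGraph.Walk.nil, fun h => absurd h (lt_irrefl _)⟩
    · obtain ⟨p, hp⟩ := hconn j i h
      exact ⟨p.reverse, fun h' => absurd h' (not_lt.2 h.le)⟩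
  choose p hp using key
  refine ⟨f, hf, p, fun i j h => (hp i j h).1, ?_, ?_⟩
  · intro i j h v hv hr
    obtain ⟨l, rfl⟩ := hr
    rcases (hp i j h).2 _ hv with h1 | h1 | h1
    · exact Or.inl h1
    · exact Or.inr h1
    · exact absurd h1 (hav i j h l)
  · intro i j i' j' h h' hne v hv hv'
    rcases (hp i j h).2 _ hv with h1 | h1 | h1
    · exact ⟨i, h1.symm⟩
    · exact ⟨j, h1.symm⟩
    · rcases (hp i' j' h').2 _ hv' with h2 | h2 | h2
      · exact ⟨i', h2.symm⟩
      · exact ⟨j', h2.symm⟩
      · exact absurd h2 (Set.disjoint_left.1 (hdis i j i' j' h h' hne) h1)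

private lemma Glue_map {W : Type} {G : SimpleGraph V} {G' : SimpleGraph W} (φ : G' →g G)
    (hφ : Function.Injective φ) {k : ℕ} (h : HasTK G' k) : HasTK G k := by
  obtain ⟨f, hf, p, hp1, hp2, hp3⟩ := h
  refine ⟨fun i => φ (f i), hφ.comp hf, fun i j => (p i j).map φ, ?_, ?_, ?_⟩
  · intro i j h
    exact SimpleGraph.Walk.map_isPath_of_injective hφ (hp1 i j h)
  · intro i j h v hv hr
    have hv2 : v ∈ (p i j).support.map φ := by
      rw [← SimpleGraph.Walk.support_map]; exact hv
    obtain ⟨w, hw, rfl⟩ := List.mem_map.1 hv2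
    obtain ⟨l, hl⟩ := hr
    have hl' : f l = w := hφ hl
    rcases hp2 i j h w hw ⟨l, hl'⟩ with h1 | h1
    · left; rw [h1]
    · right; rw [h1]
  · intro i j i' j' h h' hne v hv hv'
    have hv2 : v ∈ (p i j).support.map φ := by
      rw [← SimpleGraph.Walk.support_map]; exact hv
    have hv3 : v ∈ (p i' j').support.map φ := by
      rw [← SimpleGraph.Walk.support_map]; exact hv'
    obtain ⟨w, hw, rfl⟩ := List.mem_map.1 hv2
    obtain ⟨w', hw', he⟩ := List.mem_map.1 hv3
    have he' : w' = w := hφ he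
    subst he'
    obtain ⟨l, hl⟩ := hp3 i j i' j' h h' hne w' hw hw'
    exact ⟨l, by rw [← hl]⟩

theorem HasTK.of_induce (G : SimpleGraph V) (U : Set V) (k : ℕ) (h : HasTK (G.induce U) k) :
    HasTK G k :=
  Glue_map (SimpleGraph.Embedding.induce U).toHom Subtype.val_injective h

/-- Fewer branch vertices. -/
theorem HasTK.mono (G : SimpleGraph V) {k l : ℕ} (h : HasTK G l) (hkl : k ≤ l) : HasTK G k := by
  obtain ⟨f, hf, p, hp1, hp2, hp3⟩ := h
  let c : Fin k → Fin l := Fin.castLE hkl
  have hc : Function.Injective c := Fin.castLE_injective hkl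
  have hlt : ∀ {i j : Fin k}, i < j → c i < c j := fun h => h
  have hinj : ∀ {i j i' j' : Fin k}, (i, j) ≠ (i', j') → (c i, c j) ≠ (c i', c j') := by
    intro i j i' j' hne he
    rw [Prod.mk.injEq] at he
    exact hne (Prod.ext (hc he.1) (hc he.2))
  have h1 : ∀ i j : Fin k, i < j → ∀ v ∈ (p (c i) (c j)).support, v ∈ Set.range f →
      v = f (c i) ∨ v = f (c j) := fun i j h => hp2 _ _ (hlt h)
  refine ⟨f ∘ c, hf.comp hc, fun i j => p (c i) (c j), fun i j h => hp1 _ _ (hlt h), ?_, ?_⟩
  · intro i j h v hv hr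
    obtain ⟨m, hm⟩ := hr
    exact h1 i j h v hv ⟨c m, hm⟩
  · intro i j i' j' h h' hne v hv hv'
    have hr := hp3 _ _ _ _ (hlt h) (hlt h') (hinj hne) v hv hv'
    have e1 := h1 i j h v hv hr
    rcases e1 with e | e
    · exact ⟨i, e.symm⟩
    · exact ⟨j, e.symm⟩

end

end Pool.Agent.H25.TK
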