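import Pool.Agent.H25.TK.Ball

/-!
One step of metric growth (energy argument).

PROOF of `grow_one`. For `w : V` not in `S` let `ρ w` be the least `costT` of a walk from `S` to a
neighbour of `w` (inf over a finite set of values is enough: `ball` only depends on
`dist z = min costT` over paths; if no walk, `w` never matters). Then for `0 <= r` the vertex `w`
lies in `ext G (ball G y S r)` iff it is not in `ball G y S r` and has a neighbour in it, that is
`ρ w <= r < ρ w + y w`. Let `B = ball G y S R` and let `Out` be the set of `w` not in `B` that lie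
in `ext G (ball G y S r)` for some `r < R`. If `|Out| <= γ` put `T = Out`, otherwise let `T` be
`γ` elements of `Out` of smallest `ρ`. Claim: for every `0 <= r < R` at least `γ` elements of
`B ∪ T` lie in `ext G (ball G y S r)`: the elements of `Out` in it are exactly those with
`ρ <= r` (they are never absorbed before `R`); if there are at least `γ` of those then the elements
of `T` are `γ` of them; otherwise all of them are in `T`, and the others are in `B`.
(An equivalent way without `ρ`: choose `T` by induction on time, or: the sets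
`Out r = ext (ball r) \ B` are increasing in `r`.)
Now take `N` large and the grid `r_i = i R / N`, `i < N`. A vertex `w` is in
`ext G (ball G y S r_i)` for at most `N * y w / R + 1` values of `i` (those with
`ρ w <= r_i < ρ w + y w`). Hence `γ N <= Σ_{w ∈ B ∪ T} (N y w / R + 1)`; divide by `N` and let
`N -> ∞`: `γ R <= Σ_{w ∈ B ∪ T} y w`. (Or integrate over `r` in `[0,R]`.)
Cauchy-Schwarz: `γ² R² <= |B ∪ T| Σ y² <= (|B| + γ) E`.
-/

namespace Pool.Agent.H25.TK

open Finset
open scoped Classical

noncomputable section

variable {V : Type} [Fintype V] {G : SimpleGraph V} {y : V → ℝ}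

lemma grow_nest (O : ℕ → Finset V) (hmono : ∀ i j, i ≤ j → O i ⊆ O j) (γ : ℕ) (N : ℕ) :
    ∃ T : Finset V, T ⊆ O N ∧ T.card ≤ γ ∧ ∀ i, i ≤ N → min γ (O i).card ≤ (T ∩ O i).card := by
  induction N with
  | zero =>
    obtain ⟨T, hT, hc⟩ := Finset.exists_subset_card_eq (s := O 0) (n := min γ (O 0).card)
      (min_le_right _ _)
    refine ⟨T, hT, hc ▸ min_le_left _ _, ?_⟩
    intro i hi
    have : i = 0 := by omega
    subst this
    rw [Finset.inter_eq_left.mpr hT, hc]
  | succ N ih =>
    obtain ⟨T, hT, hc, hi⟩ := ih
    have hsub : O N ⊆ O (N + 1) := hmono _ _ (Nat.le_succ _)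
    obtain ⟨T', h1, h2, h3⟩ := Finset.exists_subsuperset_card_eq (s := T) (t := O (N + 1))
      (n := min γ (O (N + 1)).card) (hT.trans hsub)
      (le_min hc (Finset.card_le_card (hT.trans hsub))) (min_le_right _ _)
    refine ⟨T', h2, h3 ▸ min_le_left _ _, ?_⟩
    intro i hi'
    rcases Nat.lt_or_ge N i with h | h
    · have : i = N + 1 := by omega
      subst this
      rw [Finset.inter_eq_left.mpr h2, h3]
    · exact (hi i h).trans (Finset.card_le_card (Finset.inter_subset_inter_right h1))

/-- A finite set of natural numbers in which any two elements differ by at most `c`. -/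
lemma grow_interval (I : Finset ℕ) (c : ℝ) (hc : 0 ≤ c)
    (h : ∀ i ∈ I, ∀ j ∈ I, i ≤ j → (j : ℝ) - i ≤ c) : (I.card : ℝ) ≤ c + 1 := by
  rcases I.eq_empty_or_nonempty with rfl | hne
  · simp
    linarith
  · have hsub : I ⊆ Finset.Icc (I.min' hne) (I.max' hne) := by
      intro i hi
      exact Finset.mem_Icc.mpr ⟨I.min'_le i hi, I.le_max' i hi⟩
    have h1 := Finset.card_le_card hsub
    rw [Nat.card_Icc] at h1
    have h2 := h _ (I.min'_mem hne) _ (I.max'_mem hne) (I.min'_le _ (I.max'_mem hne))
    have h3 : I.min' hne ≤ I.max' hne := I.min'_le _ (I.max'_mem hne)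
    have h4 : (I.card : ℝ) ≤ ((I.max' hne + 1 - I.min' hne : ℕ) : ℝ) := by exact_mod_cast h1
    rw [Nat.cast_sub (by omega)] at h4
    push_cast at h4
    linarith

theorem grow_one (hy : ∀ v, 0 ≤ y v) {E : ℝ} (hE : ∑ v, y v ^ 2 ≤ E) (S : Finset V) {R : ℝ}
    (hR : 0 < R) (γ : ℕ) (h : ∀ r, 0 ≤ r → r < R → γ ≤ (ext G (ball G y S r)).card) :
    (γ : ℝ) ^ 2 * R ^ 2 ≤ (((ball G y S R).card : ℝ) + γ) * E := by
  set B := ball G y S R with hB
  set C : ℝ := √((B.card + γ : ℝ) * E) with hC
  have hE0 : 0 ≤ E := (Finset.sum_nonneg fun v _ => sq_nonneg (y v)).trans hE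
  have hCE : 0 ≤ ((B.card : ℝ) + γ) * E := by positivity
  have key : ∀ N : ℕ, 0 < N → (γ : ℝ) * R ≤ C + (Fintype.card V : ℝ) * R / N := by
    intro N hN
    have hNr : (0 : ℝ) < N := by exact_mod_cast hN
    let rr : ℕ → ℝ := fun i => (i : ℝ) * (R / N)
    have hrr0 : ∀ i, 0 ≤ rr i := fun i => by positivity
    have hrrR : ∀ i, i < N → rr i < R := by
      intro i hi
      have : (i : ℝ) < N := by exact_mod_cast hi
      calc (i : ℝ) * (R / N) < N * (R / N) := by
            apply mul_lt_mul_of_pos_right this (by positivity)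
        _ = R := by field_simp
    let O : ℕ → Finset V := fun i =>
      univ.filter (fun w => w ∉ B ∧ ∃ v ∈ ball G y S (rr i), G.Adj v w)
    have hrrmono : ∀ i j, i ≤ j → rr i ≤ rr j := by
      intro i j hij
      have : (i : ℝ) ≤ j := by exact_mod_cast hij
      exact mul_le_mul_of_nonneg_right this (by positivity)
    have hOmono : ∀ i j, i ≤ j → O i ⊆ O j := by
      intro i j hij w hw
      simp only [O, mem_filter, mem_univ, true_and] at hw ⊢
      obtain ⟨h1, v, hv, hvw⟩ := hw
      exact ⟨h1, v, ball_mono (le_refl S) (hrrmono i j hij) hv, hvw⟩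
    obtain ⟨T, hT, hTc, hTi⟩ := grow_nest O hOmono γ N
    -- every level has at least `γ` elements of `B ∪ T`
    have hlev : ∀ i, i < N → γ ≤ ((B ∪ T).filter (fun w => w ∈ ext G (ball G y S (rr i)))).card := by
      intro i hi
      have hγ := h (rr i) (hrr0 i) (hrrR i hi)
      have hOext : ∀ w, w ∈ O i → w ∈ ext G (ball G y S (rr i)) := by
        intro w hw
        simp only [O, mem_filter, mem_univ, true_and] at hw
        simp only [ext, mem_filter, mem_univ, true_and]
        refine ⟨fun hw' => hw.1 ?_, hw.2⟩
        exact ball_mono (le_refl S) (hrrR i hi).le hw'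
      have hTi' := hTi i hi.le
      rcases le_or_gt γ (O i).card with h1 | h1
      · rw [min_eq_left h1] at hTi'
        refine hTi'.trans (Finset.card_le_card ?_)
        intro w hw
        rw [Finset.mem_inter] at hw
        rw [Finset.mem_filter]
        exact ⟨Finset.mem_union_right _ hw.1, hOext w hw.2⟩
      · rw [min_eq_right h1.le] at hTi'
        have hOT : T ∩ O i = O i :=
          Finset.eq_of_subset_of_card_le Finset.inter_subset_right hTi'
        refine hγ.trans (Finset.card_le_card ?_)
        intro w hw
        rw [Finset.mem_filter]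
        refine ⟨?_, hw⟩
        by_cases hwB : w ∈ B
        · exact Finset.mem_union_left _ hwB
        · have : w ∈ O i := by
            simp only [O, mem_filter, mem_univ, true_and]
            simp only [ext, mem_filter, mem_univ, true_and] at hw
            exact ⟨hwB, hw.2⟩
          rw [← hOT] at this
          exact Finset.mem_union_right _ (Finset.mem_inter.mp this).1
    -- each vertex is seen for few levels
    have hcnt : ∀ w : V, (((Finset.range N).filter
        (fun i => w ∈ ext G (ball G y S (rr i)))).card : ℝ) ≤ y w * N / R + 1 := by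
      intro w
      refine grow_interval _ _ (by have := hy w; positivity) ?_
      intro i hi j hj hij
      rw [Finset.mem_filter] at hi hj
      have h1 := hi.2
      have h2 := hj.2
      simp only [ext, mem_filter, mem_univ, true_and] at h1 h2
      obtain ⟨v, hv, hvw⟩ := h1.2
      have h3 := ball_step hv hvw
      have h4 : rr j < rr i + y w := by
        by_contra hcon
        push Not at hcon
        exact h2.1 (ball_mono (le_refl S) hcon h3)
      have h5 : ((j : ℝ) - i) * (R / N) ≤ y w := by
        have : (j : ℝ) * (R / N) < (i : ℝ) * (R / N) + y w := h4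
        linarith
      calc (j : ℝ) - i = ((j : ℝ) - i) * (R / N) * (N / R) := by field_simp
        _ ≤ y w * (N / R) := mul_le_mul_of_nonneg_right h5 (by positivity)
        _ = y w * N / R := by ring
    -- double counting
    have hdc : (N : ℝ) * γ ≤ ∑ w ∈ B ∪ T, (y w * N / R + 1) := by
      calc (N : ℝ) * γ = ∑ _i ∈ Finset.range N, (γ : ℝ) := by simp
        _ ≤ ∑ i ∈ Finset.range N,
            (((B ∪ T).filter (fun w => w ∈ ext G (ball G y S (rr i)))).card : ℝ) := by
          refine Finset.sum_le_sum fun i hi => ?_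
          exact_mod_cast hlev i (Finset.mem_range.mp hi)
        _ = ∑ w ∈ B ∪ T, (((Finset.range N).filter
            (fun i => w ∈ ext G (ball G y S (rr i)))).card : ℝ) := by
          simp only [Finset.card_filter, Nat.cast_sum]
          rw [Finset.sum_comm]
        _ ≤ _ := Finset.sum_le_sum fun w _ => hcnt w
    have hsum : ∑ w ∈ B ∪ T, (y w * N / R + 1)
        = (∑ w ∈ B ∪ T, y w) * N / R + (B ∪ T).card := by
      rw [Finset.sum_add_distrib, Finset.sum_const, nsmul_eq_mul, mul_one, Finset.sum_mul,
        Finset.sum_div]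
    have hBT : ((B ∪ T).card : ℝ) ≤ B.card + γ := by
      have h1 := Finset.card_union_le B T
      have h2 : (B ∪ T).card ≤ B.card + γ := by omega
      exact_mod_cast h2
    have hCS : ∑ w ∈ B ∪ T, y w ≤ C := by
      apply Real.le_sqrt_of_sq_le
      calc (∑ w ∈ B ∪ T, y w) ^ 2 ≤ (B ∪ T).card * ∑ w ∈ B ∪ T, y w ^ 2 :=
            sq_sum_le_card_mul_sum_sq
        _ ≤ (B.card + γ) * E := by
          refine mul_le_mul hBT ?_ (Finset.sum_nonneg fun v _ => sq_nonneg (y v)) (by positivity)
          refine le_trans ?_ hE
          exact Finset.sum_le_sum_of_subset_of_nonneg (Finset.subset_univ _)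
            (fun v _ _ => sq_nonneg (y v))
    have hV : ((B ∪ T).card : ℝ) ≤ Fintype.card V := by
      exact_mod_cast Finset.card_le_univ _
    rw [hsum] at hdc
    have h6 : (N : ℝ) * γ ≤ C * N / R + Fintype.card V := by
      have : (∑ w ∈ B ∪ T, y w) * N / R ≤ C * N / R := by
        gcongr
      linarith
    have h7 : (γ : ℝ) * R = (N * γ) * (R / N) := by field_simp
    rw [h7]
    calc (N * γ : ℝ) * (R / N) ≤ (C * N / R + Fintype.card V) * (R / N) :=
          mul_le_mul_of_nonneg_right h6 (by positivity)
      _ = C + (Fintype.card V : ℝ) * R / N := by field_simp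
  have hfin : (γ : ℝ) * R ≤ C := by
    refine le_of_forall_pos_le_add fun ε hε => ?_
    obtain ⟨N, hN⟩ := exists_nat_gt ((Fintype.card V : ℝ) * R / ε)
    have hN0 : 0 < N := by
      rcases Nat.eq_zero_or_pos N with h0 | h0
      · subst h0
        have : 0 ≤ (Fintype.card V : ℝ) * R / ε := by positivity
        simp at hN
        linarith
      · exact h0
    have hNr : (0 : ℝ) < N := by exact_mod_cast hN0
    have h8 : (Fintype.card V : ℝ) * R / N ≤ ε := by
      rw [div_le_iff₀ hNr]
      rw [div_lt_iff₀ hε] at hN
      linarith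
    linarith [key N hN0]
  have h9 : ((γ : ℝ) * R) ^ 2 ≤ C ^ 2 := by
    have : 0 ≤ (γ : ℝ) * R := by positivity
    exact pow_le_pow_left₀ this hfin 2
  rw [hC, Real.sq_sqrt hCE] at h9
  nlinarith [h9]

end

end Pool.Agent.H25.TK
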