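import Pool.Agent.H25.TK.Grow1
import Pool.Agent.H25.TK.KSfun

/-!
Growth in an environment.

PROOF of `grow_env`. `g = κ q4 D (q4 s)^3`, `γ = ⌈g⌉₊`. For `0 <= r < R` the set
`X = ball G y S r` contains `S`, so `|X| >= s >= D/8`, and `2|X| <= n` by monotonicity, so
`|ext G X| >= κ q4 D (q4 |X|)^3 >= g`, hence `>= γ`. `grow_one` gives
`γ² R² <= (M s + γ) E`. As `γ²/(M s + γ)` is increasing in `γ >= g > 0`:
`g² R² <= (M s + g) E` (cross-multiply). `g <= 2 s`: `D <= 8 s` so
`q4 D <= q4 8 q4 s <= 2 q4 s`, `(q4 s)^4 = s`, `κ <= 1`. So `g² R² <= (M + 2) s E`; `g² =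
κ² (q4 D)² (q4 s)² s` (`q4_pow`), divide by `s > 0`.

PROOF of `grow_half`. Induction on `m` for the statement with the extra hypothesis
`n < 2^m * s`. If `n < 2 s` the set `S ⊆ ball` is already large. Otherwise let
`A = √E / (κ (q4 D * q4 s))`, `R = 21/10 * A`, `B = ball G y S R`. If `2|B| > n`: done by
monotonicity. Otherwise `|B| > 2 s`, because `|B| <= 2 s` would give by `grow_env` (`M = 2`)
`κ² (q4 D)² (q4 s)² R² <= 4 E`, i.e. `(21/10)² E <= 4 E`, false. Apply the induction hypothesis to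
`B`, `2 s`: `ball B (14 √E/(κ q4 D q4 (2s)))` is large, contained in `ball S (R + ...)`
(`ball_ball`), and `R + 14 √E/(κ q4 D q4 (2s)) <= 14 A` because `q4 (2 s) = q4 2 * q4 s`,
`q4 2 >= 118/100` and `21/10 + 14/1.18 <= 14`.

PROOF of `term_half`. `t = 2 √(E/D)`; at most `E/t² = D/4` vertices have `y > t`, so
`P' = {w ∈ P : y w <= t}` has at least `D/8` elements; `grow_half` for `P'`, `s = D/8`; its radius
is `14 √E/(κ q4 D q4 (D/8)) <= 24 √(E/D)/κ` (`q4 D * q4 (D/8) = √D / q4 8`, `14 q4 8 <= 24`), and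
`ball P' r ⊆ cball P (t + r)` (`ball_subset_cball`), `t + 24 √(E/D)/κ <= 27 √(E/D)/κ`.
-/

namespace Pool.Agent.H25.TK

open Finset
open scoped Classical

noncomputable section

variable {V : Type} [Fintype V] {G : SimpleGraph V} {y : V → ℝ} {D κ E : ℝ}

lemma g2_q4_pos {x : ℝ} (hx : 0 < x) : 0 < q4 x := Real.sqrt_pos.mpr (Real.sqrt_pos.mpr hx)

lemma g2_q4_le_of_pow {x b : ℝ} (hx : 0 ≤ x) (hb : 0 ≤ b) (h : x ≤ b ^ 4) : q4 x ≤ b := by
  have h1 : q4 x ^ 4 ≤ b ^ 4 := by rw [q4_pow x hx]; exact h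
  exact le_of_pow_le_pow_left₀ (by norm_num) hb h1

lemma g2_le_q4_of_pow {x b : ℝ} (hx : 0 ≤ x) (hb : 0 ≤ b) (h : b ^ 4 ≤ x) : b ≤ q4 x := by
  have h1 : b ^ 4 ≤ q4 x ^ 4 := by rw [q4_pow x hx]; exact h
  exact le_of_pow_le_pow_left₀ (by norm_num) (q4_nonneg x) h1

lemma g2_q4_sq (x : ℝ) : q4 x ^ 2 = √x := Real.sq_sqrt (Real.sqrt_nonneg x)

theorem grow_env (hG : Env G D κ) (hy : ∀ v, 0 ≤ y v) (hE : ∑ v, y v ^ 2 ≤ E) (S : Finset V)
    {s R M : ℝ} (hs : D / 8 ≤ s) (hS : s ≤ (S.card : ℝ)) (hR : 0 < R) (hM : 1 ≤ M)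
    (h2 : 2 * ((ball G y S R).card : ℝ) ≤ Fintype.card V)
    (hMs : ((ball G y S R).card : ℝ) ≤ M * s) :
    κ ^ 2 * (q4 D) ^ 2 * (q4 s) ^ 2 * R ^ 2 ≤ (M + 2) * E := by
  have hD := hG.Dpos
  have hs0 : 0 < s := by linarith
  have hκ := hG.kpos
  have hE0 : 0 ≤ E := (Finset.sum_nonneg fun v _ => sq_nonneg (y v)).trans hE
  have hqD : 0 < q4 D := g2_q4_pos (by linarith)
  have hqs : 0 < q4 s := g2_q4_pos hs0
  set g : ℝ := κ * (q4 D * q4 s ^ 3) with hg
  have hgpos : 0 < g := by positivity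
  have hext : ∀ r, 0 ≤ r → r < R → ⌈g⌉₊ ≤ (ext G (ball G y S r)).card := by
    intro r hr hrR
    have hSX : (S.card : ℝ) ≤ ((ball G y S r).card : ℝ) := by
      exact_mod_cast Finset.card_le_card (subset_ball hr)
    have hXB : ((ball G y S r).card : ℝ) ≤ ((ball G y S R).card : ℝ) := by
      exact_mod_cast Finset.card_le_card (ball_mono (le_refl S) hrR.le)
    have h3 := hG.exp (ball G y S r) (by linarith) (by linarith)
    rw [Nat.ceil_le]
    refine le_trans ?_ h3
    have h4 : q4 s ≤ q4 ((ball G y S r).card : ℝ) := q4_mono (by linarith)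
    rw [hg]
    gcongr
  have h1 := grow_one hy hE S hR ⌈g⌉₊ hext
  set γ : ℝ := (⌈g⌉₊ : ℝ) with hγ
  have hγg : g ≤ γ := Nat.le_ceil g
  have hMs0 : 0 < M * s := by positivity
  have h3 : γ ^ 2 * R ^ 2 ≤ (M * s + γ) * E := by
    refine h1.trans ?_
    gcongr
  have h4 : g ^ 2 * R ^ 2 ≤ (M * s + g) * E := by
    have h5 : g ^ 2 * (M * s + γ) ≤ γ ^ 2 * (M * s + g) := by
      have e1 : g ^ 2 ≤ γ ^ 2 := pow_le_pow_left₀ hgpos.le hγg 2
      have e2 : 0 ≤ γ * g * (γ - g) := by
        have : 0 ≤ γ - g := by linarith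
        have : 0 < γ := by linarith
        positivity
      nlinarith [mul_le_mul_of_nonneg_left e1 hMs0.le]
    have h6 : g ^ 2 * R ^ 2 * (M * s + γ) ≤ (M * s + g) * E * (M * s + γ) := by
      calc g ^ 2 * R ^ 2 * (M * s + γ) = g ^ 2 * (M * s + γ) * R ^ 2 := by ring
        _ ≤ γ ^ 2 * (M * s + g) * R ^ 2 := mul_le_mul_of_nonneg_right h5 (by positivity)
        _ = (γ ^ 2 * R ^ 2) * (M * s + g) := by ring
        _ ≤ ((M * s + γ) * E) * (M * s + g) := mul_le_mul_of_nonneg_right h3 (by positivity)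
        _ = (M * s + g) * E * (M * s + γ) := by ring
    have : 0 < M * s + γ := by linarith
    exact le_of_mul_le_mul_right h6 this
  have hq4s : q4 s ^ 4 = s := q4_pow s hs0.le
  have h8 : q4 D ≤ 2 * q4 s := by
    apply g2_q4_le_of_pow (by linarith) (by positivity)
    rw [mul_pow, hq4s]
    linarith
  have hg2 : g ≤ 2 * s := by
    have hκ1 := hG.kle
    calc g = κ * (q4 D * q4 s ^ 3) := rfl
      _ ≤ 1 * (2 * q4 s * q4 s ^ 3) := by gcongr
      _ = 2 * q4 s ^ 4 := by ring
      _ = 2 * s := by rw [hq4s]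
  have h9 : g ^ 2 * R ^ 2 ≤ (M + 2) * s * E := by
    refine h4.trans ?_
    have : M * s + g ≤ (M + 2) * s := by linarith
    exact mul_le_mul_of_nonneg_right this hE0
  have h10 : g ^ 2 = κ ^ 2 * q4 D ^ 2 * q4 s ^ 2 * s := by
    calc g ^ 2 = κ ^ 2 * q4 D ^ 2 * q4 s ^ 2 * q4 s ^ 4 := by rw [hg]; ring
      _ = _ := by rw [hq4s]
  rw [h10] at h9
  have h11 : (κ ^ 2 * q4 D ^ 2 * q4 s ^ 2 * R ^ 2) * s ≤ ((M + 2) * E) * s := by nlinarith
  exact le_of_mul_le_mul_right h11 hs0

theorem grow_half (hG : Env G D κ) (hy : ∀ v, 0 ≤ y v) (hE : ∑ v, y v ^ 2 ≤ E) (hE0 : 0 < E)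
    (S : Finset V) {s : ℝ} (hs : D / 8 ≤ s) (hS : s ≤ (S.card : ℝ)) :
    (Fintype.card V : ℝ) < 2 * ((ball G y S (14 * √E / (κ * (q4 D * q4 s)))).card : ℝ) := by
  have hD := hG.Dpos
  have hκ := hG.kpos
  have hqD : 0 < q4 D := g2_q4_pos (by linarith)
  have hsE : 0 < √E := Real.sqrt_pos.mpr hE0
  have main : ∀ m : ℕ, ∀ (S : Finset V) (s : ℝ), D / 8 ≤ s → s ≤ (S.card : ℝ) →
      (Fintype.card V : ℝ) < 2 ^ m * s →
      (Fintype.card V : ℝ) < 2 * ((ball G y S (14 * √E / (κ * (q4 D * q4 s)))).card : ℝ) := by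
    intro m
    induction m with
    | zero =>
      intro S s hs hS h
      have : (S.card : ℝ) ≤ Fintype.card V := by exact_mod_cast Finset.card_le_univ S
      simp at h
      linarith
    | succ m ih =>
      intro S s hs hS h
      have hs0 : 0 < s := by linarith
      have hqs : 0 < q4 s := g2_q4_pos hs0
      by_cases hn : (Fintype.card V : ℝ) < 2 * s
      · have : (S.card : ℝ) ≤ ((ball G y S (14 * √E / (κ * (q4 D * q4 s)))).card : ℝ) := by
          exact_mod_cast Finset.card_le_card (subset_ball (by positivity))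
        linarith
      · set A : ℝ := √E / (κ * (q4 D * q4 s)) with hA
        have hA0 : 0 < A := by positivity
        have h14 : 14 * √E / (κ * (q4 D * q4 s)) = 14 * A := by rw [hA]; ring
        rw [h14]
        by_cases hB : (Fintype.card V : ℝ) < 2 * ((ball G y S (21 / 10 * A)).card : ℝ)
        · have : ((ball G y S (21 / 10 * A)).card : ℝ) ≤ ((ball G y S (14 * A)).card : ℝ) := by
            exact_mod_cast Finset.card_le_card (ball_mono (le_refl S) (by linarith))
          linarith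
        · push Not at hB
          have hB2 : 2 * s ≤ ((ball G y S (21 / 10 * A)).card : ℝ) := by
            by_contra hcon
            push Not at hcon
            have h1 := grow_env hG hy hE S hs hS (R := 21 / 10 * A) (M := 2) (by positivity)
              (by norm_num) hB hcon.le
            have h2 : κ ^ 2 * q4 D ^ 2 * q4 s ^ 2 * (21 / 10 * A) ^ 2 = (21 / 10) ^ 2 * E := by
              have h3 : A * (κ * (q4 D * q4 s)) = √E := by rw [hA]; field_simp
              have h4 : (A * (κ * (q4 D * q4 s))) ^ 2 = E := by rw [h3, Real.sq_sqrt hE0.le]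
              calc κ ^ 2 * q4 D ^ 2 * q4 s ^ 2 * (21 / 10 * A) ^ 2
                  = (21 / 10) ^ 2 * (A * (κ * (q4 D * q4 s))) ^ 2 := by ring
                _ = _ := by rw [h4]
            rw [h2] at h1
            nlinarith
          have h3 := ih (ball G y S (21 / 10 * A)) (2 * s) (by linarith) hB2
            (by rw [pow_succ] at h; linarith)
          refine h3.trans_le ?_
          have hq2 : (118 / 100 : ℝ) ≤ q4 2 := g2_le_q4_of_pow (by norm_num) (by norm_num) (by norm_num)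
          have h4 : q4 (2 * s) = q4 2 * q4 s := q4_mul 2 s (by norm_num)
          have h5 : 14 * √E / (κ * (q4 D * q4 (2 * s))) ≤ 119 / 10 * A := by
            rw [h4, hA, mul_div_assoc']
            rw [div_le_div_iff₀ (by positivity) (by positivity)]
            have : 0 < √E * κ * q4 D * q4 s := by positivity
            nlinarith
          have h6 : ball G y (ball G y S (21 / 10 * A)) (14 * √E / (κ * (q4 D * q4 (2 * s)))) ⊆
              ball G y S (14 * A) :=
            ball_ball.trans (ball_mono (le_refl S) (by linarith))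
          have h7 := Finset.card_le_card h6
          have h8 : ((ball G y (ball G y S (21 / 10 * A))
              (14 * √E / (κ * (q4 D * q4 (2 * s))))).card : ℝ) ≤ (ball G y S (14 * A)).card := by
            exact_mod_cast h7
          linarith
  have hs0 : 0 < s := by linarith
  obtain ⟨m, hm⟩ := pow_unbounded_of_one_lt ((Fintype.card V : ℝ) / s) (by norm_num : (1 : ℝ) < 2)
  exact main m S s hs hS (by rwa [div_lt_iff₀ hs0] at hm)

/-- Markov: few vertices have large weight. -/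
lemma card_large (hy : ∀ v, 0 ≤ y v) (hE : ∑ v, y v ^ 2 ≤ E) {t : ℝ} (ht : 0 < t) :
    ((univ.filter (fun v => t < y v)).card : ℝ) * t ^ 2 ≤ E := by
  refine le_trans ?_ hE
  calc ((univ.filter (fun v => t < y v)).card : ℝ) * t ^ 2
      = ∑ _v ∈ univ.filter (fun v => t < y v), t ^ 2 := by
        rw [Finset.sum_const, nsmul_eq_mul]
    _ ≤ ∑ v ∈ univ.filter (fun v => t < y v), y v ^ 2 := by
        refine Finset.sum_le_sum fun v hv => ?_
        have := (Finset.mem_filter.mp hv).2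
        exact pow_le_pow_left₀ ht.le this.le 2
    _ ≤ ∑ v, y v ^ 2 :=
        Finset.sum_le_sum_of_subset_of_nonneg (Finset.filter_subset _ _)
          (fun v _ _ => sq_nonneg (y v))

theorem term_half (hG : Env G D κ) (hy : ∀ v, 0 ≤ y v) (hE : ∑ v, y v ^ 2 ≤ E) (hE0 : 0 < E)
    (P : Finset V) (hP : 3 / 8 * D ≤ (P.card : ℝ)) :
    (Fintype.card V : ℝ) < 2 * ((cball G y P (27 * √(E / D) / κ)).card : ℝ) := by
  have hD := hG.Dpos
  have hκ := hG.kpos
  have hκ1 := hG.kle
  have hD0 : 0 < D := by linarith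
  have hqD : 0 < q4 D := g2_q4_pos hD0
  have hED : 0 < √(E / D) := Real.sqrt_pos.mpr (by positivity)
  set t : ℝ := 2 * √(E / D) with ht
  have ht0 : 0 < t := by positivity
  have ht2 : t ^ 2 = 4 * E / D := by
    rw [ht, mul_pow, Real.sq_sqrt (by positivity)]
    ring
  have h1 := card_large hy hE ht0
  have h2 : ((univ.filter (fun v => t < y v)).card : ℝ) ≤ D / 4 := by
    rw [ht2] at h1
    have h3 : ((univ.filter (fun v => t < y v)).card : ℝ) * (4 / D) ≤ 1 := by
      have : ((univ.filter (fun v => t < y v)).card : ℝ) * (4 / D) * E ≤ 1 * E := by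
        calc _ = ((univ.filter (fun v => t < y v)).card : ℝ) * (4 * E / D) := by ring
          _ ≤ E := h1
          _ = 1 * E := by ring
      exact le_of_mul_le_mul_right this hE0
    have h4 : ((univ.filter (fun v => t < y v)).card : ℝ)
        = ((univ.filter (fun v => t < y v)).card : ℝ) * (4 / D) * (D / 4) := by field_simp
    rw [h4]
    nlinarith
  set P' := P.filter (fun w => y w ≤ t) with hP'
  have h3 : D / 8 ≤ (P'.card : ℝ) := by
    have h4 : P.card = P'.card + (P.filter (fun w => ¬ y w ≤ t)).card := by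
      rw [hP', Finset.card_filter_add_card_filter_not]
    have h5 : (P.filter (fun w => ¬ y w ≤ t)).card ≤ (univ.filter (fun v => t < y v)).card := by
      apply Finset.card_le_card
      intro v hv
      rw [Finset.mem_filter] at hv ⊢
      exact ⟨Finset.mem_univ _, not_le.mp hv.2⟩
    have h6 : (P.card : ℝ) = P'.card + ((P.filter (fun w => ¬ y w ≤ t)).card : ℝ) := by
      exact_mod_cast h4
    have h7 : ((P.filter (fun w => ¬ y w ≤ t)).card : ℝ)
        ≤ ((univ.filter (fun v => t < y v)).card : ℝ) := by exact_mod_cast h5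
    linarith
  have h4 := grow_half hG hy hE hE0 P' (le_refl (D / 8)) h3
  refine h4.trans_le ?_
  have hq8 : q4 8 ≤ 17 / 10 := g2_q4_le_of_pow (by norm_num) (by norm_num) (by norm_num)
  have hq8' : 0 < q4 8 := g2_q4_pos (by norm_num)
  have h5 : q4 8 * q4 (D / 8) = q4 D := by
    rw [← q4_mul 8 (D / 8) (by norm_num)]
    congr 1
    ring
  have hqD8 : 0 < q4 (D / 8) := g2_q4_pos (by positivity)
  have h6 : 14 * √E / (κ * (q4 D * q4 (D / 8))) ≤ 24 * √(E / D) / κ := by
    have h7 : q4 D * q4 (D / 8) = √D / q4 8 := by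
      rw [eq_div_iff hq8'.ne']
      calc q4 D * q4 (D / 8) * q4 8 = q4 D * (q4 8 * q4 (D / 8)) := by ring
        _ = q4 D ^ 2 := by rw [h5]; ring
        _ = √D := g2_q4_sq D
    rw [h7, Real.sqrt_div hE0.le]
    have hsD : 0 < √D := Real.sqrt_pos.mpr hD0
    have hsE : 0 < √E := Real.sqrt_pos.mpr hE0
    have e1 : 14 * √E / (κ * (√D / q4 8)) = (14 * q4 8) * (√E / √D / κ) := by
      field_simp
    have e2 : 24 * (√E / √D) / κ = 24 * (√E / √D / κ) := by ring
    rw [e1, e2]
    apply mul_le_mul_of_nonneg_right _ (by positivity)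
    linarith
  have h7 : ball G y P' (14 * √E / (κ * (q4 D * q4 (D / 8)))) ⊆
      cball G y P (27 * √(E / D) / κ) := by
    intro z hz
    rw [mem_ball_iff_single] at hz
    obtain ⟨w, hw, hzw⟩ := hz
    rw [hP', Finset.mem_filter] at hw
    have h8 := ball_subset_cball (G := G) (y := y) hw.1 (r := 14 * √E / (κ * (q4 D * q4 (D / 8))))
      hw.2 hzw
    refine cball_mono (le_refl P) ?_ h8
    have h9 : √(E / D) ≤ √(E / D) / κ := by
      rw [le_div_iff₀ hκ]
      nlinarith
    have h10 : 24 * √(E / D) / κ = 24 * (√(E / D) / κ) := by ring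
    have h11 : 27 * √(E / D) / κ = 27 * (√(E / D) / κ) := by ring
    have h12 : 0 < √(E / D) / κ := by positivity
    rw [h11]
    rw [h10] at h6
    linarith
  have h8 : ((ball G y P' (14 * √E / (κ * (q4 D * q4 (D / 8))))).card : ℝ) ≤
      ((cball G y P (27 * √(E / D) / κ)).card : ℝ) := by
    exact_mod_cast Finset.card_le_card h7
  linarith

end

end Pool.Agent.H25.TK
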