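import Pool.Agent.H25.TK.Routes
import Pool.Agent.H25.TK.Glue

/-!
From routes in the graph without the deleted set to a subdivision.

PROOF of `tk_of_routes`. `hasTK_of_conn` with `R i j` the image in `V` of the route of `(i,j)`
(as a subset of `Zᶜ` it contains no `f l`); the walk is `Walk.cons (f i ~ w) (route mapped by the
inclusion)` followed by the edge `w' ~ f j`. Disjointness of images under an injective map.
-/

namespace Pool.Agent.H25.TK

open Finset
open scoped Classical

noncomputable section

theorem tk_of_routes {V : Type} [Fintype V] (G : SimpleGraph V) (Z : Finset V) {k : ℕ}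
    (f : Fin k → V) (hf : Function.Injective f) (hZ : ∀ i, f i ∈ Z)
    (Nb : Fin k → Finset ↥((Z : Set V)ᶜ)) (hNb : ∀ i, ∀ w ∈ Nb i, G.Adj (f i) w)
    (h : HasRoutes (G.induce ((Z : Set V)ᶜ)) Nb) : HasTK G k := by
  obtain ⟨R, hR, hdis⟩ := h
  have hinj : Function.Injective (Subtype.val : ↥((Z : Set V)ᶜ) → V) := Subtype.val_injective
  apply hasTK_of_conn G k f hf (fun i j => Subtype.val '' ((R i j : Finset _) : Set ↥((Z : Set V)ᶜ)))
  · intro i j hij
    obtain ⟨w, hw, w', hw', q, hq⟩ := hR i j hij
    let q' : G.Walk (w : V) (w' : V) := q.map (SimpleGraph.Embedding.induce ((Z : Set V)ᶜ)).toHom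
    have hs : ∀ v ∈ q'.support, v ∈ Subtype.val '' ((R i j : Finset _) : Set ↥((Z : Set V)ᶜ)) := by
      intro v hv
      have hv' : v ∈ (q.map (SimpleGraph.Embedding.induce ((Z : Set V)ᶜ)).toHom).support := hv
      rw [SimpleGraph.Walk.support_map] at hv'
      obtain ⟨x, hx, rfl⟩ := List.mem_map.mp hv'
      refine ⟨x, ?_, rfl⟩
      rw [← hq]
      simpa using hx
    refine ⟨SimpleGraph.Walk.cons (hNb i w hw)
      (q'.append (SimpleGraph.Walk.cons (hNb j w' hw').symm SimpleGraph.Walk.nil)), ?_⟩
    intro v hv
    rw [SimpleGraph.Walk.support_cons, List.mem_cons, SimpleGraph.Walk.mem_support_append_iff] at hv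
    rcases hv with hv | hv | hv
    · exact Or.inl hv
    · exact Or.inr (Or.inr (hs v hv))
    · rw [SimpleGraph.Walk.support_cons, List.mem_cons, SimpleGraph.Walk.support_nil,
        List.mem_singleton] at hv
      rcases hv with hv | hv
      · right; right
        rw [hv]
        exact hs _ (SimpleGraph.Walk.end_mem_support q')
      · exact Or.inr (Or.inl hv)
  · rintro i j hij l ⟨x, -, hx⟩
    have h1 := x.2
    rw [hx] at h1
    exact h1 (by simpa using hZ l)
  · intro i j i' j' hij hij' hne
    rw [Set.disjoint_image_iff hinj, Finset.disjoint_coe]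
    exact hdis i j i' j' hij hij' hne

end

end Pool.Agent.H25.TK
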