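import Pool.Agent.H25.TK.PackDefs

/-!
The minimiser of the sum of the squares of the loads.

PROOF of `opt`. The set of `μ : A → Finset V → ℝ` with `μ a R >= 0`, `μ a R = 0` for `R ∉ F a` and
`Σ_{R ∈ F a} μ a R = 1` is nonempty (point masses) and compact (closed, contained in the cube
`[0,1]`); `Φ μ = Σ_v (load F μ v)²` is continuous; take a minimiser `μ`. Fix `a`, `R' ∈ F a`. For
`0 <= t <= 1` the modification `μ a ↦ (1-t) μ a + t δ_{R'}` is in the set, and
`load` changes by `t d_v` with `d_v = 1[v ∈ R'] - Σ_{R ∈ F a, v ∈ R} μ a R`. So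
`0 <= 2 t Σ_v load v * d_v + t² Σ_v d_v²` for all `t ∈ [0,1]`, hence `Σ_v load v * d_v >= 0`,
which is the claim (exchange sums: `Σ_v load v Σ_{R ∋ v} μ a R = Σ_R μ a R Σ_{v ∈ R} load v`).
-/

namespace Pool.Agent.H25.TK

open Finset
open scoped Classical

noncomputable section

variable {V A : Type} [Fintype V] [Fintype A]

private def mass (F : A → Finset (Finset V)) (μ : A → Finset V → ℝ) (b : A) (v : V) : ℝ :=
  ∑ R ∈ (F b).filter (fun R => v ∈ R), μ b R

private theorem mass_exchange (F : A → Finset (Finset V)) (μ : A → Finset V → ℝ) (a : A)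
    (L : V → ℝ) :
    ∑ v, L v * mass F μ a v = ∑ R ∈ F a, μ a R * ∑ v ∈ R, L v := by
  unfold mass
  simp_rw [Finset.sum_filter, Finset.mul_sum]
  rw [Finset.sum_comm]
  refine Finset.sum_congr rfl fun R _ => ?_
  have : ∀ v : V, L v * (if v ∈ R then μ a R else 0) = if v ∈ R then μ a R * L v else 0 := by
    intro v
    split_ifs
    · ring
    · ring
  simp_rw [this]
  rw [← Finset.sum_filter]
  congr 1
  ext v
  simp

theorem opt (F : A → Finset (Finset V)) (hF : ∀ a, (F a).Nonempty) :
    ∃ μ : A → Finset V → ℝ, (∀ a R, 0 ≤ μ a R) ∧ (∀ a, ∑ R ∈ F a, μ a R = 1) ∧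
      ∀ a, ∀ R' ∈ F a, ∑ R ∈ F a, μ a R * ∑ v ∈ R, load F μ v ≤ ∑ v ∈ R', load F μ v := by
  set K : Set (A → Finset V → ℝ) := {μ | (∀ a R, 0 ≤ μ a R) ∧
    (∀ a R, R ∉ F a → μ a R = 0) ∧ ∀ a, ∑ R ∈ F a, μ a R = 1} with hK
  have hne : K.Nonempty := by
    choose R0 hR0 using hF
    refine ⟨fun a R => if R = R0 a then 1 else 0, ?_, ?_, ?_⟩
    · intro a R
      dsimp only
      split_ifs <;> norm_num
    · intro a R hR
      have : R ≠ R0 a := fun h => hR (h ▸ hR0 a)
      simp [this]
    · intro a
      rw [Finset.sum_ite_eq' (F a) (R0 a) (fun _ => (1 : ℝ))]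
      simp [hR0 a]
  have hcl : IsClosed K := by
    have h1 : IsClosed {μ : A → Finset V → ℝ | ∀ a R, 0 ≤ μ a R} := by
      simp only [Set.setOf_forall]
      refine isClosed_iInter fun a => isClosed_iInter fun R => ?_
      exact isClosed_le continuous_const (by fun_prop)
    have h2 : IsClosed {μ : A → Finset V → ℝ | ∀ a R, R ∉ F a → μ a R = 0} := by
      simp only [Set.setOf_forall]
      refine isClosed_iInter fun a => isClosed_iInter fun R => isClosed_iInter fun _ => ?_
      exact isClosed_eq (by fun_prop) continuous_const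
    have h3 : IsClosed {μ : A → Finset V → ℝ | ∀ a, ∑ R ∈ F a, μ a R = 1} := by
      simp only [Set.setOf_forall]
      refine isClosed_iInter fun a => ?_
      exact isClosed_eq (by fun_prop) continuous_const
    exact h1.inter (h2.inter h3)
  have hcpt : IsCompact K := by
    have hbox : IsCompact (Set.univ.pi fun _ : A => Set.univ.pi fun _ : Finset V =>
        Set.Icc (0 : ℝ) 1) :=
      isCompact_univ_pi fun _ => isCompact_univ_pi fun _ => isCompact_Icc
    refine hbox.of_isClosed_subset hcl ?_
    rintro μ ⟨h1, h2, h3⟩ a _ R _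
    refine ⟨h1 a R, ?_⟩
    by_cases hR : R ∈ F a
    · rw [← h3 a]
      exact Finset.single_le_sum (f := fun R => μ a R) (fun R _ => h1 a R) hR
    · rw [h2 a R hR]
      exact zero_le_one
  have hcont : Continuous (fun μ : A → Finset V → ℝ => ∑ v, load F μ v ^ 2) := by
    unfold load
    fun_prop
  obtain ⟨μ, hμK, hmin⟩ := hcpt.exists_isMinOn hne hcont.continuousOn
  refine ⟨μ, hμK.1, hμK.2.2, fun a R' hR' => ?_⟩
  obtain ⟨h1, h2, h3⟩ := hμK
  set d : V → ℝ := fun v => (if v ∈ R' then 1 else 0) - mass F μ a v with hd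
  have hkey : ∀ t : ℝ, 0 < t → t ≤ 1 →
      0 ≤ 2 * ∑ v, load F μ v * d v + t * ∑ v, d v ^ 2 := by
    intro t ht0 ht1
    set ν : A → Finset V → ℝ := Function.update μ a
      (fun R => (1 - t) * μ a R + t * (if R = R' then 1 else 0)) with hν
    have hνK : ν ∈ K := by
      refine ⟨?_, ?_, ?_⟩
      · intro b R
        by_cases hb : b = a
        · subst hb
          rw [hν, Function.update_self]
          have := h1 b R
          have h0 : (0 : ℝ) ≤ (if R = R' then 1 else 0) := by split_ifs <;> norm_num
          have h1' : 0 ≤ 1 - t := by linarith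
          positivity
        · rw [hν, Function.update_of_ne hb]
          exact h1 b R
      · intro b R hR
        by_cases hb : b = a
        · subst hb
          rw [hν, Function.update_self]
          have hne' : R ≠ R' := fun h => hR (h ▸ hR')
          simp [hne', h2 b R hR]
        · rw [hν, Function.update_of_ne hb]
          exact h2 b R hR
      · intro b
        by_cases hb : b = a
        · subst hb
          rw [hν, Function.update_self]
          rw [Finset.sum_add_distrib, ← Finset.mul_sum, ← Finset.mul_sum, h3 b,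
            Finset.sum_ite_eq' (F b) R' (fun _ => (1 : ℝ))]
          simp [hR']
        · rw [hν, Function.update_of_ne hb]
          exact h3 b
    have hload : ∀ v, load F ν v = load F μ v + t * d v := by
      intro v
      have e1 : load F ν v = ∑ b, mass F ν b v := rfl
      have e2 : load F μ v = ∑ b, mass F μ b v := rfl
      rw [e1, e2, ← Finset.add_sum_erase _ _ (Finset.mem_univ a),
        ← Finset.add_sum_erase (Finset.univ) (fun b => mass F μ b v) (Finset.mem_univ a)]
      have e3 : ∑ x ∈ Finset.univ.erase a, mass F ν x v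
          = ∑ x ∈ Finset.univ.erase a, mass F μ x v := by
        refine Finset.sum_congr rfl fun b hb => ?_
        have hb' : b ≠ a := Finset.ne_of_mem_erase hb
        unfold mass
        rw [hν, Function.update_of_ne hb']
      have e4 : mass F ν a v = (1 - t) * mass F μ a v + t * (if v ∈ R' then 1 else 0) := by
        unfold mass
        rw [hν, Function.update_self, Finset.sum_add_distrib, ← Finset.mul_sum, ← Finset.mul_sum,
          Finset.sum_ite_eq' _ R' (fun _ => (1 : ℝ))]
        simp [hR']
      rw [e3, e4, hd]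
      ring
    have hle : ∑ v, load F μ v ^ 2 ≤ ∑ v, load F ν v ^ 2 := hmin hνK
    have hexp : ∑ v, load F ν v ^ 2 = ∑ v, load F μ v ^ 2
        + t * (2 * ∑ v, load F μ v * d v + t * ∑ v, d v ^ 2) := by
      simp_rw [hload]
      rw [Finset.mul_sum, Finset.mul_sum, ← Finset.sum_add_distrib, Finset.mul_sum,
        ← Finset.sum_add_distrib]
      refine Finset.sum_congr rfl fun v _ => ?_
      ring
    rw [hexp] at hle
    have : 0 ≤ t * (2 * ∑ v, load F μ v * d v + t * ∑ v, d v ^ 2) := by linarith
    exact nonneg_of_mul_nonneg_right this ht0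
  have hfin : 0 ≤ ∑ v, load F μ v * d v := by
    by_contra hneg
    push Not at hneg
    set s := -∑ v, load F μ v * d v with hs
    have hs0 : 0 < s := by rw [hs]; linarith
    set Q := ∑ v, d v ^ 2 with hQ
    have hQ0 : 0 ≤ Q := Finset.sum_nonneg fun v _ => sq_nonneg _
    have ht0 : 0 < min 1 (s / (Q + 1)) := lt_min one_pos (by positivity)
    have h := hkey (min 1 (s / (Q + 1))) ht0 (min_le_left _ _)
    have hb : min 1 (s / (Q + 1)) * Q ≤ s := by
      calc min 1 (s / (Q + 1)) * Q ≤ s / (Q + 1) * Q :=
            mul_le_mul_of_nonneg_right (min_le_right _ _) hQ0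
        _ ≤ s / (Q + 1) * (Q + 1) := by
            apply mul_le_mul_of_nonneg_left (by linarith) (by positivity)
        _ = s := by field_simp
    linarith
  have hsplit : ∑ v, load F μ v * d v
      = ∑ v ∈ R', load F μ v - ∑ R ∈ F a, μ a R * ∑ v ∈ R, load F μ v := by
    rw [← mass_exchange F μ a (load F μ), hd]
    simp_rw [mul_sub]
    rw [Finset.sum_sub_distrib]
    congr 1
    simp
  linarith

end

end Pool.Agent.H25.TK
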