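import Mathlib

/-!
Loads of random route choices.
-/

namespace Pool.Agent.H25.TK

open Finset
open scoped Classical

noncomputable section

variable {V A : Type} [Fintype V] [Fintype A]

/-- Expected number of chosen sets through `v`. -/
def load (F : A → Finset (Finset V)) (μ : A → Finset V → ℝ) (v : V) : ℝ :=
  ∑ b, ∑ R ∈ (F b).filter (fun R => v ∈ R), μ b R

end

end Pool.Agent.H25.TK
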