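import Pool.Agent.H25.TK.TermB

/-!
Radii at which the terminal sets reach more than half of the graph.

PROOF of `reach`. Put `σ = κ θ/54`, `α = 56/(κ θ)` (`>= 56` as `κ, θ <= 1`). Choose `Ω` so large
that for `ω >= Ω`, `k >= Ω`: `2^24/κ <= ω`, `2/ω² <= θ/4`, `5069/(κ ω⁴) <= θ/4`,
`256/(θ²σ²) <= ω^8`, `α⁴ <= σ²ω^8/1024`, `32/θ² <= σ k`, `α⁴ <= σ k/128`.
Given `y`, `E`: call `i` good if it is in neither of the bad sets of `termA`, `termB`. For a good
`i`: `P = cball (Nb i) ((θ + 14/(κα) + 2/ω²) √(E/D))` has at least `s = n/2^34` elements,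
`s >= D/8` since `ω^16 >= 2^31`; `grow_half` for `P`, `s`: the radius is
`14 √E/(κ q4 D q4 (n/2^34)) <= 5069/(κω⁴) √(E/D)` (`n = ω^16 D`; `q4 D * q4 (ω^16 D/2^34) =
ω⁴ √D / q4 (2^34)`, `14 q4 (2^34) <= 5069`: `(5069/14)^4 >= 2^34`), and `cball_ball`. So
`Rad i = (θ + θ/4 + θ/4 + θ/4) √(E/D) = 7/4 θ √(E/D)` is allowed (monotonicity). For a bad `i`
take `Rad i = 27 √(E/D)/κ` (`term_half`). (For the good ones `7/4 θ <= 27/κ` as well since
`θ, κ <= 1`.) Sum: `7/4 θ k + 2 σ k * 27/κ = 11/4 θ k <= 3 θ k`, times `√(E/D)`.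

PROOF of `hub_reach`. `t = 3/ω⁴ √(E/D)`: at most `E/t² = Dω^8/9 <= Dω^8/8` vertices have
`y > t` (`card_large`), so `P' = {w ∈ Nb i : y w <= t}` has at least `D ω^8/8` elements;
`grow_half` for `P'`, `s = Dω^8/8`; the radius is `14 √E/(κ q4 D q4 (Dω^8/8)) <=
24/(κω²) √(E/D)`; `ball_subset_cball`; total at most `27/(κ ω²) √(E/D) <= θ √(E/D)` once
`ω² >= 27/(κθ)`; and `27/(κω²) <= 27/κ`.
-/

namespace Pool.Agent.H25.TK

open Finset
open scoped Classical

noncomputable section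

/-- What the routing needs, for all weights `y`. -/
def Reaches {V : Type} [Fintype V] (G : SimpleGraph V) {k : ℕ} (Nb : Fin k → Finset V)
    (D κ θ : ℝ) : Prop :=
  ∀ (y : V → ℝ) (E : ℝ), (∀ v, 0 ≤ y v) → ∑ v, y v ^ 2 ≤ E → 0 < E →
    ∃ Rad : Fin k → ℝ, (∀ i, (Fintype.card V : ℝ) < 2 * ((cball G y (Nb i) (Rad i)).card : ℝ)) ∧
      (∀ i, Rad i ≤ 27 / κ * √(E / D)) ∧ ∑ i, Rad i ≤ 3 * θ * k * √(E / D)

private lemma Reach_le_q4 {x s : ℝ} (h : x ^ 4 ≤ s) : x ≤ q4 s := by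
  unfold q4
  apply Real.le_sqrt_of_sq_le
  apply Real.le_sqrt_of_sq_le
  calc (x ^ 2) ^ 2 = x ^ 4 := by ring
    _ ≤ s := h

private lemma Reach_sqrt_div {D E : ℝ} (hD : 0 < D) : √(E / D) = √E / q4 D ^ 2 := by
  have h : q4 D ^ 2 = √D := by
    unfold q4
    exact Real.sq_sqrt (Real.sqrt_nonneg D)
  rw [h, Real.sqrt_div' _ hD.le]

/-- Radius bound: if `c * (x * q4 D) ≤ q4 s` then the radius of `grow_half` is small. -/
private lemma Reach_rad {D E κ s x c : ℝ} (hD : 1 ≤ D) (hκ : 0 < κ) (hx : 0 < x) (hc : 0 < c)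
    (h : (c * (x * q4 D)) ^ 4 ≤ s) :
    14 * √E / (κ * (q4 D * q4 s)) ≤ 14 / c / (κ * x) * √(E / D) := by
  have hDp : 0 < D := by linarith
  have ha : 0 < q4 D := Real.sqrt_pos.mpr (Real.sqrt_pos.mpr hDp)
  have h1 := Reach_le_q4 h
  rw [Reach_sqrt_div hDp]
  have h2 : 14 / c / (κ * x) * (√E / q4 D ^ 2) = 14 * √E / (κ * (q4 D * (c * (x * q4 D)))) := by
    field_simp
  rw [h2]
  apply div_le_div_of_nonneg_left (by positivity) (by positivity)
  apply mul_le_mul_of_nonneg_left _ hκ.le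
  exact mul_le_mul_of_nonneg_left h1 ha.le

private lemma Reach_ball_sub {V : Type} [Fintype V] {G : SimpleGraph V} {y : V → ℝ}
    {P : Finset V} {t r : ℝ} :
    ball G y (P.filter (fun w => y w ≤ t)) r ⊆ cball G y P (t + r) := by
  intro z hz
  rw [mem_ball_iff_single] at hz
  obtain ⟨w, hw, hz⟩ := hz
  rw [mem_filter] at hw
  exact ball_subset_cball hw.1 hw.2 hz

theorem reach (κ θ : ℝ) (hκ : 0 < κ) (hκ1 : κ ≤ 1) (hθ : 0 < θ) (hθ1 : θ ≤ 1) :
    ∃ Ω : ℝ, 1 ≤ Ω ∧ ∀ (V : Type) [Fintype V] (G : SimpleGraph V) (D ω : ℝ) (k : ℕ)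
      (Nb : Fin k → Finset V), Env G D κ → Ω ≤ ω → Ω ≤ k → ω ^ 16 * D = Fintype.card V →
      (∀ v, ((nb G v).card : ℝ) ≤ D * ω ^ 8) → (∀ i, 3 / 8 * D ≤ ((Nb i).card : ℝ)) →
      ∑ i, ∑ j ∈ univ.erase i, ((Nb i ∩ Nb j).card : ℝ) ≤ 8 * k ^ 2 * D / ω ^ 8 →
      Reaches G Nb D κ θ := by
  obtain ⟨σ, hσdef⟩ : ∃ σ : ℝ, σ = κ * θ / 54 := ⟨_, rfl⟩
  obtain ⟨α, hαdef⟩ : ∃ α : ℝ, α = 56 / (κ * θ) := ⟨_, rfl⟩
  have hσ : 0 < σ := by rw [hσdef]; positivity
  have hαp : 0 < α := by rw [hαdef]; positivity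
  have hκθ : κ * θ ≤ 1 := mul_le_one₀ hκ1 hθ.le hθ1
  have hκθp : 0 < κ * θ := by positivity
  have hα1 : 1 ≤ α := by
    rw [hαdef, le_div_iff₀ hκθp]
    linarith
  have c1 : 0 ≤ 2 ^ 24 / κ := by positivity
  have c2 : 0 ≤ 8 / θ := by positivity
  have c3 : 0 ≤ 20276 / (κ * θ) := by positivity
  have c4 : 0 ≤ 256 / (θ ^ 2 * σ ^ 2) := by positivity
  have c5 : 0 ≤ 1024 * α ^ 4 / σ ^ 2 := by positivity
  have c6 : 0 ≤ 32 / (θ ^ 2 * σ) := by positivity
  have c7 : 0 ≤ 128 * α ^ 4 / σ := by positivity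
  refine ⟨1 + 2 ^ 24 / κ + 8 / θ + 20276 / (κ * θ) + 256 / (θ ^ 2 * σ ^ 2) +
    1024 * α ^ 4 / σ ^ 2 + 32 / (θ ^ 2 * σ) + 128 * α ^ 4 / σ, by linarith, ?_⟩
  intro V _ G D ω k Nb hG hω hk hn hdeg hNb hC y E hy hE hE0
  have hD : 1 ≤ D := hG.Dpos
  have hDp : 0 < D := by linarith
  have d1 : 2 ^ 24 / κ ≤ ω := by linarith
  have d2 : 8 / θ ≤ ω := by linarith
  have d3 : 20276 / (κ * θ) ≤ ω := by linarith
  have d4 : 256 / (θ ^ 2 * σ ^ 2) ≤ ω := by linarith
  have d5 : 1024 * α ^ 4 / σ ^ 2 ≤ ω := by linarith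
  have d6 : 32 / (θ ^ 2 * σ) ≤ k := by linarith
  have d7 : 128 * α ^ 4 / σ ≤ k := by linarith
  have hω1 : 1 ≤ ω := by linarith
  have hωp : 0 < ω := by linarith
  have e2 : ω ≤ ω ^ 2 := le_self_pow₀ hω1 (by norm_num)
  have e4 : ω ≤ ω ^ 4 := le_self_pow₀ hω1 (by norm_num)
  have e8 : ω ≤ ω ^ 8 := le_self_pow₀ hω1 (by norm_num)
  have e16 : ω ^ 2 ≤ ω ^ 16 := pow_le_pow_right₀ hω1 (by norm_num)
  have hS := Real.sqrt_nonneg (E / D)
  obtain ⟨q, hq⟩ : ∃ q : ℝ, q = √(E / D) := ⟨_, rfl⟩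
  have hq0 : 0 ≤ q := by rw [hq]; exact hS
  -- facts on the constants
  have f2 : 2 / ω ^ 2 ≤ θ / 4 := by
    rw [div_le_iff₀ (by positivity)]
    rw [div_le_iff₀ hθ] at d2
    nlinarith
  have f3 : 5069 / (κ * ω ^ 4) ≤ θ / 4 := by
    rw [div_le_iff₀ (by positivity)]
    rw [div_le_iff₀ hκθp] at d3
    nlinarith
  have f14 : 14 / (κ * α) = θ / 4 := by
    rw [hαdef]
    field_simp
    norm_num
  have hA := termA (θ := θ) (σ := σ) (k := k) hy hE hE0 hD hω1 Nb hNb hC hθ hσ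
    (by
      rw [div_le_iff₀ (by positivity)] at d6 ⊢
      nlinarith) (d4.trans e8)
  have hB := termB (G := G) (θ := θ) (σ := σ) (α := α) (k := k) hG hy hE hE0 d1 hn hdeg Nb hC
    hθ hσ hα1
    (by
      rw [div_le_iff₀ hσ] at d7
      rw [le_div_iff₀ (by norm_num)]
      linarith)
    (by
      rw [div_le_iff₀ (by positivity)] at d5
      rw [le_div_iff₀ (by norm_num)]
      have : σ ^ 2 * ω ≤ σ ^ 2 * ω ^ 8 := mul_le_mul_of_nonneg_left e8 (by positivity)
      linarith)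
  set B1 := univ.filter (fun i : Fin k => (((Nb i).filter (fun w => y w ≤ θ * √(E / D))).card : ℝ) <
      D / 8) with hB1
  set B2 := univ.filter (fun i : Fin k =>
        D / 8 ≤ (((Nb i).filter (fun w => y w ≤ θ * √(E / D))).card : ℝ) ∧
        ((cball G y (Nb i) ((θ + 14 / (κ * α) + 2 / ω ^ 2) * √(E / D))).card : ℝ) <
          Fintype.card V / 2 ^ 34) with hB2
  refine ⟨fun i => if i ∈ B1 ∪ B2 then 27 / κ * √(E / D) else 7 / 4 * θ * √(E / D), ?_, ?_, ?_⟩
  · intro i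
    by_cases hi : i ∈ B1 ∪ B2
    · simp only [hi, if_true]
      have := term_half hG hy hE hE0 (Nb i) (hNb i)
      rwa [mul_div_right_comm] at this
    · simp only [hi, if_false]
      rw [mem_union, not_or] at hi
      have hi1 : D / 8 ≤ (((Nb i).filter (fun w => y w ≤ θ * √(E / D))).card : ℝ) := by
        have := hi.1
        rw [hB1, mem_filter] at this
        push Not at this
        exact this (mem_univ _)
      have hi2 : (Fintype.card V : ℝ) / 2 ^ 34 ≤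
          ((cball G y (Nb i) ((θ + 14 / (κ * α) + 2 / ω ^ 2) * √(E / D))).card : ℝ) := by
        have := hi.2
        rw [hB2, mem_filter] at this
        push Not at this
        exact this (mem_univ _) hi1
      have hs : D / 8 ≤ (Fintype.card V : ℝ) / 2 ^ 34 := by
        rw [← hn]
        have h24 : (2 : ℝ) ^ 24 ≤ ω := by
          refine le_trans ?_ d1
          rw [le_div_iff₀ hκ]
          nlinarith
        have h48 : (2 : ℝ) ^ 48 ≤ ω ^ 16 := by
          calc (2 : ℝ) ^ 48 = (2 ^ 24) ^ 2 := by norm_num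
            _ ≤ ω ^ 2 := pow_le_pow_left₀ (by norm_num) h24 2
            _ ≤ ω ^ 16 := e16
        rw [div_le_div_iff₀ (by norm_num) (by norm_num)]
        have : (2 : ℝ) ^ 48 * D ≤ ω ^ 16 * D := mul_le_mul_of_nonneg_right h48 hDp.le
        nlinarith
      have hgr := grow_half hG hy hE hE0 _ hs hi2
      refine lt_of_lt_of_le hgr ?_
      have hsub : ball G y (cball G y (Nb i) ((θ + 14 / (κ * α) + 2 / ω ^ 2) * √(E / D)))
          (14 * √E / (κ * (q4 D * q4 ((Fintype.card V : ℝ) / 2 ^ 34)))) ⊆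
          cball G y (Nb i) (7 / 4 * θ * √(E / D)) := by
        refine cball_ball.trans (cball_mono (Finset.Subset.refl _) ?_)
        have hr := Reach_rad (E := E) (s := (Fintype.card V : ℝ) / 2 ^ 34) (x := ω ^ 4)
          (c := 14 / 5069) hD hκ (by positivity) (by norm_num) (by
            rw [← hn, mul_pow, mul_pow, q4_pow D hDp.le]
            have : (0 : ℝ) ≤ ω ^ 16 * D := by positivity
            have h16 : (ω ^ 4) ^ 4 = ω ^ 16 := by ring
            rw [h16, le_div_iff₀ (by norm_num)]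
            nlinarith)
        have h5 : (14 : ℝ) / (14 / 5069) / (κ * ω ^ 4) = 5069 / (κ * ω ^ 4) := by norm_num
        rw [h5] at hr
        rw [f14]
        rw [← hq] at hr ⊢
        have g2 : 2 / ω ^ 2 * q ≤ θ / 4 * q := mul_le_mul_of_nonneg_right f2 hq0
        have g3 : 5069 / (κ * ω ^ 4) * q ≤ θ / 4 * q := mul_le_mul_of_nonneg_right f3 hq0
        nlinarith
      have hcard : ((ball G y (cball G y (Nb i) ((θ + 14 / (κ * α) + 2 / ω ^ 2) * √(E / D)))
          (14 * √E / (κ * (q4 D * q4 ((Fintype.card V : ℝ) / 2 ^ 34))))).card : ℝ) ≤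
          ((cball G y (Nb i) (7 / 4 * θ * √(E / D))).card : ℝ) := by
        exact_mod_cast Finset.card_le_card hsub
      linarith
  · intro i
    have h27 : 7 / 4 * θ ≤ 27 / κ := by
      rw [le_div_iff₀ hκ]
      nlinarith
    by_cases hi : i ∈ B1 ∪ B2
    · simp only [hi, if_true]
      exact le_rfl
    · simp only [hi, if_false]
      exact mul_le_mul_of_nonneg_right h27 hS
  · have hle : ∀ i ∈ (univ : Finset (Fin k)),
        (if i ∈ B1 ∪ B2 then 27 / κ * √(E / D) else 7 / 4 * θ * √(E / D)) ≤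
        7 / 4 * θ * √(E / D) + (if i ∈ B1 then 27 / κ * √(E / D) else 0) +
          (if i ∈ B2 then 27 / κ * √(E / D) else 0) := by
      intro i _
      have h1 : 0 ≤ 27 / κ * √(E / D) := by positivity
      have h2 : 0 ≤ 7 / 4 * θ * √(E / D) := by positivity
      by_cases ha : i ∈ B1 <;> by_cases hb : i ∈ B2 <;> simp [ha, hb] <;> linarith
    refine (Finset.sum_le_sum hle).trans ?_
    rw [Finset.sum_add_distrib, Finset.sum_add_distrib, Finset.sum_const, Finset.card_univ,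
      Fintype.card_fin, nsmul_eq_mul]
    rw [Finset.sum_ite_mem, Finset.sum_ite_mem, Finset.univ_inter, Finset.univ_inter,
      Finset.sum_const, Finset.sum_const, nsmul_eq_mul, nsmul_eq_mul]
    rw [← hq]
    have h27 : 27 / κ * σ = θ / 2 := by
      rw [hσdef]
      field_simp
      norm_num
    have h27p : 0 ≤ 27 / κ * q := by positivity
    have gA : (B1.card : ℝ) * (27 / κ * q) ≤ σ * k * (27 / κ * q) :=
      mul_le_mul_of_nonneg_right hA h27p
    have gB : (B2.card : ℝ) * (27 / κ * q) ≤ σ * k * (27 / κ * q) :=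
      mul_le_mul_of_nonneg_right hB h27p
    have g3 : σ * k * (27 / κ * q) = θ / 2 * (k * q) := by
      rw [← h27]
      ring
    rw [g3] at gA gB
    have hkq : 0 ≤ θ * (k * q) := by positivity
    have g4 : (k : ℝ) * (7 / 4 * θ * q) = 7 / 4 * (θ * (k * q)) := by ring
    have g5 : 3 * θ * k * q = 3 * (θ * (k * q)) := by ring
    rw [g4, g5]
    linarith

theorem hub_reach (κ θ : ℝ) (hκ : 0 < κ) (hκ1 : κ ≤ 1) (hθ : 0 < θ) (hθ1 : θ ≤ 1) :
    ∃ Ω : ℝ, 1 ≤ Ω ∧ ∀ (V : Type) [Fintype V] (G : SimpleGraph V) (D ω : ℝ) (k : ℕ)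
      (Nb : Fin k → Finset V), Env G D κ → Ω ≤ ω → ω ^ 16 * D = Fintype.card V →
      (∀ i, D * ω ^ 8 / 4 ≤ ((Nb i).card : ℝ)) → Reaches G Nb D κ θ := by
  have hκθ : κ * θ ≤ 1 := mul_le_one₀ hκ1 hθ.le hθ1
  have hκθp : 0 < κ * θ := by positivity
  refine ⟨27 / (κ * θ), ?_, ?_⟩
  · rw [le_div_iff₀ hκθp]
    linarith
  intro V _ G D ω k Nb hG hω hn hNb y E hy hE hE0
  have hD : 1 ≤ D := hG.Dpos
  have hDp : 0 < D := by linarith
  have hω1 : 1 ≤ ω := by
    refine le_trans ?_ hω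
    rw [le_div_iff₀ hκθp]
    linarith
  have hωp : 0 < ω := by linarith
  have e2 : ω ≤ ω ^ 2 := le_self_pow₀ hω1 (by norm_num)
  have hS := Real.sqrt_nonneg (E / D)
  have hSpos : 0 < √(E / D) := Real.sqrt_pos.mpr (by positivity)
  have hrad : ∀ i, (Fintype.card V : ℝ) <
      2 * ((cball G y (Nb i) (27 / (κ * ω ^ 2) * √(E / D))).card : ℝ) := by
    intro i
    obtain ⟨t, ht⟩ : ∃ t : ℝ, t = 3 / ω ^ 4 * √(E / D) := ⟨_, rfl⟩
    have htp : 0 < t := by rw [ht]; positivity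
    have hlarge := card_large (t := t) hy hE htp
    have ht2 : t ^ 2 = 9 / ω ^ 8 * (E / D) := by
      rw [ht, mul_pow, Real.sq_sqrt (by positivity)]
      ring
    have hlarge2 : ((univ.filter (fun v => t < y v)).card : ℝ) ≤ D * ω ^ 8 / 9 := by
      rw [ht2] at hlarge
      have h1 : ((univ.filter (fun v => t < y v)).card : ℝ) * (9 / ω ^ 8 * (E / D)) =
        (((univ.filter (fun v => t < y v)).card : ℝ) * 9 / (ω ^ 8 * D)) * E := by
        field_simp
      rw [h1] at hlarge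
      have h2 : ((univ.filter (fun v => t < y v)).card : ℝ) * 9 / (ω ^ 8 * D) ≤ 1 := by
        by_contra hcon
        push Not at hcon
        nlinarith
      rw [div_le_one (by positivity)] at h2
      linarith
    have hP : D * ω ^ 8 / 8 ≤ (((Nb i).filter (fun w => y w ≤ t)).card : ℝ) := by
      have h1 : (Nb i).card ≤ ((Nb i).filter (fun w => y w ≤ t)).card +
          (univ.filter (fun v => t < y v)).card := by
        rw [← Finset.card_filter_add_card_filter_not (s := Nb i) (fun w => y w ≤ t)]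
        apply Nat.add_le_add_left
        apply Finset.card_le_card
        intro w hw
        rw [mem_filter] at hw ⊢
        exact ⟨mem_univ _, not_le.mp hw.2⟩
      have h2 : ((Nb i).card : ℝ) ≤ (((Nb i).filter (fun w => y w ≤ t)).card : ℝ) +
          ((univ.filter (fun v => t < y v)).card : ℝ) := by exact_mod_cast h1
      have h3 := hNb i
      have h4 : 0 < D * ω ^ 8 := by positivity
      linarith
    have hs : D / 8 ≤ D * ω ^ 8 / 8 := by
      have : 1 ≤ ω ^ 8 := one_le_pow₀ hω1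
      nlinarith
    have hgr := grow_half hG hy hE hE0 _ hs hP
    refine lt_of_lt_of_le hgr ?_
    have hsub : ball G y ((Nb i).filter (fun w => y w ≤ t))
          (14 * √E / (κ * (q4 D * q4 (D * ω ^ 8 / 8)))) ⊆
          cball G y (Nb i) (27 / (κ * ω ^ 2) * √(E / D)) := by
      refine Reach_ball_sub.trans (cball_mono (Finset.Subset.refl _) ?_)
      have hr := Reach_rad (E := E) (s := D * ω ^ 8 / 8) (x := ω ^ 2)
          (c := 7 / 12) hD hκ (by positivity) (by norm_num) (by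
            rw [mul_pow, mul_pow, q4_pow D hDp.le]
            have : (0 : ℝ) ≤ D * ω ^ 8 := by positivity
            have h16 : (ω ^ 2) ^ 4 = ω ^ 8 := by ring
            rw [h16, le_div_iff₀ (by norm_num)]
            nlinarith)
      have h5 : (14 : ℝ) / (7 / 12) / (κ * ω ^ 2) = 24 / (κ * ω ^ 2) := by norm_num
      rw [h5] at hr
      have h6 : 3 / ω ^ 4 ≤ 3 / (κ * ω ^ 2) := by
        apply div_le_div_of_nonneg_left (by norm_num) (by positivity)
        have h7 : 1 ≤ ω ^ 2 := one_le_pow₀ hω1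
        have h8 : κ * ω ^ 2 ≤ 1 * ω ^ 2 := mul_le_mul_of_nonneg_right hκ1 (by positivity)
        nlinarith
      have h9 : t ≤ 3 / (κ * ω ^ 2) * √(E / D) := by
        rw [ht]
        exact mul_le_mul_of_nonneg_right h6 hS
      have h10 : 3 / (κ * ω ^ 2) * √(E / D) + 24 / (κ * ω ^ 2) * √(E / D) =
          27 / (κ * ω ^ 2) * √(E / D) := by ring
      linarith
    have hcard : ((ball G y ((Nb i).filter (fun w => y w ≤ t))
          (14 * √E / (κ * (q4 D * q4 (D * ω ^ 8 / 8))))).card : ℝ) ≤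
          ((cball G y (Nb i) (27 / (κ * ω ^ 2) * √(E / D))).card : ℝ) := by
      exact_mod_cast Finset.card_le_card hsub
    linarith
  refine ⟨fun _ => 27 / (κ * ω ^ 2) * √(E / D), hrad, ?_, ?_⟩
  · intro i
    apply mul_le_mul_of_nonneg_right _ hS
    apply div_le_div_of_nonneg_left (by norm_num) hκ
    have h7 : 1 ≤ ω ^ 2 := one_le_pow₀ hω1
    nlinarith
  · rw [Finset.sum_const, Finset.card_univ, Fintype.card_fin, nsmul_eq_mul]
    have h1 : 27 / (κ * ω ^ 2) ≤ θ := by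
      rw [div_le_iff₀ (by positivity)]
      rw [div_le_iff₀ hκθp] at hω
      nlinarith
    have h2 : 27 / (κ * ω ^ 2) * √(E / D) ≤ 3 * θ * √(E / D) :=
      mul_le_mul_of_nonneg_right (by linarith) hS
    have h3 : (k : ℝ) * (27 / (κ * ω ^ 2) * √(E / D)) ≤ k * (3 * θ * √(E / D)) :=
      mul_le_mul_of_nonneg_left h2 (Nat.cast_nonneg _)
    calc (k : ℝ) * (27 / (κ * ω ^ 2) * √(E / D)) ≤ k * (3 * θ * √(E / D)) := h3
      _ = 3 * θ * k * √(E / D) := by ring

end

end Pool.Agent.H25.TK
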