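import Pool.Agent.H25.TK.Pack
import Pool.Agent.H25.TK.Reach

/-!
Disjoint routes between all pairs of terminal sets; see the header of `Pack.lean` for the proof.

PROOF of `routes_exist`. `A = {p : Fin k × Fin k // p.1 < p.2}`, `F (i,j)` = the finsets that are
supports of walks from `Nb i` to `Nb j` (nonempty: `Reaches` for `y = 0`, `E = 1`). For given
`y`, `E` take `Rad`; the two sets `cball (Nb i) (Rad i)`,
`cball (Nb j) (Rad j)` meet as each has more than half of the vertices; `route_of_meet` gives a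
walk of cost at most `Rad i + Rad j <= 54/κ √(E/D)`. All `Rad i >= 0` (the closed ball is not
empty and costs are nonnegative), so `Σ_{i<j} (Rad i + Rad j) <= k Σ Rad i <= 3 θ k² √(E/D)`.
`pack` with `τ1 = 3 θ k²/√D`, `τ2 = 54/(κ √D)`, `τ1 τ2 = 162 θ k²/(κ D) <= 1/16`.

PROOF of `tk_of_routes`. `hasTK_of_conn` with `R i j` the image of the route in `V`; the walk is
`cons (f i ~ w) (route) (w' ~ f j)`, the route mapped by the inclusion.
-/

namespace Pool.Agent.H25.TK

open Finset
open scoped Classical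

noncomputable section

/-- Pairwise disjoint routes between the sets `Nb i`. -/
def HasRoutes {V : Type} (G : SimpleGraph V) {k : ℕ} (Nb : Fin k → Finset V) : Prop :=
  ∃ R : Fin k → Fin k → Finset V,
    (∀ i j, i < j → ∃ w ∈ Nb i, ∃ w' ∈ Nb j, ∃ p : G.Walk w w', p.support.toFinset = R i j) ∧
    (∀ i j i' j', i < j → i' < j' → (i, j) ≠ (i', j') → Disjoint (R i j) (R i' j'))

/-- two large closed balls give a cheap route -/
private lemma Routes_meet {V : Type} [Fintype V] (G : SimpleGraph V) {y : V → ℝ}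
    (hy : ∀ v, 0 ≤ y v) {P Q : Finset V} {r r' : ℝ}
    (h1 : (Fintype.card V : ℝ) < 2 * ((cball G y P r).card : ℝ))
    (h2 : (Fintype.card V : ℝ) < 2 * ((cball G y Q r').card : ℝ)) :
    ∃ w ∈ P, ∃ w' ∈ Q, ∃ p : G.Walk w w', ∑ v ∈ p.support.toFinset, y v ≤ r + r' := by
  have hne : ((cball G y P r) ∩ (cball G y Q r')).Nonempty := by
    by_contra hcon
    rw [Finset.not_nonempty_iff_eq_empty] at hcon
    have hd : Disjoint (cball G y P r) (cball G y Q r') := Finset.disjoint_iff_inter_eq_empty.mpr hcon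
    have h3 : (cball G y P r).card + (cball G y Q r').card ≤ Fintype.card V := by
      rw [← Finset.card_union_of_disjoint hd]
      exact Finset.card_le_univ _
    have h4 : ((cball G y P r).card : ℝ) + ((cball G y Q r').card : ℝ) ≤ Fintype.card V := by
      exact_mod_cast h3
    linarith
  obtain ⟨z, hz⟩ := hne
  rw [Finset.mem_inter] at hz
  exact route_of_meet hy hz.1 hz.2

private lemma Routes_rad {V : Type} [Fintype V] (G : SimpleGraph V) {y : V → ℝ}
    (hy : ∀ v, 0 ≤ y v) {P : Finset V} {r : ℝ}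
    (h1 : (Fintype.card V : ℝ) < 2 * ((cball G y P r).card : ℝ)) : 0 ≤ r := by
  have hne : (cball G y P r).Nonempty := by
    by_contra hcon
    rw [Finset.not_nonempty_iff_eq_empty] at hcon
    rw [hcon] at h1
    have : (0 : ℝ) ≤ (Fintype.card V : ℝ) := Nat.cast_nonneg _
    simp at h1
    linarith
  obtain ⟨z, hz⟩ := hne
  rw [mem_cball] at hz
  obtain ⟨s, -, q, hq⟩ := hz
  have e := cost_eq (y := y) q
  have e2 := costT_nonneg hy q
  have := hy s
  linarith

private lemma Routes_sum {k : ℕ} (r : Fin k → ℝ) (hr : ∀ i, 0 ≤ r i) :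
    ∑ a : {p : Fin k × Fin k // p.1 < p.2}, (r a.1.1 + r a.1.2) ≤ k * ∑ i, r i := by
  have e1 : ∑ a : {p : Fin k × Fin k // p.1 < p.2}, (r a.1.1 + r a.1.2) =
      ∑ i : Fin k, ∑ j : Fin k, if i < j then r i + r j else 0 := by
    rw [← Finset.sum_product', ← Finset.sum_filter]
    rw [Finset.univ_product_univ]
    exact (Finset.sum_subtype (Finset.univ.filter fun p : Fin k × Fin k => p.1 < p.2)
      (fun x => by simp) (fun p => r p.1 + r p.2)).symm
  have e2 : ∑ i : Fin k, ∑ j : Fin k, (if i < j then r i + r j else 0) =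
      ∑ i : Fin k, ∑ j : Fin k, ((if i < j then r i else 0) + (if j < i then r i else 0)) := by
    have e3 : ∑ i : Fin k, ∑ j : Fin k, (if j < i then r i else 0) =
        ∑ i : Fin k, ∑ j : Fin k, (if i < j then r j else 0) := Finset.sum_comm
    simp only [Finset.sum_add_distrib]
    rw [e3, ← Finset.sum_add_distrib]
    apply Finset.sum_congr rfl
    intro i _
    rw [← Finset.sum_add_distrib]
    apply Finset.sum_congr rfl
    intro j _
    split_ifs <;> simp
  rw [e1, e2]
  have e4 : (k : ℝ) * ∑ i, r i = ∑ i : Fin k, ∑ j : Fin k, r i := by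
    simp [Finset.mul_sum]
  rw [e4]
  apply Finset.sum_le_sum
  intro i _
  apply Finset.sum_le_sum
  intro j _
  have := hr i
  rcases lt_trichotomy i j with h | h | h
  · simp [h, h.le, not_lt.mpr h.le]
  · subst h
    simp [this]
  · simp [h, not_lt.mpr h.le]

theorem routes_exist {V : Type} [Fintype V] (G : SimpleGraph V) {k : ℕ} (Nb : Fin k → Finset V)
    (D κ θ : ℝ) (hD : 0 < D) (hκ : 0 < κ) (hθ : 0 < θ)
    (hp : 2592 * θ * (k : ℝ) ^ 2 ≤ κ * D) (h : Reaches G Nb D κ θ) : HasRoutes G Nb := by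
  set F : {p : Fin k × Fin k // p.1 < p.2} → Finset (Finset V) := fun a =>
    univ.filter (fun R => ∃ w ∈ Nb a.1.1, ∃ w' ∈ Nb a.1.2, ∃ p : G.Walk w w', p.support.toFinset = R)
    with hFdef
  have hsD : 0 < √D := Real.sqrt_pos.mpr hD
  have hF : ∀ a, (F a).Nonempty := by
    intro a
    obtain ⟨Rad, h1, -, -⟩ := h (fun _ => 0) 1 (fun _ => le_refl 0) (by simp) one_pos
    obtain ⟨w, hw, w', hw', q, -⟩ := Routes_meet G (fun _ => le_refl 0) (h1 a.1.1) (h1 a.1.2)
    exact ⟨q.support.toFinset, by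
      rw [hFdef]; simp only [Finset.mem_filter, Finset.mem_univ, true_and]
      exact ⟨w, hw, w', hw', q, rfl⟩⟩
  obtain ⟨R, hR, hdis⟩ := pack F hF (3 * θ * (k : ℝ) ^ 2 / √D) (54 / (κ * √D)) (by positivity)
    (by positivity) (by
      have e : 3 * θ * (k : ℝ) ^ 2 / √D * (54 / (κ * √D)) = 162 * θ * (k : ℝ) ^ 2 / (κ * D) := by
        have : √D * √D = D := Real.mul_self_sqrt hD.le
        field_simp
        rw [Real.sq_sqrt hD.le]
        ring
      rw [e, div_le_iff₀ (by positivity)]
      nlinarith) (by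
    intro y E hy hyE hE
    obtain ⟨Rad, h1, h2, h3⟩ := h y E hy hyE hE
    have hrad : ∀ i, 0 ≤ Rad i := fun i => Routes_rad G hy (h1 i)
    choose w hw w' hw' q hq using fun a : {p : Fin k × Fin k // p.1 < p.2} =>
      Routes_meet G hy (h1 a.1.1) (h1 a.1.2)
    have hsq : √(E / D) = √E / √D := Real.sqrt_div hE.le D
    refine ⟨fun a => (q a).support.toFinset, ?_, ?_, ?_⟩
    · intro a
      rw [hFdef]; simp only [Finset.mem_filter, Finset.mem_univ, true_and]
      exact ⟨w a, hw a, w' a, hw' a, q a, rfl⟩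
    · calc ∑ a, ∑ v ∈ (q a).support.toFinset, y v
          ≤ ∑ a : {p : Fin k × Fin k // p.1 < p.2}, (Rad a.1.1 + Rad a.1.2) :=
            Finset.sum_le_sum fun a _ => hq a
        _ ≤ k * ∑ i, Rad i := Routes_sum Rad hrad
        _ ≤ k * (3 * θ * k * √(E / D)) := mul_le_mul_of_nonneg_left h3 (Nat.cast_nonneg k)
        _ = 3 * θ * (k : ℝ) ^ 2 / √D * √E := by rw [hsq]; field_simp
    · intro a
      have h4 := hq a
      have h5 := h2 a.1.1
      have h6 := h2 a.1.2
      have e : 54 / (κ * √D) * √E = 27 / κ * √(E / D) + 27 / κ * √(E / D) := by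
        rw [hsq]; field_simp; ring
      rw [e]
      linarith)
  refine ⟨fun i j => if hij : i < j then R ⟨(i, j), hij⟩ else ∅, ?_, ?_⟩
  · intro i j hij
    have h7 := hR ⟨(i, j), hij⟩
    rw [hFdef] at h7
    simp only [Finset.mem_filter, Finset.mem_univ, true_and] at h7
    obtain ⟨w, hw, w', hw', q, hq⟩ := h7
    exact ⟨w, hw, w', hw', q, by rw [hq]; simp [hij]⟩
  · intro i j i' j' hij hij' hne
    simp only [hij, hij', dif_pos]
    apply hdis
    intro heq
    apply hne
    exact congrArg Subtype.val heq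

end

end Pool.Agent.H25.TK
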