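import Pool.Agent.H25.TK.EnvMk

/-!
Branch vertices of small degree with small codegrees.

Let `n = |V|`, `L = {v : √(D n) < 2 |nb v|}` (the hubs), `A = {v : |nb v| <= 4 D}`.
`A` is disjoint from `L` because `64 D <= n` (`v ∈ A`: `2|nb v| <= 8D <= √(D n)`), and
`|V \ A| * 4 D <= D (n+2)`, so `|A| >= n - (n+2)/4 >= n/2`.
Greedy: if `t < k` vertices `F ⊆ A` have been chosen,
`Σ_{v ∈ A \ F} Σ_{u ∈ F} |(nb u ∩ nb v) \ L| <= Σ_{u ∈ F} Σ_{w ∈ nb u \ L} |nb w| <=
t * 4D * √(D n)/2`, and `|A \ F| >= n/4` as `4 k <= n`; so some `v ∈ A \ F` has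
`Σ_{u ∈ F} |(nb u ∩ nb v) \ L| <= 8 t D √(D/n)` (`√(D n)/n = √(D/n)`). Sum over
`t < k`: at most `4 k² D √(D/n)` for unordered pairs, twice this for ordered pairs.
In Lean: prove by induction on `m <= k` the existence of `f : Fin m → V` (or of a finset of size
`m`) injective into `A` with ordered sum at most `8 m² D √(D/n)`:
`8 m² + 2 * 8 m <= 8 (m+1)²`.
-/

namespace Pool.Agent.H25.TK

open Finset
open scoped Classical

noncomputable section

variable {V : Type} [Fintype V] {G : SimpleGraph V} {a D : ℝ}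

/-- Vertices of large degree. -/
def hubs (G : SimpleGraph V) (D : ℝ) : Finset V :=
  univ.filter (fun v => √(D * Fintype.card V) < 2 * ((nb G v).card : ℝ))

private lemma select_adj_symm {v w : V} (h : G.Adj v w) : w ∈ nb G v := by
  simp [nb, h]

private lemma select_cod_comm (G : SimpleGraph V) (D : ℝ) (u v : V) :
    (nb G u ∩ nb G v) \ hubs G D = (nb G v ∩ nb G u) \ hubs G D := by
  rw [Finset.inter_comm]

/-- Codegree mass of one vertex. -/
private lemma select_row (G : SimpleGraph V) (D : ℝ) (u : V) :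
    ∑ v, (((nb G u ∩ nb G v) \ hubs G D).card : ℝ) ≤
      ((nb G u).card : ℝ) * (√(D * Fintype.card V) / 2) := by
  have h1 : ∑ v, ((nb G u ∩ nb G v) \ hubs G D).card =
      ∑ w ∈ nb G u \ hubs G D, (nb G w).card := by
    have hl : ∀ v, ((nb G u ∩ nb G v) \ hubs G D).card =
        ∑ w ∈ nb G u \ hubs G D, if G.Adj v w then 1 else 0 := by
      intro v
      rw [Finset.sum_boole]
      simp only [Nat.cast_id]
      congr 1
      ext w
      simp only [nb, mem_sdiff, mem_inter, mem_filter, mem_univ, true_and]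
      tauto
    have hr : ∀ w, (nb G w).card = ∑ v, if G.Adj v w then 1 else 0 := by
      intro w
      rw [Finset.sum_boole]
      simp only [Nat.cast_id, nb]
      congr 1
      ext v
      simp [G.adj_comm]
    simp_rw [hl, hr]
    exact Finset.sum_comm
  have h2 : ∑ v, (((nb G u ∩ nb G v) \ hubs G D).card : ℝ) =
      ∑ w ∈ nb G u \ hubs G D, ((nb G w).card : ℝ) := by
    exact_mod_cast h1
  rw [h2]
  have h3 : ∀ w ∈ nb G u \ hubs G D, ((nb G w).card : ℝ) ≤ √(D * Fintype.card V) / 2 := by
    intro w hw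
    have hw2 := (mem_sdiff.mp hw).2
    simp only [hubs, mem_filter, mem_univ, true_and, not_lt] at hw2
    linarith
  refine (Finset.sum_le_card_nsmul _ _ _ h3).trans ?_
  rw [nsmul_eq_mul]
  refine mul_le_mul_of_nonneg_right ?_ (by positivity)
  exact_mod_cast Finset.card_le_card Finset.sdiff_subset

/-- At least half of the vertices have small degree. -/
private lemma select_small (hD : 1 ≤ D) (hup : (dd G univ : ℝ) ≤ D * ((Fintype.card V : ℝ) + 2))
    (hn : 64 * D ≤ Fintype.card V) :
    (Fintype.card V : ℝ) / 2 ≤ ((univ.filter (fun v => ((nb G v).card : ℝ) ≤ 4 * D)).card : ℝ) := by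
  set A := univ.filter (fun v => ((nb G v).card : ℝ) ≤ 4 * D) with hA
  set B := univ.filter (fun v => ¬ ((nb G v).card : ℝ) ≤ 4 * D) with hB
  have hAB : A.card + B.card = Fintype.card V := by
    rw [hA, hB, Finset.card_filter_add_card_filter_not]
    rfl
  have hAB' : (A.card : ℝ) + B.card = Fintype.card V := by exact_mod_cast hAB
  have h1 : (B.card : ℝ) * (4 * D) ≤ D * ((Fintype.card V : ℝ) + 2) := by
    have hs : ∑ v, ((nb G v).card : ℝ) = (dd G univ : ℝ) := by exact_mod_cast sum_nb G
    have h2 : (B.card : ℝ) * (4 * D) ≤ ∑ v ∈ B, ((nb G v).card : ℝ) := by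
      rw [← nsmul_eq_mul]
      apply Finset.card_nsmul_le_sum
      intro v hv
      have := (mem_filter.mp hv).2
      push Not at this
      exact this.le
    have h3 : ∑ v ∈ B, ((nb G v).card : ℝ) ≤ ∑ v, ((nb G v).card : ℝ) :=
      Finset.sum_le_univ_sum_of_nonneg (fun _ => Nat.cast_nonneg _)
    linarith
  have h4 : (B.card : ℝ) * 4 ≤ (Fintype.card V : ℝ) + 2 := by
    have hDp : 0 < D := by linarith
    have : D * ((B.card : ℝ) * 4) ≤ D * ((Fintype.card V : ℝ) + 2) := by linarith
    exact le_of_mul_le_mul_left this hDp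
  linarith

theorem select (hD : 1 ≤ D) (hup : (dd G univ : ℝ) ≤ D * ((Fintype.card V : ℝ) + 2)) (k : ℕ)
    (hk : 4 * (k : ℝ) ≤ Fintype.card V) (hn : 64 * D ≤ Fintype.card V) :
    ∃ f : Fin k → V, Function.Injective f ∧ (∀ i, f i ∉ hubs G D) ∧
      ∑ i, ∑ j ∈ univ.erase i, (((nb G (f i) ∩ nb G (f j)) \ hubs G D).card : ℝ) ≤
        8 * k ^ 2 * D * √(D / Fintype.card V) := by
  obtain ⟨n, hndef⟩ : ∃ n : ℝ, n = ((Fintype.card V : ℕ) : ℝ) := ⟨_, rfl⟩
  rw [← hndef] at hk hn hup ⊢
  have hDp : 0 < D := by linarith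
  have hnp : 0 < n := by nlinarith
  have hsq : √(D * n) = n * √(D / n) := by
    rw [← Real.sqrt_sq hnp.le, ← Real.sqrt_mul (by positivity), Real.sqrt_sq hnp.le]
    congr 1
    field_simp
  set A := univ.filter (fun v => ((nb G v).card : ℝ) ≤ 4 * D) with hA
  have hAcard : n / 2 ≤ (A.card : ℝ) := by
    rw [hndef] at hup hn ⊢
    exact select_small hD hup hn
  have hAhub : ∀ v ∈ A, v ∉ hubs G D := by
    intro v hv hh
    have h1 := (mem_filter.mp hv).2
    have h2 := (mem_filter.mp hh).2
    rw [← hndef] at h2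
    have h3 : 8 * D ≤ √(D * n) := by
      apply Real.le_sqrt_of_sq_le
      nlinarith
    linarith
  have key : ∀ m : ℕ, m ≤ k → ∃ f : Fin m → V, Function.Injective f ∧ (∀ i, f i ∈ A) ∧
      ∑ i, ∑ j, (if i = j then (0 : ℝ) else
        (((nb G (f i) ∩ nb G (f j)) \ hubs G D).card : ℝ)) ≤ 8 * m ^ 2 * D * √(D / n) := by
    intro m
    induction m with
    | zero =>
      intro _
      exact ⟨Fin.elim0, fun i => i.elim0, fun i => i.elim0, by simp⟩
    | succ m ih =>
      intro hm
      obtain ⟨f, hfi, hfA, hfs⟩ := ih (by omega)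
      have hmk : (m : ℝ) + 1 ≤ k := by exact_mod_cast hm
      set C := A \ univ.image f with hC
      have hCcard : n / 4 ≤ (C.card : ℝ) := by
        have h1 : A.card - (univ.image f).card ≤ C.card := Finset.le_card_sdiff _ _
        have h2 : (univ.image f).card ≤ m := by
          simpa using Finset.card_image_le (s := univ) (f := f)
        have h3 : A.card ≤ C.card + m := by omega
        have h4 : (A.card : ℝ) ≤ C.card + m := by exact_mod_cast h3
        linarith
      have hex : ∃ v ∈ C, ∑ i, (((nb G (f i) ∩ nb G v) \ hubs G D).card : ℝ) ≤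
          8 * m * D * √(D / n) := by
        by_contra hcon
        push Not at hcon
        have hCne : C.Nonempty := by
          rw [← Finset.card_pos]
          have : (0 : ℝ) < C.card := by linarith
          exact_mod_cast this
        have h1 : ∑ v ∈ C, (8 * m * D * √(D / n)) <
            ∑ v ∈ C, ∑ i, (((nb G (f i) ∩ nb G v) \ hubs G D).card : ℝ) :=
          Finset.sum_lt_sum_of_nonempty hCne hcon
        have h2 : ∑ v ∈ C, ∑ i, (((nb G (f i) ∩ nb G v) \ hubs G D).card : ℝ) ≤
            ∑ v, ∑ i, (((nb G (f i) ∩ nb G v) \ hubs G D).card : ℝ) :=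
          Finset.sum_le_univ_sum_of_nonneg
            (fun v => Finset.sum_nonneg (fun i _ => Nat.cast_nonneg _))
        have h3 : ∑ v, ∑ i, (((nb G (f i) ∩ nb G v) \ hubs G D).card : ℝ) ≤
            m * (4 * D * (√(D * n) / 2)) := by
          rw [Finset.sum_comm]
          have h4 : ∀ i ∈ (univ : Finset (Fin m)),
              ∑ v, (((nb G (f i) ∩ nb G v) \ hubs G D).card : ℝ) ≤
              4 * D * (√(D * n) / 2) := by
            intro i _
            refine (select_row G D (f i)).trans ?_
            rw [← hndef]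
            have := (mem_filter.mp (hfA i)).2
            exact mul_le_mul_of_nonneg_right this (by positivity)
          refine (Finset.sum_le_card_nsmul _ _ _ h4).trans ?_
          simp
        rw [Finset.sum_const, nsmul_eq_mul] at h1
        rw [hsq] at h3
        have h5 : 0 ≤ 8 * (m : ℝ) * D * √(D / n) := by positivity
        have h6 : n / 4 * (8 * (m : ℝ) * D * √(D / n)) ≤
            C.card * (8 * (m : ℝ) * D * √(D / n)) := mul_le_mul_of_nonneg_right hCcard h5
        have h7 := (h6.trans_lt (h1.trans_le (h2.trans h3)))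
        generalize √(D / n) = q at h7
        have h8 : n / 4 * (8 * (m : ℝ) * D * q) = m * (4 * D * (n * q / 2)) := by ring
        rw [h8] at h7
        exact lt_irrefl _ h7
      obtain ⟨v, hvC, hv⟩ := hex
      rw [hC, mem_sdiff, mem_image] at hvC
      refine ⟨Fin.snoc f v, ?_, ?_, ?_⟩
      · rw [Fin.snoc_injective_iff]
        refine ⟨hfi, ?_⟩
        rintro ⟨i, hi⟩
        exact hvC.2 ⟨i, mem_univ _, hi⟩
      · intro i
        refine Fin.lastCases ?_ (fun i => ?_) i
        · simpa using hvC.1
        · simpa using hfA i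
      · rw [Fin.sum_univ_castSucc]
        have e1 : ∀ i : Fin m, ∑ j : Fin (m + 1), (if i.castSucc = j then (0 : ℝ) else
            (((nb G ((Fin.snoc f v : Fin (m + 1) → V) i.castSucc) ∩
              nb G ((Fin.snoc f v : Fin (m + 1) → V) j)) \ hubs G D).card : ℝ)) =
            (∑ j : Fin m, (if i = j then (0 : ℝ) else
              (((nb G (f i) ∩ nb G (f j)) \ hubs G D).card : ℝ))) +
              (((nb G (f i) ∩ nb G v) \ hubs G D).card : ℝ) := by
          intro i
          rw [Fin.sum_univ_castSucc]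
          congr 1
          · apply Finset.sum_congr rfl
            intro j _
            simp [Fin.castSucc_inj]
          · rw [if_neg (Fin.castSucc_lt_last i).ne]
            simp
        have e2 : ∑ j : Fin (m + 1), (if Fin.last m = j then (0 : ℝ) else
            (((nb G ((Fin.snoc f v : Fin (m + 1) → V) (Fin.last m)) ∩
              nb G ((Fin.snoc f v : Fin (m + 1) → V) j)) \ hubs G D).card : ℝ)) =
            ∑ j : Fin m, (((nb G (f j) ∩ nb G v) \ hubs G D).card : ℝ) := by
          rw [Fin.sum_univ_castSucc]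
          rw [if_pos rfl, add_zero]
          apply Finset.sum_congr rfl
          intro j _
          rw [if_neg (Fin.castSucc_lt_last j).ne']
          simp only [Fin.snoc_last, Fin.snoc_castSucc]
          rw [select_cod_comm]
        rw [e2, Finset.sum_congr rfl (fun i _ => e1 i), Finset.sum_add_distrib]
        have h8 : 0 ≤ D * √(D / n) := by positivity
        generalize √(D / n) = q at hfs hv h8 ⊢
        generalize (∑ i : Fin m, ∑ j : Fin m, (if i = j then (0 : ℝ) else
            (((nb G (f i) ∩ nb G (f j)) \ hubs G D).card : ℝ))) = S1 at hfs ⊢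
        generalize (∑ i : Fin m, (((nb G (f i) ∩ nb G v) \ hubs G D).card : ℝ)) = S2 at hv ⊢
        push_cast
        have h9 : 8 * ((m : ℝ) + 1) ^ 2 * D * q = 8 * (m : ℝ) ^ 2 * D * q +
          8 * m * D * q + 8 * m * D * q + 8 * (D * q) := by ring
        rw [h9]
        linarith
  obtain ⟨f, hfi, hfA, hfs⟩ := key k le_rfl
  refine ⟨f, hfi, fun i => hAhub _ (hfA i), ?_⟩
  refine le_trans (le_of_eq ?_) hfs
  apply Finset.sum_congr rfl
  intro i _
  rw [← Finset.sum_erase (a := i) (s := univ)
    (f := fun j => if i = j then (0 : ℝ) else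
      (((nb G (f i) ∩ nb G (f j)) \ hubs G D).card : ℝ)) (by simp)]
  apply Finset.sum_congr rfl
  intro j hj
  rw [if_neg]
  exact fun h => (Finset.ne_of_mem_erase hj) h.symm

end

end Pool.Agent.H25.TK
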