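import Pool.Agent.H25.TK.Select
import Pool.Agent.H25.TK.Join

/-!
THE SPARSE CASE.

PROOF of `sparse`. `κ = a/12 <= 1`, `θ = min 1 (κ c/2592)` so that `2592 θ k² <= κ c k² = κ D`.
`Ω` = the maximum of the two constants of `reach`, `hub_reach` for `κ`, `θ`. Choose `K`, `k0`
large. Let `n = |V| >= K D`, `D = c k²`.
CASE 1: at least `k` hubs (`hubs G D`). Let `Z` be a set of `k` hubs, `f` an enumeration of it.
`60 k <= a D` for large `k`, so `env_induce` applies; `V' = Zᶜ`, `n' = n - k >= n/2`,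
`ω = (n'/D)^(1/16)` (`ω >= Ω` for `K` large, `ω^16 D = n'`). `Nb i = nb (f i) ∩ V'` (as a finset
of the subtype) has at least `√(D n)/2 - k >= √(D n')/4 = D ω^8/4` elements, as
`4 k <= √(D n)`. `hub_reach`, `routes_exist`, `tk_of_routes`.
CASE 2: fewer than `k` hubs. `f` from `select` (`Good.up`), `Z = hubs ∪ image of f`, `|Z| <= 2k`,
`120 k <= a D`. `V' = Zᶜ`, `n' >= n/2`, `ω` as before. Degrees in `V'` at most
`√(D n)/2 <= √(D n') = D ω^8`. `Nb i = nb (f i) ∩ V'` has at least `7/16 D - 2k >= 3/8 D`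
elements (`good_deg`), and `Nb i ∩ Nb j` maps into `(nb (f i) ∩ nb (f j)) \ hubs`, so the
codegree sum is at most `8 k² D √(D/n) <= 8 k² D √(D/n') = 8 k² D/ω^8`. `reach`,
`routes_exist`, `tk_of_routes`.
-/

namespace Pool.Agent.H25.TK

open Finset
open scoped Classical

noncomputable section

/-- The neighbours of `v` outside `Z`, as a finset of the subtype. -/
def sparseNb {V : Type} [Fintype V] (G : SimpleGraph V) (Z : Finset V) (v : V) :
    Finset ↥((Z : Set V)ᶜ) :=
  univ.filter (fun w => G.Adj v w)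

private lemma sparse_nb_card {V : Type} [Fintype V] (G : SimpleGraph V) (Z : Finset V) (v : V) :
    (nb G v).card ≤ (sparseNb G Z v).card + Z.card := by
  have hsub : nb G v ⊆ (sparseNb G Z v).map (Function.Embedding.subtype _) ∪ Z := by
    intro w hw
    rw [mem_union]
    by_cases hwZ : w ∈ Z
    · exact Or.inr hwZ
    · refine Or.inl (mem_map.2 ⟨⟨w, by simpa using hwZ⟩, ?_, rfl⟩)
      simp only [sparseNb, mem_filter, mem_univ, true_and]
      simpa [nb] using hw
  calc (nb G v).card ≤ ((sparseNb G Z v).map (Function.Embedding.subtype _) ∪ Z).card :=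
        card_le_card hsub
    _ ≤ ((sparseNb G Z v).map (Function.Embedding.subtype _)).card + Z.card := card_union_le _ _
    _ = (sparseNb G Z v).card + Z.card := by rw [card_map]

private lemma sparse_nb_inter {V : Type} [Fintype V] (G : SimpleGraph V) (Z H : Finset V)
    (hH : H ⊆ Z) (v w : V) :
    (sparseNb G Z v ∩ sparseNb G Z w).card ≤ ((nb G v ∩ nb G w) \ H).card := by
  rw [← card_map (Function.Embedding.subtype _)]
  apply card_le_card
  intro x hx
  rw [mem_map] at hx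
  obtain ⟨y, hy, rfl⟩ := hx
  rw [mem_inter] at hy
  have h1 : G.Adj v y := by simpa [sparseNb] using hy.1
  have h2 : G.Adj w y := by simpa [sparseNb] using hy.2
  have h3 : (y : V) ∉ Z := fun h => y.2 (Finset.mem_coe.2 h)
  simp only [nb, mem_sdiff, mem_inter, mem_filter, mem_univ, true_and,
    Function.Embedding.subtype_apply]
  exact ⟨⟨h1, h2⟩, fun h => h3 (hH h)⟩

private lemma sparse_deg {V : Type} [Fintype V] (G : SimpleGraph V) (Z : Finset V)
    (v : ↥((Z : Set V)ᶜ)) :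
    (nb (G.induce ((Z : Set V)ᶜ)) v).card ≤ (nb G (v : V)).card := by
  rw [← card_map (Function.Embedding.subtype _)]
  apply card_le_card
  intro x hx
  rw [mem_map] at hx
  obtain ⟨y, hy, rfl⟩ := hx
  simpa [nb] using hy

private lemma sparse_card {V : Type} [Fintype V] (Z : Finset V) :
    (Fintype.card ↥((Z : Set V)ᶜ) : ℝ) = Fintype.card V - Z.card := by
  have h : Fintype.card ↥((Z : Set V)ᶜ) = Fintype.card V - Z.card := by
    rw [Fintype.card_compl_set]; simp
  rw [h, Nat.cast_sub (card_le_univ Z)]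

private lemma sparse_omega {n' D Ω : ℝ} (hD : 0 < D) (hΩ : 1 ≤ Ω) (h : Ω ^ 16 * D ≤ n') :
    ∃ ω : ℝ, Ω ≤ ω ∧ ω ^ 16 * D = n' := by
  have hΩ0 : 0 ≤ Ω := by linarith
  have hn0 : 0 ≤ n' := le_trans (by positivity) h
  refine ⟨(n' / D) ^ ((16 : ℕ) : ℝ)⁻¹, ?_, ?_⟩
  · rw [← pow_le_pow_iff_left₀ hΩ0 (Real.rpow_nonneg (by positivity) _)
      (show (16 : ℕ) ≠ 0 by norm_num),
      Real.rpow_inv_natCast_pow (by positivity) (by norm_num)]
    rwa [le_div_iff₀ hD]
  · rw [Real.rpow_inv_natCast_pow (by positivity) (by norm_num)]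
    field_simp

theorem sparse (c a : ℝ) (hc : 0 < c) (ha : 0 < a) (ha' : a ≤ 1 / 8) :
    ∃ K k0 : ℝ, 1 ≤ K ∧ ∀ (V : Type) [Fintype V] (G : SimpleGraph V) (D : ℝ) (k : ℕ),
      k0 ≤ k → D = c * (k : ℝ) ^ 2 → K * D ≤ Fintype.card V → Good G a D → HasTK G k := by
  set κ : ℝ := a / 12 with hκ
  have hκ0 : 0 < κ := by positivity
  have hκ1 : κ ≤ 1 := by rw [hκ]; linarith
  set θ : ℝ := min 1 (κ * c / 2592) with hθ
  have hθ0 : 0 < θ := by rw [hθ]; positivity
  have hθ1 : θ ≤ 1 := min_le_left _ _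
  have hθ2 : 2592 * θ ≤ κ * c := by
    have : θ ≤ κ * c / 2592 := min_le_right _ _
    linarith
  obtain ⟨Ω₁, hΩ₁, H₁⟩ := reach κ θ hκ0 hκ1 hθ0 hθ1
  obtain ⟨Ω₂, hΩ₂, H₂⟩ := hub_reach κ θ hκ0 hκ1 hθ0 hθ1
  set Ω : ℝ := max Ω₁ Ω₂ with hΩ
  have hΩ1 : 1 ≤ Ω := hΩ₁.trans (le_max_left _ _)
  have hΩa : Ω₁ ≤ Ω := le_max_left _ _
  have hΩb : Ω₂ ≤ Ω := le_max_right _ _
  have hΩ16 : 1 ≤ Ω ^ 16 := one_le_pow₀ hΩ1
  refine ⟨2 * Ω ^ 16 + 64, max Ω (max (1 / c) (120 / (a * c))), by linarith, ?_⟩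
  intro V _ G D k hk0 hDk hKD hG
  have hkΩ : Ω ≤ k := (le_max_left _ _).trans hk0
  have hk1 : (1 : ℝ) ≤ k := hΩ1.trans hkΩ
  have hkc : 1 / c ≤ (k : ℝ) := ((le_max_left _ _).trans (le_max_right _ _)).trans hk0
  have hkac : 120 / (a * c) ≤ (k : ℝ) := ((le_max_right _ _).trans (le_max_right _ _)).trans hk0
  have hk0' : (0 : ℝ) < k := by linarith
  have hck : 1 ≤ c * k := by
    rw [div_le_iff₀ hc] at hkc; linarith
  have hD1 : 1 ≤ D := by
    rw [hDk]; nlinarith
  have hD0 : 0 < D := by linarith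
  have hack : 120 ≤ a * c * k := by
    rw [div_le_iff₀ (by positivity)] at hkac; linarith
  have haD : 120 * (k : ℝ) ≤ a * D := by
    rw [hDk]; nlinarith
  have hDk2 : 960 * (k : ℝ) ≤ D := by nlinarith
  have hp : 2592 * θ * (k : ℝ) ^ 2 ≤ κ * D := by
    rw [hDk]
    have := mul_le_mul_of_nonneg_right hθ2 (show (0 : ℝ) ≤ (k : ℝ) ^ 2 by positivity)
    linarith
  set n : ℝ := (Fintype.card V : ℝ) with hn
  have hn64 : 64 * D ≤ n := by nlinarith
  have hnΩ : 2 * (Ω ^ 16 * D) ≤ n := by nlinarith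
  have hn0 : 0 < n := by linarith
  by_cases hcase : k ≤ (hubs G D).card
  · -- CASE 1
    obtain ⟨Z, hZsub, hZcard⟩ := exists_subset_card_eq hcase
    have hZc : (Z.card : ℝ) = k := by exact_mod_cast hZcard
    set f : Fin k → V := fun i => ((Z.equivFinOfCardEq hZcard).symm i : V) with hf
    have hfinj : Function.Injective f := by
      intro i j hij
      exact (Z.equivFinOfCardEq hZcard).symm.injective (Subtype.ext hij)
    have hfZ : ∀ i, f i ∈ Z := fun i => ((Z.equivFinOfCardEq hZcard).symm i).2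
    have hE := env_induce hG ha ha' hD1 Z (by rw [hZc]; linarith)
    have hn' := sparse_card Z
    rw [hZc] at hn'
    have hn'2 : n / 2 ≤ (Fintype.card ↥((Z : Set V)ᶜ) : ℝ) := by
      rw [hn', ← hn]; linarith
    obtain ⟨ω, hωΩ, hω⟩ := sparse_omega (n' := (Fintype.card ↥((Z : Set V)ᶜ) : ℝ)) hD0 hΩ1
      (by linarith)
    have hω0 : 0 < ω := by linarith
    have hω8 : 1 ≤ ω ^ 8 := one_le_pow₀ (by linarith)
    have hs : (D * ω ^ 8) ^ 2 = D * (Fintype.card ↥((Z : Set V)ᶜ) : ℝ) := by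
      rw [← hω]; ring
    have hs2 : D * ω ^ 8 ≤ √(D * n) := by
      apply Real.le_sqrt_of_sq_le
      rw [hs, hn', ← hn]
      apply mul_le_mul_of_nonneg_left _ hD0.le
      linarith
    have hs3 : D ≤ D * ω ^ 8 := by nlinarith
    have hNb : ∀ i, D * ω ^ 8 / 4 ≤ ((sparseNb G Z (f i)).card : ℝ) := by
      intro i
      have h1 : √(D * n) < 2 * ((nb G (f i)).card : ℝ) := by
        exact (mem_filter.1 (hZsub (hfZ i))).2
      have h2 : ((nb G (f i)).card : ℝ) ≤ (sparseNb G Z (f i)).card + k := by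
        rw [← hZc]; exact_mod_cast sparse_nb_card G Z (f i)
      linarith
    have hR := H₂ ↥((Z : Set V)ᶜ) (G.induce ((Z : Set V)ᶜ)) D ω k (fun i => sparseNb G Z (f i))
      hE (hΩb.trans hωΩ) hω hNb
    exact tk_of_routes G Z f hfinj hfZ (fun i => sparseNb G Z (f i))
      (fun i w hw => by simpa [sparseNb] using hw)
      (routes_exist _ _ D κ θ hD0 hκ0 hθ0 hp hR)
  · -- CASE 2
    push Not at hcase
    obtain ⟨f, hfinj, hfh, hsum⟩ := select hD1 hG.up k (by rw [← hn]; linarith)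
      (by rw [← hn]; exact hn64)
    set Z : Finset V := hubs G D ∪ univ.image f with hZ
    have hHZ : hubs G D ⊆ Z := subset_union_left
    have hfZ : ∀ i, f i ∈ Z := fun i => mem_union_right _ (mem_image_of_mem _ (mem_univ i))
    have hZcard : Z.card ≤ 2 * k := by
      calc Z.card ≤ (hubs G D).card + (univ.image f).card := card_union_le _ _
        _ ≤ k + k := by
          apply Nat.add_le_add hcase.le
          exact card_image_le.trans (by simp)
        _ = 2 * k := by ring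
    have hZc : (Z.card : ℝ) ≤ 2 * k := by exact_mod_cast hZcard
    have hE := env_induce hG ha ha' hD1 Z (by linarith)
    have hn' := sparse_card Z
    have hn'1 : (Fintype.card ↥((Z : Set V)ᶜ) : ℝ) ≤ n := by
      rw [hn', ← hn]
      have : (0 : ℝ) ≤ Z.card := by positivity
      linarith
    have hn'2 : n / 2 ≤ (Fintype.card ↥((Z : Set V)ᶜ) : ℝ) := by
      rw [hn', ← hn]; linarith
    obtain ⟨ω, hωΩ, hω⟩ := sparse_omega (n' := (Fintype.card ↥((Z : Set V)ᶜ) : ℝ)) hD0 hΩ1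
      (by linarith)
    have hω0 : 0 < ω := by linarith
    have hω8 : 1 ≤ ω ^ 8 := one_le_pow₀ (by linarith)
    have hs : (D * ω ^ 8) ^ 2 = D * (Fintype.card ↥((Z : Set V)ᶜ) : ℝ) := by
      rw [← hω]; ring
    have hdeg : ∀ v : ↥((Z : Set V)ᶜ),
        ((nb (G.induce ((Z : Set V)ᶜ)) v).card : ℝ) ≤ D * ω ^ 8 := by
      intro v
      have h0 : (v : V) ∉ hubs G D := by
        exact fun h => v.2 (Finset.mem_coe.2 (hHZ h))
      have h1 : 2 * ((nb G (v : V)).card : ℝ) ≤ √(D * n) := by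
        by_contra hcon
        exact h0 (mem_filter.2 ⟨mem_univ _, lt_of_not_ge hcon⟩)
      have h2 : ((nb (G.induce ((Z : Set V)ᶜ)) v).card : ℝ) ≤ (nb G (v : V)).card := by
        exact_mod_cast sparse_deg G Z v
      have h3 : √(D * n) ≤ 2 * (D * ω ^ 8) := by
        rw [Real.sqrt_le_left (by positivity), mul_pow, hs]
        nlinarith
      linarith
    have hNb : ∀ i, 3 / 8 * D ≤ ((sparseNb G Z (f i)).card : ℝ) := by
      intro i
      have h1 := good_deg hG (f i)
      have h2 : ((nb G (f i)).card : ℝ) ≤ (sparseNb G Z (f i)).card + Z.card := by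
        exact_mod_cast sparse_nb_card G Z (f i)
      nlinarith
    have hcod : ∑ i, ∑ j ∈ univ.erase i,
        ((sparseNb G Z (f i) ∩ sparseNb G Z (f j)).card : ℝ) ≤ 8 * k ^ 2 * D / ω ^ 8 := by
      have h1 : ∑ i, ∑ j ∈ univ.erase i,
          ((sparseNb G Z (f i) ∩ sparseNb G Z (f j)).card : ℝ) ≤
          ∑ i, ∑ j ∈ univ.erase i, (((nb G (f i) ∩ nb G (f j)) \ hubs G D).card : ℝ) := by
        apply sum_le_sum
        intro i _
        apply sum_le_sum
        intro j _
        exact_mod_cast sparse_nb_inter G Z (hubs G D) hHZ (f i) (f j)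
      have h2 : √(D / n) ≤ 1 / ω ^ 8 := by
        rw [Real.sqrt_le_left (by positivity), div_pow, one_pow, ← pow_mul]
        rw [div_le_div_iff₀ hn0 (by positivity)]
        norm_num
        linarith
      calc ∑ i, ∑ j ∈ univ.erase i,
            ((sparseNb G Z (f i) ∩ sparseNb G Z (f j)).card : ℝ)
          ≤ 8 * k ^ 2 * D * √(D / n) := h1.trans hsum
        _ ≤ 8 * k ^ 2 * D * (1 / ω ^ 8) := mul_le_mul_of_nonneg_left h2 (by positivity)
        _ = 8 * k ^ 2 * D / ω ^ 8 := by ring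
    have hR := H₁ ↥((Z : Set V)ᶜ) (G.induce ((Z : Set V)ᶜ)) D ω k (fun i => sparseNb G Z (f i))
      hE (hΩa.trans hωΩ) (hΩa.trans hkΩ) hω hdeg hNb (by
        refine le_trans (le_of_eq ?_) hcod
        refine Finset.sum_congr rfl fun i _ => ?_
        refine Finset.sum_congr ?_ fun j _ => ?_
        · ext x; simp
        · congr 2
          ext x; simp)
    exact tk_of_routes G Z f hfinj hfZ (fun i => sparseNb G Z (f i))
      (fun i w hw => by simpa [sparseNb] using hw)
      (routes_exist _ _ D κ θ hD0 hκ0 hθ0 hp hR)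

end

end Pool.Agent.H25.TK
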