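import Pool.Agent.H25.TK.Grow2

/-!
Few terminal sets are mostly heavy.

PROOF of `termA`. `T = {w : θ √(E/D) < y w}`, `|T| <= D/θ²` (`card_large`). Let `I` be the set of
the bad `i`, `b = |I|`; for `i ∈ I`, `|Nb i ∩ T| >= 3D/8 - D/8 = D/4`. For a vertex `w` let
`m w = #{i ∈ I : w ∈ Nb i}` and `Z = Σ_{w ∈ T} m w >= b D/4`. Cauchy-Schwarz:
`Z² <= |T| Σ_T (m w)² = |T| (Σ_T m w (m w - 1) + Z) <= |T| (8k²D/ω^8 + Z)`. If `Z <= 2|T|` then
`b D/4 <= 2D/θ²`, `b <= 8/θ² <= σ k`. Otherwise `|T| Z <= Z²/2`, so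
`Z² <= 2|T| * 8k²D/ω^8 <= 16 k² D²/(θ² ω^8)`, so `b² <= 256 k²/(θ² ω^8) <= σ² k²`.

`codeg_cs` is the common Cauchy-Schwarz step (also used in `termB`): for sets `Q i ⊆ Nb i`,
`i ∈ I`, with union inside `T`: `Z = Σ_{i ∈ I} |Q i|` satisfies `Z² <= |T| (C + Z)` where
`C` bounds `Σ_{i ≠ j} |Nb i ∩ Nb j|`. (Sum over `w ∈ T` of `m w`, `m w = #{i ∈ I : w ∈ Q i}`;
`Σ_w m w (m w - 1) = Σ_{i ≠ j ∈ I} |Q i ∩ Q j|`.)
-/

namespace Pool.Agent.H25.TK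

open Finset
open scoped Classical

noncomputable section

variable {V : Type} [Fintype V] {y : V → ℝ} {D E ω θ σ : ℝ} {k : ℕ}

lemma codeg_cs (Nb Q : Fin k → Finset V) (I : Finset (Fin k)) (T : Finset V)
    (hQ : ∀ i ∈ I, Q i ⊆ Nb i) (hT : ∀ i ∈ I, Q i ⊆ T) (C : ℝ)
    (hC : ∑ i, ∑ j ∈ univ.erase i, ((Nb i ∩ Nb j).card : ℝ) ≤ C) :
    (∑ i ∈ I, ((Q i).card : ℝ)) ^ 2 ≤ T.card * (C + ∑ i ∈ I, ((Q i).card : ℝ)) := by
  have hcard : ∀ S : Finset V, S ⊆ T → (S.card : ℝ) = ∑ w ∈ T, (if w ∈ S then (1 : ℝ) else 0) := by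
    intro S hS
    rw [Finset.sum_ite_mem, Finset.inter_eq_right.2 hS, Finset.sum_const, nsmul_eq_mul, mul_one]
  have h1 : ∑ i ∈ I, ((Q i).card : ℝ) =
      ∑ w ∈ T, ∑ i ∈ I, (if w ∈ Q i then (1 : ℝ) else 0) := by
    rw [Finset.sum_comm]
    exact Finset.sum_congr rfl fun i hi => hcard _ (hT i hi)
  have h2 : (∑ i ∈ I, ((Q i).card : ℝ)) ^ 2 ≤
      T.card * ∑ w ∈ T, (∑ i ∈ I, (if w ∈ Q i then (1 : ℝ) else 0)) ^ 2 := by
    rw [h1]
    exact sq_sum_le_card_mul_sum_sq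
  have h3 : ∑ w ∈ T, (∑ i ∈ I, (if w ∈ Q i then (1 : ℝ) else 0)) ^ 2 =
      ∑ i ∈ I, ∑ j ∈ I, ((Q i ∩ Q j).card : ℝ) := by
    have h4 : ∀ w, (∑ i ∈ I, (if w ∈ Q i then (1 : ℝ) else 0)) ^ 2 =
        ∑ i ∈ I, ∑ j ∈ I, (if w ∈ Q i ∩ Q j then (1 : ℝ) else 0) := by
      intro w
      rw [sq, Finset.sum_mul_sum]
      refine Finset.sum_congr rfl fun i _ => Finset.sum_congr rfl fun j _ => ?_
      by_cases h5 : w ∈ Q i <;> by_cases h6 : w ∈ Q j <;> simp [h5, h6]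
    simp only [h4]
    rw [Finset.sum_comm]
    refine Finset.sum_congr rfl fun i hi => ?_
    rw [Finset.sum_comm]
    refine Finset.sum_congr rfl fun j _ => ?_
    exact (hcard _ (Finset.inter_subset_left.trans (hT i hi))).symm
  have h5 : ∑ i ∈ I, ∑ j ∈ I, ((Q i ∩ Q j).card : ℝ) ≤ C + ∑ i ∈ I, ((Q i).card : ℝ) := by
    have h6 : ∀ i ∈ I, ∑ j ∈ I, ((Q i ∩ Q j).card : ℝ) ≤
        ((Q i).card : ℝ) + ∑ j ∈ univ.erase i, ((Nb i ∩ Nb j).card : ℝ) := by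
      intro i hi
      rw [← Finset.add_sum_erase _ _ hi, Finset.inter_self]
      refine add_le_add le_rfl ?_
      calc ∑ j ∈ I.erase i, ((Q i ∩ Q j).card : ℝ)
          ≤ ∑ j ∈ I.erase i, ((Nb i ∩ Nb j).card : ℝ) := by
            refine Finset.sum_le_sum fun j hj => ?_
            exact_mod_cast Finset.card_le_card
              (Finset.inter_subset_inter (hQ i hi) (hQ j (Finset.mem_of_mem_erase hj)))
        _ ≤ ∑ j ∈ univ.erase i, ((Nb i ∩ Nb j).card : ℝ) := by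
            refine Finset.sum_le_sum_of_subset_of_nonneg
              (Finset.erase_subset_erase i (Finset.subset_univ I)) fun j _ _ => ?_
            positivity
    calc ∑ i ∈ I, ∑ j ∈ I, ((Q i ∩ Q j).card : ℝ)
        ≤ ∑ i ∈ I, (((Q i).card : ℝ) + ∑ j ∈ univ.erase i, ((Nb i ∩ Nb j).card : ℝ)) :=
          Finset.sum_le_sum h6
      _ = ∑ i ∈ I, ((Q i).card : ℝ) +
          ∑ i ∈ I, ∑ j ∈ univ.erase i, ((Nb i ∩ Nb j).card : ℝ) := Finset.sum_add_distrib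
      _ ≤ ∑ i ∈ I, ((Q i).card : ℝ) + C := by
          gcongr
          refine le_trans ?_ hC
          refine Finset.sum_le_sum_of_subset_of_nonneg (Finset.subset_univ I) fun i _ _ => ?_
          exact Finset.sum_nonneg fun j _ => by positivity
      _ = _ := add_comm _ _
  calc (∑ i ∈ I, ((Q i).card : ℝ)) ^ 2
      ≤ T.card * ∑ w ∈ T, (∑ i ∈ I, (if w ∈ Q i then (1 : ℝ) else 0)) ^ 2 := h2
    _ = T.card * ∑ i ∈ I, ∑ j ∈ I, ((Q i ∩ Q j).card : ℝ) := by rw [h3]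
    _ ≤ _ := by gcongr

theorem termA (hy : ∀ v, 0 ≤ y v) (hE : ∑ v, y v ^ 2 ≤ E) (hE0 : 0 < E) (hD : 1 ≤ D)
    (hω : 1 ≤ ω) (Nb : Fin k → Finset V) (hNb : ∀ i, 3 / 8 * D ≤ ((Nb i).card : ℝ))
    (hC : ∑ i, ∑ j ∈ univ.erase i, ((Nb i ∩ Nb j).card : ℝ) ≤ 8 * k ^ 2 * D / ω ^ 8)
    (hθ : 0 < θ) (hσ : 0 < σ) (h1 : 32 / θ ^ 2 ≤ σ * k) (h2 : 256 / (θ ^ 2 * σ ^ 2) ≤ ω ^ 8) :
    ((univ.filter (fun i => (((Nb i).filter (fun w => y w ≤ θ * √(E / D))).card : ℝ) <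
      D / 8)).card : ℝ) ≤ σ * k := by
  have hD0 : 0 < D := by linarith
  set I : Finset (Fin k) := univ.filter (fun i =>
    (((Nb i).filter (fun w => y w ≤ θ * √(E / D))).card : ℝ) < D / 8) with hI
  set T : Finset V := univ.filter (fun w => θ * √(E / D) < y w) with hTdef
  set t : ℝ := θ * √(E / D) with ht
  have hED : 0 < E / D := by positivity
  have ht0 : 0 < t := by positivity
  have hT : (T.card : ℝ) ≤ D / θ ^ 2 := by
    have h3 := card_large hy hE ht0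
    have h4 : t ^ 2 = θ ^ 2 * (E / D) := by
      rw [ht, mul_pow, Real.sq_sqrt hED.le]
    rw [h4] at h3
    rw [le_div_iff₀ (by positivity)]
    have h5 : (T.card : ℝ) * (θ ^ 2 * (E / D)) ≤ E := h3
    have h6 : (T.card : ℝ) * θ ^ 2 * (E / D) ≤ D * (E / D) := by
      rw [mul_div_cancel₀ _ hD0.ne']
      linarith [mul_assoc (T.card : ℝ) (θ ^ 2) (E / D)]
    exact le_of_mul_le_mul_right h6 hED
  let Q : Fin k → Finset V := fun i => (Nb i).filter (fun w => t < y w)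
  have hQc : ∀ i ∈ I, D / 4 ≤ ((Q i).card : ℝ) := by
    intro i hi
    have h3 := (Finset.mem_filter.1 hi).2
    have h4 : (Nb i).card = ((Nb i).filter (fun w => y w ≤ t)).card + (Q i).card := by
      have h6 := Finset.card_filter_add_card_filter_not (s := Nb i) (fun w => y w ≤ t)
      have h7 : (Nb i).filter (fun w => ¬ (y w ≤ t)) = Q i := by
        ext w
        simp only [Q, Finset.mem_filter, not_le]
      rw [h7] at h6
      exact h6.symm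
    have h5 : ((Nb i).card : ℝ) = (((Nb i).filter (fun w => y w ≤ t)).card : ℝ) +
        ((Q i).card : ℝ) := by exact_mod_cast h4
    have := hNb i
    linarith
  set b : ℝ := (I.card : ℝ) with hb
  set Z : ℝ := ∑ i ∈ I, ((Q i).card : ℝ) with hZ
  have hZb : b * (D / 4) ≤ Z := by
    rw [hb, hZ, ← nsmul_eq_mul, ← Finset.sum_const]
    exact Finset.sum_le_sum hQc
  have hcs := codeg_cs Nb Q I T (fun i _ => Finset.filter_subset _ _)
    (fun i _ w hw => Finset.mem_filter.2 ⟨Finset.mem_univ w, (Finset.mem_filter.1 hw).2⟩) _ hC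
  rw [← hZ] at hcs
  have hb0 : 0 ≤ b := Nat.cast_nonneg _
  have hZ0 : 0 ≤ Z := le_trans (by positivity) hZb
  have hT0 : (0 : ℝ) ≤ T.card := Nat.cast_nonneg _
  have hω0 : 0 < ω := by linarith
  by_cases hcase : Z ≤ 2 * T.card
  · have h3 : b * (D / 4) ≤ 2 * (D / θ ^ 2) := by linarith
    have h4 : b ≤ 32 / θ ^ 2 := by
      have h5 : b * (D / 4) ≤ (8 / θ ^ 2) * (D / 4) := by
        calc b * (D / 4) ≤ 2 * (D / θ ^ 2) := h3
          _ = (8 / θ ^ 2) * (D / 4) := by ring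
      have h6 : b ≤ 8 / θ ^ 2 := le_of_mul_le_mul_right h5 (by positivity)
      refine h6.trans ?_
      gcongr
      norm_num
    exact h4.trans h1
  · push Not at hcase
    have h3 : (T.card : ℝ) * Z ≤ Z ^ 2 / 2 := by nlinarith
    have h4 : Z ^ 2 ≤ 2 * T.card * (8 * k ^ 2 * D / ω ^ 8) := by nlinarith
    have h5 : Z ^ 2 ≤ 2 * (D / θ ^ 2) * (8 * k ^ 2 * D / ω ^ 8) := by
      refine h4.trans ?_
      gcongr
    have h6 : (b * (D / 4)) ^ 2 ≤ 2 * (D / θ ^ 2) * (8 * k ^ 2 * D / ω ^ 8) :=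
      (pow_le_pow_left₀ (by positivity) hZb 2).trans h5
    have h7 : b ^ 2 ≤ 256 * k ^ 2 / (θ ^ 2 * ω ^ 8) := by
      have h8 : b ^ 2 * (D ^ 2 / 16) ≤ (256 * k ^ 2 / (θ ^ 2 * ω ^ 8)) * (D ^ 2 / 16) := by
        calc b ^ 2 * (D ^ 2 / 16) = (b * (D / 4)) ^ 2 := by ring
          _ ≤ 2 * (D / θ ^ 2) * (8 * k ^ 2 * D / ω ^ 8) := h6
          _ = (256 * k ^ 2 / (θ ^ 2 * ω ^ 8)) * (D ^ 2 / 16) := by field_simp; ring
      exact le_of_mul_le_mul_right h8 (by positivity)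
    have h8 : 256 * (k : ℝ) ^ 2 / (θ ^ 2 * ω ^ 8) ≤ (σ * k) ^ 2 := by
      rw [div_le_iff₀ (by positivity)] at h2 ⊢
      calc 256 * (k : ℝ) ^ 2 ≤ (ω ^ 8 * (θ ^ 2 * σ ^ 2)) * (k : ℝ) ^ 2 := by gcongr
        _ = (σ * k) ^ 2 * (θ ^ 2 * ω ^ 8) := by ring
    exact (pow_le_pow_iff_left₀ hb0 (by positivity) two_ne_zero).1 (h7.trans h8)

end

end Pool.Agent.H25.TK
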