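import Pool.Agent.H25.TK.Grow2

/-!
Most vertices of a sparse environment reach a constant fraction of the graph cheaply.

NOTATION. `n = |V|`, `M = 2^32 = 4^16`, `ρ = √(E/D) / ω^3` (written `r_*`), `r_i = 4^i ρ`,
`x_i = D/8 * M^i`. `Y = {v : ρ < y v}`; by `card_large`
`|Y| <= E/ρ² = D ω^6 = n / ω^10`.

PROOF of `typ_zero`. A vertex `x` with `|ball {x} ρ| < D/8` has fewer than `D/8` neighbours outside
`Y` (a neighbour `w` with `y w <= ρ` is in the ball), so it has at least `D/4` neighbours in `Y`.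
Counting the edges at `Y` (degrees at most `D ω^8`):
`#bad * D/4 <= |Y| D ω^8 <= n D / ω^2`.

PROOF of `typ_step`. Let `Si` be the set of `z` not in `Y` with `|ball {z} r_i| >= x_i` and
`|ball {z} r_{i+1}| < x_{i+1} = M x_i`, where `4 x_{i+1} <= n`. Take a maximal subset `F` of `Si`
with pairwise disjoint balls `ball {x} r_i`, `x ∈ F`. By maximality and `y z <= ρ <= r_i` every
`z ∈ Si` lies in `ball {x} (3 r_i) ⊆ ball {x} r_{i+1}` for some `x ∈ F` (meeting point `v`: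
`x -> v` costs at most `r_i`, `v -> z` costs at most `r_i + y z`, `ball_reverse`), so
`|Si| <= |F| M x_i`. It remains to show `s := |F| x_i <= (M+2)²/(81 κ⁴) * n/ω⁴ / 4^(4i) =: bd`.
For a subset `F' ⊆ F`, nonempty, with `2 |F'| M x_i <= n`: apply `grow_env` to
`S = ∪_{x ∈ F'} ball {x} r_i` (`|S| >= |F'| x_i = s'`, disjointness), `R = 3 r_i`;
`ball S (3 r_i) ⊆ ∪ ball {x} (4 r_i)` has at most `|F'| M x_i = M s'` elements. Result:
`κ² (q4 D)² (q4 s')² 9 r_i² <= (M+2) E`; square it (`(q4 z)^4 = z`):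
`81 κ⁴ D s' r_i⁴ <= (M+2)² E²`, and `r_i⁴ = 4^(4i) E²/(D² ω^12)`, `D ω^12 = n/ω^4`: `s' <= bd`.
If `2|F| M x_i <= n`, use `F' = F`. Otherwise choose `F'` with `n/4 <= |F'| M x_i <= n/2`
(possible as `M x_i <= n/4`): then `n/(4M) <= s' <= bd <= (M+2)²/(81) n /(κω)⁴ <=
(M+2)² n/(81 * 2^96)`, contradiction as `4 M (M+2)² < 81 * 2^96`.

PROOF of `typical`. Let `bad = bad_0 ∪ Y ∪ ⋃_i Si` over the `i` with `4 x_{i+1} <= n`; its size is
at most `4n/ω² + n/ω^10 + M (M+2)²/(81 κ⁴) n/ω⁴ * Σ 4^(-4i) <= n/4` (`κ ω >= 2^24`, `κ <= 1`,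
`M (M+2)² <= 2^96 * 1.01`). For `x` not bad, `|ball {x} r_i| >= x_i` for all `i` with
`4 x_i <= n` (induction). Let `i` be the largest with `4 x_i <= n` (`i = 0` is allowed as
`D/2 <= n`): `n < 4 x_{i+1} = 4 M x_i`, so `|ball {x} r_i| >= x_i > n/(4M) = n/2^34`, and
`(4^i)^16 = M^i <= 2 n/D = 2 ω^16 <= (2 ω)^16`, so `4^i <= 2 ω` and
`r_i <= 2 ω ρ = 2/ω² √(E/D)`.
-/

namespace Pool.Agent.H25.TK

open Finset
open scoped Classical

noncomputable section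

variable {V : Type} [Fintype V] {G : SimpleGraph V} {y : V → ℝ} {D κ E ω : ℝ}

private lemma typ_rho_pos (hG : Env G D κ) (hE0 : 0 < E) (hω : 1 ≤ ω) :
    0 < √(E / D) / ω ^ 3 := by
  have hD := hG.Dpos
  have h1 : 0 < E / D := div_pos hE0 (by linarith)
  have h2 : 0 < √(E / D) := Real.sqrt_pos.mpr h1
  have h3 : 0 < ω := by linarith
  positivity

private lemma typ_rho_sq (hG : Env G D κ) (hE0 : 0 < E) (hω : 1 ≤ ω) :
    (√(E / D) / ω ^ 3) ^ 2 = E / (D * ω ^ 6) := by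
  have hD := hG.Dpos
  have h1 : 0 < E / D := div_pos hE0 (by linarith)
  have h3 : 0 < ω := by linarith
  have h4 : 0 < D := by linarith
  rw [div_pow, Real.sq_sqrt h1.le]
  field_simp

private lemma typ_card_Y (hG : Env G D κ) (hy : ∀ v, 0 ≤ y v) (hE : ∑ v, y v ^ 2 ≤ E)
    (hE0 : 0 < E) (hω : 1 ≤ ω) :
    ((univ.filter (fun v => √(E / D) / ω ^ 3 < y v)).card : ℝ) ≤ D * ω ^ 6 := by
  have h := card_large hy hE (typ_rho_pos hG hE0 hω)
  rw [typ_rho_sq hG hE0 hω] at h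
  have hD := hG.Dpos
  have h3 : 0 < ω := by linarith
  have h4 : 0 < D := by linarith
  have h5 : 0 < D * ω ^ 6 := by positivity
  rw [mul_div_assoc', div_le_iff₀ h5] at h
  have h6 : ((univ.filter (fun v => √(E / D) / ω ^ 3 < y v)).card : ℝ) * E ≤ (D * ω ^ 6) * E := by
    linarith
  exact le_of_mul_le_mul_right h6 hE0

lemma typ_zero (hG : Env G D κ) (hy : ∀ v, 0 ≤ y v) (hE : ∑ v, y v ^ 2 ≤ E) (hE0 : 0 < E)
    (hω : 1 ≤ ω) (hn : ω ^ 16 * D = Fintype.card V)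
    (hdeg : ∀ v, ((nb G v).card : ℝ) ≤ D * ω ^ 8) :
    ((univ.filter (fun x => ((ball G y {x} (√(E / D) / ω ^ 3)).card : ℝ) < D / 8)).card : ℝ) ≤
      4 * Fintype.card V / ω ^ 2 := by
  set ρ := √(E / D) / ω ^ 3 with hρ
  have hρ0 : 0 < ρ := typ_rho_pos hG hE0 hω
  set Y := univ.filter (fun v => ρ < y v) with hY
  set B := univ.filter (fun x => ((ball G y {x} ρ).card : ℝ) < D / 8) with hB
  have hYc : (Y.card : ℝ) ≤ D * ω ^ 6 := typ_card_Y hG hy hE hE0 hω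
  have hD := hG.Dpos
  have hD0 : 0 < D := by linarith
  have hω0 : 0 < ω := by linarith
  have h1 : ∀ x ∈ B, D / 4 ≤ ((Y.filter (fun v => G.Adj x v)).card : ℝ) := by
    intro x hx
    have hx' : ((ball G y {x} ρ).card : ℝ) < D / 8 := by
      rw [hB, mem_filter] at hx
      exact hx.2
    have h2 : nb G x ⊆ (Y.filter (fun v => G.Adj x v)) ∪ ball G y {x} ρ := by
      intro w hw
      have hadj : G.Adj x w := by simpa [nb] using hw
      by_cases hwY : ρ < y w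
      · exact mem_union_left _ (mem_filter.mpr ⟨mem_filter.mpr ⟨mem_univ _, hwY⟩, hadj⟩)
      · refine mem_union_right _ ?_
        have h3 : x ∈ ball G y {x} 0 := subset_ball le_rfl (mem_singleton_self x)
        have h4 := ball_step h3 hadj
        rw [zero_add] at h4
        exact ball_mono (subset_refl _) (not_lt.mp hwY) h4
    have h5 : ((nb G x).card : ℝ) ≤
        ((Y.filter (fun v => G.Adj x v)).card : ℝ) + ((ball G y {x} ρ).card : ℝ) := by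
      have := (card_le_card h2).trans (card_union_le _ _)
      exact_mod_cast this
    have h6 := hG.deg x
    linarith
  have h2 : (B.card : ℝ) * (D / 4) ≤ ∑ x ∈ B, ((Y.filter (fun v => G.Adj x v)).card : ℝ) := by
    rw [← nsmul_eq_mul]
    exact card_nsmul_le_sum _ _ _ h1
  have h3 : ∑ x ∈ B, (Y.filter (fun v => G.Adj x v)).card =
      ∑ v ∈ Y, (B.filter (fun x => G.Adj x v)).card :=
    sum_card_bipartiteAbove_eq_sum_card_bipartiteBelow (fun x v => G.Adj x v)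
  have h4 : ∀ v ∈ Y, ((B.filter (fun x => G.Adj x v)).card : ℝ) ≤ D * ω ^ 8 := by
    intro v _
    refine le_trans ?_ (hdeg v)
    have : B.filter (fun x => G.Adj x v) ⊆ nb G v := by
      intro x hx
      have := (mem_filter.mp hx).2
      simpa [nb] using this.symm
    exact_mod_cast card_le_card this
  have h5 : ∑ x ∈ B, ((Y.filter (fun v => G.Adj x v)).card : ℝ) ≤ (Y.card : ℝ) * (D * ω ^ 8) := by
    have h6 : ∑ x ∈ B, ((Y.filter (fun v => G.Adj x v)).card : ℝ) =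
        ∑ v ∈ Y, ((B.filter (fun x => G.Adj x v)).card : ℝ) := by
      exact_mod_cast h3
    rw [h6, ← nsmul_eq_mul]
    exact sum_le_card_nsmul _ _ _ h4
  have h6 : (B.card : ℝ) * (D / 4) ≤ (D * ω ^ 6) * (D * ω ^ 8) := by
    refine (h2.trans h5).trans ?_
    exact mul_le_mul_of_nonneg_right hYc (by positivity)
  have h7 : (B.card : ℝ) ≤ 4 * D * ω ^ 14 := by
    have h8 : (B.card : ℝ) * (D / 4) ≤ (4 * D * ω ^ 14) * (D / 4) := by
      refine h6.trans (le_of_eq ?_)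
      ring
    exact le_of_mul_le_mul_right h8 (by positivity)
  rw [← hn]
  refine h7.trans (le_of_eq ?_)
  field_simp

/-- maximal subfamily with pairwise disjoint balls -/
private lemma typ_max (S : Finset V) (B : V → Finset V) :
    ∃ F ⊆ S, (∀ x ∈ F, ∀ z ∈ F, x ≠ z → Disjoint (B x) (B z)) ∧
      ∀ z ∈ S, z ∈ F ∨ ∃ x ∈ F, ¬ Disjoint (B x) (B z) := by
  have hne : (S.powerset.filter
      (fun F => ∀ x ∈ F, ∀ z ∈ F, x ≠ z → Disjoint (B x) (B z))).Nonempty := by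
    refine ⟨∅, mem_filter.mpr ⟨empty_mem_powerset _, ?_⟩⟩
    intro x hx
    exact absurd hx (notMem_empty x)
  obtain ⟨F, hF, hmax⟩ := exists_max_image _ Finset.card hne
  obtain ⟨hF1, hF2⟩ := mem_filter.mp hF
  refine ⟨F, mem_powerset.mp hF1, hF2, ?_⟩
  intro z hz
  by_contra hcon
  rw [not_or] at hcon
  obtain ⟨hzF, hd'⟩ := hcon
  have hd : ∀ x ∈ F, Disjoint (B x) (B z) := by
    intro x hx
    by_contra h
    exact hd' ⟨x, hx, h⟩
  have h1 : insert z F ∈ S.powerset.filter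
      (fun F => ∀ x ∈ F, ∀ z ∈ F, x ≠ z → Disjoint (B x) (B z)) := by
    refine mem_filter.mpr ⟨mem_powerset.mpr ?_, ?_⟩
    · exact insert_subset hz (mem_powerset.mp hF1)
    · intro a ha b hb hab
      rw [mem_insert] at ha hb
      rcases ha with rfl | ha <;> rcases hb with rfl | hb
      · exact absurd rfl hab
      · exact (hd b hb).symm
      · exact hd a ha
      · exact hF2 a ha b hb hab
  have h2 := hmax _ h1
  rw [card_insert_of_notMem hzF] at h2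
  omega

/-- The energy bound for a family of disjoint balls. -/
private lemma typ_fam (hG : Env G D κ) (hy : ∀ v, 0 ≤ y v) (hE : ∑ v, y v ^ 2 ≤ E) (hE0 : 0 < E)
    (hω : 1 ≤ ω) (i : ℕ) (F : Finset V) (hF : F.Nonempty)
    (hdis : ∀ x ∈ F, ∀ z ∈ F, x ≠ z →
      Disjoint (ball G y {x} (4 ^ i * (√(E / D) / ω ^ 3)))
        (ball G y {z} (4 ^ i * (√(E / D) / ω ^ 3))))
    (hlow : ∀ x ∈ F, D / 8 * (2 ^ 32) ^ i ≤ ((ball G y {x} (4 ^ i * (√(E / D) / ω ^ 3))).card : ℝ))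
    (hup : ∀ x ∈ F, ((ball G y {x} (4 ^ (i + 1) * (√(E / D) / ω ^ 3))).card : ℝ) <
          D / 8 * (2 ^ 32) ^ (i + 1))
    (h2 : 2 * ((F.card : ℝ) * (D / 8 * (2 ^ 32) ^ (i + 1))) ≤ Fintype.card V) :
    (F.card : ℝ) * (D / 8 * (2 ^ 32) ^ i) ≤
      (2 ^ 32 + 2) ^ 2 / (81 * κ ^ 4) * (D * ω ^ 12) / 4 ^ (4 * i) := by
  have hD := hG.Dpos
  have hD0 : 0 < D := by linarith
  have hω0 : 0 < ω := by linarith
  have hκ := hG.kpos
  set ρ := √(E / D) / ω ^ 3 with hρ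
  have hρ0 : 0 < ρ := typ_rho_pos hG hE0 hω
  set r := 4 ^ i * ρ with hr
  have hr0 : 0 < r := by positivity
  have hr1 : (4 : ℝ) ^ (i + 1) * ρ = 4 * r := by rw [hr]; ring
  rw [hr1] at hup
  set xi := D / 8 * (2 ^ 32) ^ i with hxi
  have hxi1 : D / 8 * (2 ^ 32) ^ (i + 1) = 2 ^ 32 * xi := by rw [hxi]; ring
  rw [hxi1] at hup h2
  have hxi0 : D / 8 ≤ xi := by
    rw [hxi]
    have : (1 : ℝ) ≤ (2 ^ 32) ^ i := one_le_pow₀ (by norm_num)
    exact le_mul_of_one_le_right (by positivity) this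
  set S := F.biUnion (fun x => ball G y {x} r) with hS
  set s := (F.card : ℝ) * xi with hs
  have hFc : (1 : ℝ) ≤ F.card := by exact_mod_cast hF.card_pos
  have hs8 : D / 8 ≤ s := by
    rw [hs]
    nlinarith
  have hSc : s ≤ (S.card : ℝ) := by
    rw [hS, card_biUnion (fun x hx z hz hxz => hdis x hx z hz hxz)]
    push_cast
    rw [hs, ← nsmul_eq_mul]
    exact card_nsmul_le_sum _ _ _ hlow
  have hsub : ball G y S (3 * r) ⊆ F.biUnion (fun x => ball G y {x} (4 * r)) := by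
    intro z hz
    rw [mem_ball_iff_single] at hz
    obtain ⟨a, ha, hza⟩ := hz
    rw [hS, mem_biUnion] at ha
    obtain ⟨x, hx, hax⟩ := ha
    rw [mem_biUnion]
    refine ⟨x, hx, ?_⟩
    have h3 : z ∈ ball G y (ball G y {x} r) (3 * r) :=
      ball_mono (singleton_subset_iff.mpr hax) le_rfl hza
    have h4 := ball_ball h3
    have h5 : r + 3 * r = 4 * r := by ring
    rwa [h5] at h4
  have hbc : ((ball G y S (3 * r)).card : ℝ) ≤ 2 ^ 32 * s := by
    have h3 : ((ball G y S (3 * r)).card : ℝ) ≤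
        ((F.biUnion (fun x => ball G y {x} (4 * r))).card : ℝ) := by
      exact_mod_cast card_le_card hsub
    have h4 : ((F.biUnion (fun x => ball G y {x} (4 * r))).card : ℝ) ≤
        ∑ x ∈ F, ((ball G y {x} (4 * r)).card : ℝ) := by
      exact_mod_cast card_biUnion_le
    have h5 : ∑ x ∈ F, ((ball G y {x} (4 * r)).card : ℝ) ≤ (F.card : ℝ) * (2 ^ 32 * xi) := by
      rw [← nsmul_eq_mul]
      exact sum_le_card_nsmul _ _ _ (fun x hx => (hup x hx).le)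
    have h6 : (F.card : ℝ) * (2 ^ 32 * xi) = 2 ^ 32 * s := by rw [hs]; ring
    linarith
  have h2' : 2 * ((ball G y S (3 * r)).card : ℝ) ≤ Fintype.card V := by
    have h6 : (F.card : ℝ) * (2 ^ 32 * xi) = 2 ^ 32 * s := by rw [hs]; ring
    rw [h6] at h2
    linarith
  have hmain := grow_env hG hy hE S (s := s) (R := 3 * r) (M := 2 ^ 32) hs8 hSc (by positivity)
    (by norm_num) h2' hbc
  have hs0 : 0 < s := by linarith
  -- square
  have hsq : (κ ^ 2 * (q4 D) ^ 2 * (q4 s) ^ 2 * (3 * r) ^ 2) ^ 2 ≤ ((2 ^ 32 + 2) * E) ^ 2 := by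
    apply pow_le_pow_left₀ _ hmain
    positivity
  have hq1 : q4 D ^ 4 = D := q4_pow D hD0.le
  have hq2 : q4 s ^ 4 = s := q4_pow s hs0.le
  have hlhs : (κ ^ 2 * (q4 D) ^ 2 * (q4 s) ^ 2 * (3 * r) ^ 2) ^ 2 =
      81 * κ ^ 4 * (q4 D ^ 4) * (q4 s ^ 4) * r ^ 4 := by ring
  rw [hlhs, hq1, hq2] at hsq
  have hρ2 : ρ ^ 2 = E / (D * ω ^ 6) := typ_rho_sq hG hE0 hω
  have hr4 : r ^ 4 = 4 ^ (4 * i) * (E / (D * ω ^ 6)) ^ 2 := by
    rw [hr, mul_pow, ← hρ2, ← pow_mul, ← pow_mul, mul_comm i 4]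
  rw [hr4] at hsq
  have hE2 : 0 < E ^ 2 := by positivity
  have h10 : s * (81 * κ ^ 4 * 4 ^ (4 * i)) * E ^ 2 ≤ ((2 ^ 32 + 2) ^ 2 * (D * ω ^ 12)) * E ^ 2 := by
    have h11 : 81 * κ ^ 4 * D * s * (4 ^ (4 * i) * (E / (D * ω ^ 6)) ^ 2) =
        s * (81 * κ ^ 4 * 4 ^ (4 * i)) * E ^ 2 / (D * ω ^ 12) := by
      field_simp
    rw [h11, div_le_iff₀ (by positivity)] at hsq
    refine hsq.trans (le_of_eq ?_)
    ring
  have h12 := le_of_mul_le_mul_right h10 hE2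
  have h13 : 0 < 81 * κ ^ 4 * 4 ^ (4 * i) := by positivity
  have h14 : s ≤ ((2 ^ 32 + 2) ^ 2 * (D * ω ^ 12)) / (81 * κ ^ 4 * 4 ^ (4 * i)) := by
    rw [le_div_iff₀ h13]
    exact h12
  refine h14.trans (le_of_eq ?_)
  field_simp

private lemma typ_omega (hG : Env G D κ) (hω : 2 ^ 24 / κ ≤ ω) : 2 ^ 24 ≤ ω ∧ 2 ^ 24 ≤ κ * ω := by
  have hκ := hG.kpos
  have hκ1 := hG.kle
  have h1 : 2 ^ 24 ≤ ω * κ := (div_le_iff₀ hκ).mp hω
  constructor
  · have h2 : 0 < ω := by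
      have h3 : (0 : ℝ) < 2 ^ 24 / κ := by positivity
      linarith
    nlinarith
  · linarith

lemma typ_step (hG : Env G D κ) (hy : ∀ v, 0 ≤ y v) (hE : ∑ v, y v ^ 2 ≤ E) (hE0 : 0 < E)
    (hω : 2 ^ 24 / κ ≤ ω) (hn : ω ^ 16 * D = Fintype.card V) (i : ℕ)
    (hi : 4 * (D / 8 * (2 ^ 32) ^ (i + 1)) ≤ Fintype.card V) :
    ((univ.filter (fun x => y x ≤ √(E / D) / ω ^ 3 ∧
        D / 8 * (2 ^ 32) ^ i ≤ ((ball G y {x} (4 ^ i * (√(E / D) / ω ^ 3))).card : ℝ) ∧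
        ((ball G y {x} (4 ^ (i + 1) * (√(E / D) / ω ^ 3))).card : ℝ) <
          D / 8 * (2 ^ 32) ^ (i + 1))).card : ℝ) ≤
      2 ^ 32 * (2 ^ 32 + 2) ^ 2 / (81 * κ ^ 4) * (Fintype.card V / ω ^ 4) / 4 ^ (4 * i) := by
  obtain ⟨hω1, hκω⟩ := typ_omega hG hω
  have hω2 : 1 ≤ ω := by linarith
  have hD := hG.Dpos
  have hD0 : 0 < D := by linarith
  have hω0 : 0 < ω := by linarith
  have hκ := hG.kpos
  set Si := univ.filter (fun x => y x ≤ √(E / D) / ω ^ 3 ∧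
        D / 8 * (2 ^ 32) ^ i ≤ ((ball G y {x} (4 ^ i * (√(E / D) / ω ^ 3))).card : ℝ) ∧
        ((ball G y {x} (4 ^ (i + 1) * (√(E / D) / ω ^ 3))).card : ℝ) <
          D / 8 * (2 ^ 32) ^ (i + 1)) with hSi
  obtain ⟨F, hFS, hFd, hFm⟩ := typ_max Si (fun x => ball G y {x} (4 ^ i * (√(E / D) / ω ^ 3)))
  have hmem : ∀ x ∈ Si, y x ≤ √(E / D) / ω ^ 3 ∧
        D / 8 * (2 ^ 32) ^ i ≤ ((ball G y {x} (4 ^ i * (√(E / D) / ω ^ 3))).card : ℝ) ∧
        ((ball G y {x} (4 ^ (i + 1) * (√(E / D) / ω ^ 3))).card : ℝ) <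
          D / 8 * (2 ^ 32) ^ (i + 1) := fun x hx => (mem_filter.mp hx).2
  set ρ := √(E / D) / ω ^ 3 with hρ
  have hρ0 : 0 < ρ := typ_rho_pos hG hE0 hω2
  have h4i : (1 : ℝ) ≤ 4 ^ i := one_le_pow₀ (by norm_num)
  have hρr : ρ ≤ 4 ^ i * ρ := by nlinarith
  -- covering
  have hcov : Si ⊆ F.biUnion (fun x => ball G y {x} (4 ^ (i + 1) * ρ)) := by
    intro z hz
    rw [mem_biUnion]
    rcases hFm z hz with hzF | ⟨x, hx, hnd⟩
    · exact ⟨z, hzF, subset_ball (by positivity) (mem_singleton_self z)⟩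
    · refine ⟨x, hx, ?_⟩
      rw [Finset.not_disjoint_iff] at hnd
      obtain ⟨v, hv1, hv2⟩ := hnd
      have h3 : z ∈ ball G y {v} (4 ^ i * ρ + y z) := ball_reverse hy hv2
      have h4 : z ∈ ball G y (ball G y {x} (4 ^ i * ρ)) (4 ^ i * ρ + y z) :=
        ball_mono (singleton_subset_iff.mpr hv1) le_rfl h3
      have h5 := ball_ball h4
      refine ball_mono (subset_refl _) ?_ h5
      have h6 := (hmem z hz).1
      have h7 : (4 : ℝ) ^ (i + 1) * ρ = 4 * (4 ^ i * ρ) := by ring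
      rw [h7]
      linarith
  have hM0 : (0 : ℝ) < D / 8 * (2 ^ 32) ^ i := by positivity
  have hcard : (Si.card : ℝ) ≤ (F.card : ℝ) * (D / 8 * (2 ^ 32) ^ (i + 1)) := by
    have h3 : (Si.card : ℝ) ≤
        ((F.biUnion (fun x => ball G y {x} (4 ^ (i + 1) * ρ))).card : ℝ) := by
      exact_mod_cast card_le_card hcov
    have h4 : ((F.biUnion (fun x => ball G y {x} (4 ^ (i + 1) * ρ))).card : ℝ) ≤
        ∑ x ∈ F, ((ball G y {x} (4 ^ (i + 1) * ρ)).card : ℝ) := by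
      exact_mod_cast card_biUnion_le
    have h5 : ∑ x ∈ F, ((ball G y {x} (4 ^ (i + 1) * ρ)).card : ℝ) ≤
        (F.card : ℝ) * (D / 8 * (2 ^ 32) ^ (i + 1)) := by
      rw [← nsmul_eq_mul]
      exact sum_le_card_nsmul _ _ _ (fun x hx => (hmem x (hFS hx)).2.2.le)
    linarith
  -- the bound for families
  have hfam : ∀ F' ⊆ F, F'.Nonempty →
      2 * ((F'.card : ℝ) * (D / 8 * (2 ^ 32) ^ (i + 1))) ≤ Fintype.card V →
      (F'.card : ℝ) * (D / 8 * (2 ^ 32) ^ i) ≤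
      (2 ^ 32 + 2) ^ 2 / (81 * κ ^ 4) * (D * ω ^ 12) / 4 ^ (4 * i) := by
    intro F' hF' hne h2
    exact typ_fam hG hy hE hE0 hω2 i F' hne
      (fun x hx z hz hxz => hFd x (hF' hx) z (hF' hz) hxz)
      (fun x hx => (hmem x (hFS (hF' hx))).2.1)
      (fun x hx => (hmem x (hFS (hF' hx))).2.2) h2
  have hDn : D * ω ^ 12 = Fintype.card V / ω ^ 4 := by
    rw [← hn]
    field_simp
  have hgoal : ∀ t : ℝ, t * (D / 8 * (2 ^ 32) ^ i) ≤
      (2 ^ 32 + 2) ^ 2 / (81 * κ ^ 4) * (D * ω ^ 12) / 4 ^ (4 * i) →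
      t * (D / 8 * (2 ^ 32) ^ (i + 1)) ≤
      2 ^ 32 * (2 ^ 32 + 2) ^ 2 / (81 * κ ^ 4) * (Fintype.card V / ω ^ 4) / 4 ^ (4 * i) := by
    intro t ht
    rw [hDn] at ht
    have h3 : t * (D / 8 * (2 ^ 32) ^ (i + 1)) = 2 ^ 32 * (t * (D / 8 * (2 ^ 32) ^ i)) := by ring
    have h4 : 2 ^ 32 * (2 ^ 32 + 2) ^ 2 / (81 * κ ^ 4) * (Fintype.card V / ω ^ 4) / 4 ^ (4 * i) =
        2 ^ 32 * ((2 ^ 32 + 2) ^ 2 / (81 * κ ^ 4) * (Fintype.card V / ω ^ 4) / 4 ^ (4 * i)) := by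
      ring
    rw [h3, h4]
    exact mul_le_mul_of_nonneg_left ht (by norm_num)
  refine hcard.trans ?_
  rcases F.eq_empty_or_nonempty with hFe | hFne
  · rw [hFe]
    simp only [card_empty, Nat.cast_zero, zero_mul]
    positivity
  by_cases hsmall : 2 * ((F.card : ℝ) * (D / 8 * (2 ^ 32) ^ (i + 1))) ≤ Fintype.card V
  · exact hgoal _ (hfam F (subset_refl _) hFne hsmall)
  · exfalso
    rw [not_le] at hsmall
    set X := D / 8 * (2 ^ 32) ^ (i + 1) with hX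
    have hX0 : 0 < X := by positivity
    set N := (Fintype.card V : ℝ) with hN
    have hN0 : 0 < N := by linarith
    set m := ⌊N / (2 * X)⌋₊ with hm
    have hq0 : 0 ≤ N / (2 * X) := by positivity
    have hm1 : (m : ℝ) ≤ N / (2 * X) := Nat.floor_le hq0
    have hm2 : N / (2 * X) < (m : ℝ) + 1 := Nat.lt_floor_add_one _
    have hm1' : 2 * (m * X) ≤ N := by
      rw [le_div_iff₀ (by positivity)] at hm1
      linarith
    have hm2' : N < 2 * ((m + 1) * X) := by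
      rw [div_lt_iff₀ (by positivity)] at hm2
      linarith
    have hmF : m ≤ F.card := by
      have h3 : (m : ℝ) * X < (F.card : ℝ) * X := by linarith
      have h4 : (m : ℝ) < F.card := lt_of_mul_lt_mul_right h3 hX0.le
      exact_mod_cast h4.le
    obtain ⟨F', hF', hFc⟩ := exists_subset_card_eq hmF
    have hmX : N / 4 < m * X := by linarith
    have hmpos : 0 < m := by
      rcases Nat.eq_zero_or_pos m with h0 | h0
      · rw [h0] at hmX
        simp only [Nat.cast_zero, zero_mul] at hmX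
        linarith
      · exact h0
    have hne : F'.Nonempty := by
      rw [← card_pos, hFc]
      exact hmpos
    have h3 := hfam F' hF' hne (by rw [hFc]; exact hm1')
    rw [hFc, hDn] at h3
    -- N / (4 M) < m x_i
    have h4 : N / 4 < 2 ^ 32 * ((m : ℝ) * (D / 8 * (2 ^ 32) ^ i)) := by
      have h5 : 2 ^ 32 * ((m : ℝ) * (D / 8 * (2 ^ 32) ^ i)) = m * X := by rw [hX]; ring
      rw [h5]
      exact hmX
    have h5 : (2 ^ 32 + 2) ^ 2 / (81 * κ ^ 4) * (N / ω ^ 4) / 4 ^ (4 * i) ≤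
        (2 ^ 32 + 2) ^ 2 / 81 * N / 2 ^ 96 := by
      have h6 : (1 : ℝ) ≤ 4 ^ (4 * i) := one_le_pow₀ (by norm_num)
      have h7 : (2 : ℝ) ^ 96 ≤ (κ * ω) ^ 4 := by
        have h8 : ((2 : ℝ) ^ 24) ^ 4 ≤ (κ * ω) ^ 4 := pow_le_pow_left₀ (by positivity) hκω 4
        calc (2 : ℝ) ^ 96 = ((2 : ℝ) ^ 24) ^ 4 := by norm_num
          _ ≤ _ := h8
      have h9 : (2 ^ 32 + 2) ^ 2 / (81 * κ ^ 4) * (N / ω ^ 4) / 4 ^ (4 * i) =
          ((2 ^ 32 + 2) ^ 2 / 81 * N) / ((κ * ω) ^ 4 * 4 ^ (4 * i)) := by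
        field_simp
      rw [h9]
      apply div_le_div_of_nonneg_left (by positivity) (by positivity)
      nlinarith
    have h6 : N / 4 < 2 ^ 32 * ((2 ^ 32 + 2) ^ 2 / 81 * N / 2 ^ 96) := by
      refine h4.trans_le ?_
      exact mul_le_mul_of_nonneg_left (h3.trans h5) (by norm_num)
    have h7 : 2 ^ 32 * ((2 ^ 32 + 2) ^ 2 / 81 * N / 2 ^ 96) =
        (2 ^ 32 * ((2 ^ 32 + 2) ^ 2 / 81 / 2 ^ 96)) * N := by ring
    rw [h7] at h6
    have h8 : (2 ^ 32 * ((2 ^ 32 + 2) ^ 2 / 81 / 2 ^ 96) : ℝ) ≤ 1 / 4 := by norm_num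
    have h9 := mul_le_mul_of_nonneg_right h8 hN0.le
    linarith

theorem typical (hG : Env G D κ) (hy : ∀ v, 0 ≤ y v) (hE : ∑ v, y v ^ 2 ≤ E) (hE0 : 0 < E)
    (hω : 2 ^ 24 / κ ≤ ω) (hn : ω ^ 16 * D = Fintype.card V)
    (hdeg : ∀ v, ((nb G v).card : ℝ) ≤ D * ω ^ 8) :
    ((univ.filter (fun x => ((ball G y {x} (2 / ω ^ 2 * √(E / D))).card : ℝ) <
      Fintype.card V / 2 ^ 34)).card : ℝ) ≤ Fintype.card V / 4 := by
  obtain ⟨hω1, hκω⟩ := typ_omega hG hω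
  have hω2 : 1 ≤ ω := by linarith
  have hD := hG.Dpos
  have hD0 : 0 < D := by linarith
  have hω0 : 0 < ω := by linarith
  have hκ := hG.kpos
  have hκ1 := hG.kle
  set N := (Fintype.card V : ℝ) with hN
  have hN0 : 0 < N := by rw [← hn]; positivity
  set ρ := √(E / D) / ω ^ 3 with hρ
  have hρ0 : 0 < ρ := typ_rho_pos hG hE0 hω2
  -- the last scale
  have hex : ∃ i : ℕ, N < 4 * (D / 8 * (2 ^ 32) ^ (i + 1)) := by
    obtain ⟨k, hk⟩ := pow_unbounded_of_one_lt (N / (D / 2)) (by norm_num : (1 : ℝ) < 2 ^ 32)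
    refine ⟨k, ?_⟩
    rw [div_lt_iff₀ (by positivity)] at hk
    have h3 : ((2 : ℝ) ^ 32) ^ k ≤ (2 ^ 32) ^ (k + 1) :=
      pow_le_pow_right₀ (by norm_num) (Nat.le_succ k)
    have h4 : ((2 : ℝ) ^ 32) ^ k * (D / 2) ≤ (2 ^ 32) ^ (k + 1) * (D / 2) :=
      mul_le_mul_of_nonneg_right h3 (by positivity)
    have h5 : 4 * (D / 8 * (2 ^ 32) ^ (k + 1)) = (2 ^ 32) ^ (k + 1) * (D / 2) := by ring
    rw [h5]
    exact hk.trans_le h4
  set I := Nat.find hex with hI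
  have hI1 : N < 4 * (D / 8 * (2 ^ 32) ^ (I + 1)) := Nat.find_spec hex
  have hI2 : ∀ i < I, 4 * (D / 8 * (2 ^ 32) ^ (i + 1)) ≤ N := fun i hi =>
    not_lt.mp (Nat.find_min hex hi)
  have hI3 : 4 * (D / 8 * (2 ^ 32) ^ I) ≤ N := by
    rcases Nat.eq_zero_or_pos I with h0 | h0
    · rw [h0, pow_zero, ← hn]
      have h3 : 1 ≤ ω ^ 16 := one_le_pow₀ hω2
      nlinarith
    · have h3 := hI2 (I - 1) (by omega)
      have h4 : I - 1 + 1 = I := by omega
      rwa [h4] at h3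
  -- radius
  have hrad : 4 ^ I * ρ ≤ 2 / ω ^ 2 * √(E / D) := by
    have h3 : ((4 : ℝ) ^ I) ^ 16 ≤ (2 * ω) ^ 16 := by
      have h4 : ((4 : ℝ) ^ I) ^ 16 = (2 ^ 32) ^ I := by
        rw [← pow_mul, mul_comm, pow_mul]
        norm_num
      rw [h4, mul_pow]
      rw [← hn] at hI3
      have h5 : (2 ^ 32 : ℝ) ^ I * (D / 2) ≤ (2 * ω ^ 16) * (D / 2) := by
        calc (2 ^ 32 : ℝ) ^ I * (D / 2) = 4 * (D / 8 * (2 ^ 32) ^ I) := by ring
          _ ≤ ω ^ 16 * D := hI3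
          _ = (2 * ω ^ 16) * (D / 2) := by ring
      have h6 := le_of_mul_le_mul_right h5 (by positivity)
      have h7 : 0 < ω ^ 16 := by positivity
      have h8 : (2 : ℝ) * ω ^ 16 ≤ 2 ^ 16 * ω ^ 16 := by nlinarith
      linarith
    have h4 : (4 : ℝ) ^ I ≤ 2 * ω := le_of_pow_le_pow_left₀ (by norm_num) (by positivity) h3
    have h5 : 4 ^ I * ρ ≤ (2 * ω) * ρ := mul_le_mul_of_nonneg_right h4 hρ0.le
    refine h5.trans (le_of_eq ?_)
    rw [hρ]
    field_simp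
  set Y := univ.filter (fun v => ρ < y v) with hY
  set B0 := univ.filter (fun x => ((ball G y {x} ρ).card : ℝ) < D / 8) with hB0
  set Si : ℕ → Finset V := fun i => univ.filter (fun x => y x ≤ ρ ∧
        D / 8 * (2 ^ 32) ^ i ≤ ((ball G y {x} (4 ^ i * ρ)).card : ℝ) ∧
        ((ball G y {x} (4 ^ (i + 1) * ρ)).card : ℝ) <
          D / 8 * (2 ^ 32) ^ (i + 1)) with hSi
  have hsub : univ.filter (fun x => ((ball G y {x} (2 / ω ^ 2 * √(E / D))).card : ℝ) <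
      N / 2 ^ 34) ⊆ (B0 ∪ Y) ∪ (range I).biUnion Si := by
    intro x hx
    by_contra hcon
    rw [mem_union, mem_union, not_or, not_or] at hcon
    obtain ⟨⟨hx0, hxY⟩, hxS⟩ := hcon
    have hx0' : D / 8 ≤ ((ball G y {x} ρ).card : ℝ) := by
      by_contra h
      exact hx0 (mem_filter.mpr ⟨mem_univ _, not_le.mp h⟩)
    have hxY' : y x ≤ ρ := by
      by_contra h
      exact hxY (mem_filter.mpr ⟨mem_univ _, not_le.mp h⟩)
    have hind : ∀ i, i ≤ I → D / 8 * (2 ^ 32) ^ i ≤ ((ball G y {x} (4 ^ i * ρ)).card : ℝ) := by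
      intro i
      induction i with
      | zero =>
        intro _
        simpa using hx0'
      | succ i ih =>
        intro hi
        have h3 := ih (by omega)
        by_contra h
        apply hxS
        rw [mem_biUnion]
        exact ⟨i, mem_range.mpr (by omega), mem_filter.mpr ⟨mem_univ _, hxY', h3, not_le.mp h⟩⟩
    have h3 := hind I le_rfl
    have h4 : ((ball G y {x} (4 ^ I * ρ)).card : ℝ) ≤
        ((ball G y {x} (2 / ω ^ 2 * √(E / D))).card : ℝ) := by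
      exact_mod_cast card_le_card (ball_mono (subset_refl _) hrad)
    have h5 : ((ball G y {x} (2 / ω ^ 2 * √(E / D))).card : ℝ) < N / 2 ^ 34 :=
      (mem_filter.mp hx).2
    have h6 : D / 8 * (2 ^ 32) ^ I < N / 2 ^ 34 := by linarith
    rw [lt_div_iff₀ (by positivity)] at h6
    have h7 : 4 * (D / 8 * (2 ^ 32) ^ (I + 1)) = D / 8 * (2 ^ 32) ^ I * 2 ^ 34 := by ring
    rw [h7] at hI1
    linarith
  have hc1 : (B0.card : ℝ) ≤ 4 * N / ω ^ 2 := typ_zero hG hy hE hE0 hω2 hn hdeg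
  have hc2 : (Y.card : ℝ) ≤ D * ω ^ 6 := typ_card_Y hG hy hE hE0 hω2
  set K := 2 ^ 32 * (2 ^ 32 + 2) ^ 2 / (81 * κ ^ 4) * (N / ω ^ 4) with hK
  have hK0 : 0 ≤ K := by positivity
  have hc3 : ∀ i ∈ range I, ((Si i).card : ℝ) ≤ K / 4 ^ (4 * i) := by
    intro i hi
    exact typ_step hG hy hE hE0 hω hn i (hI2 i (mem_range.mp hi))
  have hsum : ∑ i ∈ range I, K / 4 ^ (4 * i) ≤ 2 * K := by
    have h3 : ∀ J : ℕ, ∑ i ∈ range J, K / 4 ^ (4 * i) ≤ 2 * K - 2 * (K / 4 ^ (4 * J)) := by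
      intro J
      induction J with
      | zero => simp
      | succ J ih =>
        rw [sum_range_succ]
        have h4 : K / 4 ^ (4 * (J + 1)) = K / 4 ^ (4 * J) / 256 := by
          rw [div_div]
          congr 1
          rw [mul_add, pow_add]
          norm_num
        rw [h4]
        have h5 : 0 ≤ K / 4 ^ (4 * J) := by positivity
        linarith
    have h6 := h3 I
    have h7 : 0 ≤ K / 4 ^ (4 * I) := by positivity
    linarith
  have hKb : K ≤ N / 80 := by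
    have h7 : (2 : ℝ) ^ 96 ≤ (κ * ω) ^ 4 := by
      have h8 : ((2 : ℝ) ^ 24) ^ 4 ≤ (κ * ω) ^ 4 := pow_le_pow_left₀ (by positivity) hκω 4
      calc (2 : ℝ) ^ 96 = ((2 : ℝ) ^ 24) ^ 4 := by norm_num
        _ ≤ _ := h8
    have h9 : K = (2 ^ 32 * (2 ^ 32 + 2) ^ 2 / 81 * N) / ((κ * ω) ^ 4) := by
      rw [hK]
      field_simp
    rw [h9]
    have h10 : (2 ^ 32 * (2 ^ 32 + 2) ^ 2 / 81 * N) / ((κ * ω) ^ 4) ≤
        (2 ^ 32 * (2 ^ 32 + 2) ^ 2 / 81 * N) / 2 ^ 96 :=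
      div_le_div_of_nonneg_left (by positivity) (by positivity) h7
    refine h10.trans ?_
    have h11 : (2 ^ 32 * (2 ^ 32 + 2) ^ 2 / 81 * N) / 2 ^ 96 =
        (2 ^ 32 * (2 ^ 32 + 2) ^ 2 / 81 / 2 ^ 96) * N := by ring
    rw [h11]
    have h12 : (2 ^ 32 * (2 ^ 32 + 2) ^ 2 / 81 / 2 ^ 96 : ℝ) ≤ 1 / 80 := by norm_num
    have h13 := mul_le_mul_of_nonneg_right h12 hN0.le
    linarith
  have hω48 : (2 : ℝ) ^ 48 ≤ ω ^ 2 := by
    have h8 : ((2 : ℝ) ^ 24) ^ 2 ≤ ω ^ 2 := pow_le_pow_left₀ (by positivity) hω1 2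
    calc (2 : ℝ) ^ 48 = ((2 : ℝ) ^ 24) ^ 2 := by norm_num
      _ ≤ _ := h8
  have hB : 4 * N / ω ^ 2 ≤ N / 100 := by
    have h3 : 4 * N / ω ^ 2 ≤ 4 * N / 2 ^ 48 :=
      div_le_div_of_nonneg_left (by positivity) (by positivity) hω48
    have h4 : 4 * N / 2 ^ 48 = (4 / 2 ^ 48) * N := by ring
    have h5 : (4 / 2 ^ 48 : ℝ) ≤ 1 / 100 := by norm_num
    have h6 := mul_le_mul_of_nonneg_right h5 hN0.le
    linarith
  have hYb : D * ω ^ 6 ≤ N / 100 := by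
    have h3 : D * ω ^ 6 * 100 ≤ N := by
      rw [← hn]
      have h4 : (100 : ℝ) ≤ ω ^ 10 := by
        have h5 : ω ^ 2 ≤ ω ^ 10 := pow_le_pow_right₀ hω2 (by norm_num)
        have h6 : (100 : ℝ) ≤ 2 ^ 48 := by norm_num
        linarith
      have h5 : 0 ≤ D * ω ^ 6 := by positivity
      have h6 := mul_le_mul_of_nonneg_left h4 h5
      have h7 : D * ω ^ 6 * ω ^ 10 = ω ^ 16 * D := by ring
      linarith
    linarith
  have hcard : ((univ.filter (fun x => ((ball G y {x} (2 / ω ^ 2 * √(E / D))).card : ℝ) <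
      N / 2 ^ 34)).card : ℝ) ≤ (B0.card : ℝ) + Y.card + ∑ i ∈ range I, ((Si i).card : ℝ) := by
    have h3 := card_le_card hsub
    have h4 := card_union_le (B0 ∪ Y) ((range I).biUnion Si)
    have h5 := card_union_le B0 Y
    have h6 : ((range I).biUnion Si).card ≤ ∑ i ∈ range I, (Si i).card := card_biUnion_le
    have h7 : (univ.filter (fun x => ((ball G y {x} (2 / ω ^ 2 * √(E / D))).card : ℝ) <
      N / 2 ^ 34)).card ≤ B0.card + Y.card + ∑ i ∈ range I, (Si i).card := by omega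
    exact_mod_cast h7
  have hs3 := sum_le_sum hc3
  linarith

end

end Pool.Agent.H25.TK
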