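import Pool.Agent.H25.TK.TermA
import Pool.Agent.H25.TK.Typ

/-!
Few terminal sets with many light vertices fail to reach a constant fraction of the graph.

PROOF of `termB`. Let `I` be the set of the bad `i` and suppose `b = |I| > σ k`. For `i ∈ I` let
`P i = {w ∈ Nb i : y w <= θ √(E/D)}`, `|P i| >= D/8`; `S = ⋃_{i ∈ I} P i`,
`Z = Σ_{i ∈ I} |P i| >= b D/8`. `codeg_cs` with `T = S`: `Z² <= |S| (C + Z)`,
`C = 8k²D/ω^8`; so `|S| >= Z²/(C+Z) >= min (Z/2, Z²/(2C)) >= min (bD/16, b² D ω^8/(1024 k²)) >=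
D α⁴` (`b > σk`, hypotheses on `α`). Put `s = D α⁴` if `α⁴ >= 1/8`; the hypothesis `1 <= α` gives
`s >= D >= D/8`. `grow_half`: `ball S (14 √E/(κ q4 D q4 s))` has more than `n/2` elements and
`q4 D * q4 (D α⁴) = √D α` (`q4_mul`), so the radius is `14/(κ α) √(E/D)`. By `typical` at most
`n/4` vertices are not typical, so some `x` of this ball is typical: there are `i ∈ I`, `w ∈ P i`
with `x ∈ ball {w} (14/(κα) √(E/D))`, so
`ball {x} (2/ω² √(E/D)) ⊆ cball (Nb i) ((θ + 14/(κα) + 2/ω²) √(E/D))` (`ball_ball`,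
`ball_subset_cball`), which has at least `n/2^34` elements: `i` is not bad, contradiction.
-/

namespace Pool.Agent.H25.TK

open Finset
open scoped Classical

noncomputable section

variable {V : Type} [Fintype V] {G : SimpleGraph V} {y : V → ℝ} {D κ E ω θ σ α : ℝ} {k : ℕ}

theorem termB (hG : Env G D κ) (hy : ∀ v, 0 ≤ y v) (hE : ∑ v, y v ^ 2 ≤ E) (hE0 : 0 < E)
    (hω : 2 ^ 24 / κ ≤ ω) (hn : ω ^ 16 * D = Fintype.card V)
    (hdeg : ∀ v, ((nb G v).card : ℝ) ≤ D * ω ^ 8)
    (Nb : Fin k → Finset V)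
    (hC : ∑ i, ∑ j ∈ univ.erase i, ((Nb i ∩ Nb j).card : ℝ) ≤ 8 * k ^ 2 * D / ω ^ 8)
    (hθ : 0 < θ) (hσ : 0 < σ) (hα : 1 ≤ α)
    (h1 : α ^ 4 ≤ σ * k / 128) (h2 : α ^ 4 ≤ σ ^ 2 * ω ^ 8 / 1024) :
    ((univ.filter (fun i =>
        D / 8 ≤ (((Nb i).filter (fun w => y w ≤ θ * √(E / D))).card : ℝ) ∧
        ((cball G y (Nb i) ((θ + 14 / (κ * α) + 2 / ω ^ 2) * √(E / D))).card : ℝ) <
          Fintype.card V / 2 ^ 34)).card : ℝ) ≤ σ * k := by
  have hD : 1 ≤ D := hG.Dpos
  have hD0 : 0 < D := by linarith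
  have hκ : 0 < κ := hG.kpos
  have hω1 : 1 ≤ ω := by
    refine le_trans ?_ hω
    rw [le_div_iff₀ hκ, one_mul]
    exact hG.kle.trans (by norm_num)
  have hω0 : 0 < ω := by linarith
  have hα0 : 0 < α := by linarith
  set I : Finset (Fin k) := univ.filter (fun i =>
        D / 8 ≤ (((Nb i).filter (fun w => y w ≤ θ * √(E / D))).card : ℝ) ∧
        ((cball G y (Nb i) ((θ + 14 / (κ * α) + 2 / ω ^ 2) * √(E / D))).card : ℝ) <
          Fintype.card V / 2 ^ 34) with hI
  by_contra hcon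
  push Not at hcon
  set b : ℝ := (I.card : ℝ) with hb
  set t : ℝ := θ * √(E / D) with ht
  have hk0 : (0 : ℝ) ≤ k := Nat.cast_nonneg _
  have hbpos : 0 < b := lt_of_le_of_lt (by positivity) hcon
  have hk : (0 : ℝ) < k := by
    rcases hk0.lt_or_eq with h | h
    · exact h
    · exfalso
      have h3 : k = 0 := by exact_mod_cast h.symm
      subst h3
      have : I.card = 0 := by
        rw [Finset.card_eq_zero]
        apply Finset.eq_empty_of_forall_notMem
        intro i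
        exact i.elim0
      rw [hb, this] at hbpos
      simp at hbpos
  let P : Fin k → Finset V := fun i => (Nb i).filter (fun w => y w ≤ t)
  let S : Finset V := I.biUnion P
  set Z : ℝ := ∑ i ∈ I, ((P i).card : ℝ) with hZ
  have hPc : ∀ i ∈ I, D / 8 ≤ ((P i).card : ℝ) := fun i hi => (Finset.mem_filter.1 hi).2.1
  have hZb : b * (D / 8) ≤ Z := by
    rw [hb, hZ, ← nsmul_eq_mul, ← Finset.sum_const]
    exact Finset.sum_le_sum hPc
  have hcs := codeg_cs Nb P I S (fun i _ => Finset.filter_subset _ _)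
    (fun i hi => Finset.subset_biUnion_of_mem P hi) _ hC
  rw [← hZ] at hcs
  have hZ0 : 0 < Z := lt_of_lt_of_le (by positivity) hZb
  have hS0 : (0 : ℝ) ≤ S.card := Nat.cast_nonneg _
  have hSα : D * α ^ 4 ≤ (S.card : ℝ) := by
    by_cases hcase : Z ≤ 8 * k ^ 2 * D / ω ^ 8
    · have h3 : Z ^ 2 ≤ S.card * (16 * k ^ 2 * D / ω ^ 8) := by
        refine hcs.trans ?_
        gcongr
        calc 8 * (k : ℝ) ^ 2 * D / ω ^ 8 + Z ≤ 8 * (k : ℝ) ^ 2 * D / ω ^ 8 + 8 * k ^ 2 * D / ω ^ 8 := by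
              gcongr
          _ = _ := by ring
      have h4 : (σ * k * (D / 8)) ^ 2 ≤ S.card * (16 * k ^ 2 * D / ω ^ 8) := by
        refine le_trans ?_ h3
        refine pow_le_pow_left₀ (by positivity) ?_ 2
        refine le_trans ?_ hZb
        gcongr
      have h5 : (D * (σ ^ 2 * ω ^ 8 / 1024)) * (16 * k ^ 2 * D / ω ^ 8) ≤
          S.card * (16 * k ^ 2 * D / ω ^ 8) := by
        refine le_trans (le_of_eq ?_) h4
        field_simp
        ring
      have h6 : D * (σ ^ 2 * ω ^ 8 / 1024) ≤ S.card :=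
        le_of_mul_le_mul_right h5 (by positivity)
      refine le_trans ?_ h6
      gcongr
    · push Not at hcase
      have h3 : Z ^ 2 ≤ S.card * (2 * Z) := by
        refine hcs.trans ?_
        gcongr
        linarith
      have h4 : Z ≤ 2 * S.card := by nlinarith
      have h5 : σ * k * (D / 8) ≤ 2 * S.card := by
        refine le_trans ?_ h4
        refine le_trans ?_ hZb
        gcongr
      have h6 : D * α ^ 4 ≤ D * (σ * k / 128) := by gcongr
      nlinarith
  have hα4 : (1 : ℝ) ≤ α ^ 4 := one_le_pow₀ hα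
  have hs : D / 8 ≤ D * α ^ 4 := by nlinarith
  have hgrow := grow_half hG hy hE hE0 S hs hSα
  -- the radius
  have hq : q4 D * q4 (D * α ^ 4) = √D * α := by
    rw [q4_mul D (α ^ 4) hD0.le]
    have h3 : q4 D * q4 D = √D := by
      unfold q4
      exact Real.mul_self_sqrt (Real.sqrt_nonneg _)
    have h4 : q4 (α ^ 4) = α := by
      unfold q4
      rw [show α ^ 4 = (α ^ 2) ^ 2 by ring, Real.sqrt_sq (by positivity), Real.sqrt_sq hα0.le]
    rw [← mul_assoc, h3, h4]
  have hrad : 14 * √E / (κ * (q4 D * q4 (D * α ^ 4))) = 14 / (κ * α) * √(E / D) := by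
    rw [hq, Real.sqrt_div hE0.le]
    have : 0 < √D := Real.sqrt_pos.2 hD0
    field_simp
  rw [hrad] at hgrow
  set r : ℝ := 14 / (κ * α) * √(E / D) with hr
  set r' : ℝ := 2 / ω ^ 2 * √(E / D) with hr'
  have htyp := typical hG hy hE hE0 hω hn hdeg
  have hnpos : (0 : ℝ) < Fintype.card V := by rw [← hn]; positivity
  -- a typical vertex in the ball
  obtain ⟨x, hx1, hx2⟩ : ∃ x ∈ ball G y S r,
      (Fintype.card V : ℝ) / 2 ^ 34 ≤ ((ball G y {x} r').card : ℝ) := by
    by_contra hno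
    push Not at hno
    have hsub : ball G y S r ⊆ univ.filter (fun x => ((ball G y {x} r').card : ℝ) <
      Fintype.card V / 2 ^ 34) := fun x hx => Finset.mem_filter.2 ⟨Finset.mem_univ x, hno x hx⟩
    have h3 : ((ball G y S r).card : ℝ) ≤ Fintype.card V / 4 :=
      le_trans (by exact_mod_cast Finset.card_le_card hsub) htyp
    linarith
  obtain ⟨w, hw1, hw2⟩ := mem_ball_iff_single.1 hx1
  obtain ⟨i, hi, hwi⟩ := Finset.mem_biUnion.1 hw1
  have hwN : w ∈ Nb i := (Finset.mem_filter.1 hwi).1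
  have hwy : y w ≤ t := (Finset.mem_filter.1 hwi).2
  have hsub : ball G y {x} r' ⊆ cball G y (Nb i) (t + (r + r')) := by
    refine Finset.Subset.trans ?_ (ball_subset_cball hwN hwy)
    refine Finset.Subset.trans (ball_mono (Finset.singleton_subset_iff.2 hw2) le_rfl) ?_
    exact ball_ball
  have hbad := (Finset.mem_filter.1 hi).2.2
  have heq : (θ + 14 / (κ * α) + 2 / ω ^ 2) * √(E / D) = t + (r + r') := by
    rw [ht, hr, hr']; ring
  rw [heq] at hbad
  have h3 : ((ball G y {x} r').card : ℝ) ≤ ((cball G y (Nb i) (t + (r + r'))).card : ℝ) := by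
    exact_mod_cast Finset.card_le_card hsub
  linarith

end

end Pool.Agent.H25.TK
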